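import Pool.Agent.PotH.InH
import Pool.Agent.NUGC.CuOkC

/-!
# The curve of TARGET-C is an admissible curve, any sea, any number of rows

* **`exists_crvC`**: `CrvP e1 Cc m (etaC e1 J m m) (etaC' e1 J m m)` for every `m ≥ m0`;
* `cur_facts`: the current of this curve is `hC`, its derivative is at most one, the facts `CuOk`.
-/

set_option autoImplicit false
set_option linter.unusedSectionVars false

open MeasureTheory Set Filter Topology

namespace PotH

open NUO NUGC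

noncomputable section

/-- a Lipschitz function has a derivative at most one -/
theorem deriv_le_of_lip {f : ℝ → ℝ} (h : ∀ t t', |f t - f t'| ≤ |t - t'|) (t : ℝ) :
    |deriv f t| ≤ 1 := by
  have h1 : LipschitzWith 1 f := LipschitzWith.of_dist_le_mul fun x y => by
    rw [Real.dist_eq, Real.dist_eq, NNReal.coe_one, one_mul]
    exact h x y
  have h2 := norm_deriv_le_of_lipschitz (x₀ := t) h1
  rwa [Real.norm_eq_abs, NNReal.coe_one] at h2

variable [NUSea.Sea]

/-- **the curve of TARGET-C is admissible**, every number of rows `m ≥ m0` -/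
theorem exists_crvC {e1 J : ℝ} (he : 0 < e1) (he1 : e1 ≤ 1 / 100) (hJ : 0 ≤ J) :
    ∃ Cc : ℝ, 1 ≤ Cc ∧ ∃ m0 : ℕ, 1 ≤ m0 ∧ ∀ m : ℕ, m0 ≤ m → 20 ≤ Tb (Real.log m) ∧
      CrvP e1 Cc m (etaC e1 J m m) (etaC' e1 J m m) := by
  obtain ⟨C, hC, m1, hm1, H⟩ := exists_curC he he1 hJ (x := 1 / 100) (by norm_num)
  obtain ⟨m2, H2⟩ := slope_one he J hJ
  refine ⟨C, hC, max m1 m2, hm1.trans (le_max_left _ _), fun m hm => ?_⟩
  have k1 : m1 ≤ m := (le_max_left _ _).trans hm
  have k2 : m2 ≤ m := (le_max_right _ _).trans hm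
  obtain ⟨hT, Hs⟩ := H m k1
  have hmp : (0 : ℝ) < m := by
    have : 0 < m := lt_of_lt_of_le (by omega) (hm1.trans k1)
    exact_mod_cast this
  obtain ⟨ε, e, h1, h2, h3, h4⟩ := Hs m (by linarith)
  exact ⟨hT,
    { cur := ⟨ε, e, h1, h2, h3, h4⟩
      d := etaC_hasDeriv e1 J m m
      c := etaC'_cont e1 J m m
      nn := etaC_nonneg he1 hJ hT hmp.le
      lip := fun t t' => by
        rw [mul_etaC hmp, mul_etaC hmp]
        exact H2 m k2 he1 hT t t' }⟩

/-- **facts on the current**: it is `hC`, derivative at most one, `CuOk` -/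
theorem cur_facts {e1 J : ℝ} (he : 0 < e1) (he1 : e1 ≤ 1 / 100) (hJ : 0 ≤ J) :
    ∃ (Cb : ℝ) (m0 : ℕ), 1 ≤ m0 ∧ ∀ m : ℕ, m0 ≤ m →
      (∀ t, (m : ℝ) * NUSea.P t * etaC e1 J m m t = hC e1 J m t) ∧
      (∀ t, NUSea.hd m (etaC e1 J m m) (etaC' e1 J m m) t = deriv (hC e1 J m) t) ∧
      (∀ t, |NUSea.hd m (etaC e1 J m m) (etaC' e1 J m m) t| ≤ 1) ∧
      CuOk e1 J Cb m (fun t => (m : ℝ) * NUSea.P t * etaC e1 J m m t)
        (NUSea.hd m (etaC e1 J m m) (etaC' e1 J m m)) := by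
  obtain ⟨Cb, m1, H⟩ := cuOkC he he1 hJ
  refine ⟨Cb, max m1 1, le_max_right _ _, fun m hm => ?_⟩
  have k1 : m1 ≤ m := (le_max_left _ _).trans hm
  have hmp : (0 : ℝ) < m := by
    have : 1 ≤ m := (le_max_right _ _).trans hm
    exact_mod_cast this
  have h1 := H m k1 m (by linarith)
  have e1' : NUSea.hd m (etaC e1 J m m) (etaC' e1 J m m) = deriv (hC e1 J m) := hd_curC hmp
  refine ⟨mul_etaC hmp, fun t => by rw [e1'], fun t => ?_, h1⟩
  rw [e1']
  refine deriv_le_of_lip (fun x y => ?_) t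
  have h2 := h1.lip x y
  simp only [mul_etaC hmp] at h2
  exact h2

end

end PotH
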