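import Pool.Agent.PotH.Fx
import Pool.Agent.NUGC.QInt

/-!
# Real potentials from analytic functions

`exists_ofAnal`: an analytic function `h a` on `|Im z| < 1/20` with
`‖h a z‖ ≤ B ∑ i, exp (-|Re z - c i|)` gives an admissible potential `t ↦ Re (h a (t + i η t))` on every
admissible curve: size `B n`, energy at most `K (B n)²` on every interval, four derivatives.
-/

set_option autoImplicit false
set_option linter.unusedSectionVars false

open MeasureTheory Set Filter Topology

namespace PotH

open NUO (Tb)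

noncomputable section

/-- the real potential of an analytic function -/
def anH (h : Bool → ℂ → ℂ) (η : ℝ → ℝ) (a : Bool) (t : ℝ) : ℝ := (h a (t + η t * Complex.I)).re

/-- its derivative -/
def anH' (h : Bool → ℂ → ℂ) (η η1 : ℝ → ℝ) (a : Bool) (t : ℝ) : ℝ :=
  (deriv (h a) (t + η t * Complex.I) * (1 + η1 t * Complex.I)).re

variable [NUSea.Sea]

/-- **potentials from analytic functions** -/
theorem exists_ofAnal : ∃ K : ℝ, 1 ≤ K ∧ ∀ {e1 Cc : ℝ} {m : ℕ} {η η1 : ℝ → ℝ}, CrvP e1 Cc m η η1 →
    ∀ (n : ℕ) (c : Fin n → ℝ) (B : ℝ) (h : Bool → ℂ → ℂ), 0 ≤ B →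
    (∀ a z, |z.im| < 1 / 20 → DifferentiableAt ℂ (h a) z) →
    (∀ a z, |z.im| < 1 / 20 → ‖h a z‖ ≤ B * ∑ i, Real.exp (-|z.re - c i|)) →
    ∀ b A : ℝ, K * (B * n) ≤ A → HOk (B * n) (K * (B * n) ^ 2) 0 b A (anH h η) (anH' h η η1) := by
  obtain ⟨C, hC, HC⟩ := NUR2.ext_anal 4 (κ := 1 / 20) (by norm_num) (by norm_num)
  refine ⟨C + 100 ^ 2 + 1, by linarith, fun {e1 Cc m η η1} hcv n c B h hB hd hb b A hA => ?_⟩
  have hη : ∀ t, |η t| ≤ 1 / 100 := hcv.le
  have hη1 : ∀ t, |η1 t| ≤ 1 := hcv.le1
  have him : ∀ t : ℝ, ((t : ℂ) + η t * Complex.I).im = η t := fun t => by simp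
  have hre : ∀ t : ℝ, ((t : ℂ) + η t * Complex.I).re = t := fun t => by simp
  have hS0 : ∀ x : ℝ, 0 ≤ ∑ i, Real.exp (-|x - c i|) := fun x =>
    Finset.sum_nonneg fun _ _ => (Real.exp_pos _).le
  have hSn : ∀ x : ℝ, ∑ i, Real.exp (-|x - c i|) ≤ n := fun x => by
    have h1 : ∀ i ∈ (Finset.univ : Finset (Fin n)), Real.exp (-|x - c i|) ≤ 1 := fun i _ =>
      Real.exp_le_one_iff.2 (by have := abs_nonneg (x - c i); linarith)
    have h2 := Finset.sum_le_sum h1
    simpa using h2
  have hcd : ∀ t, HasDerivAt (fun t : ℝ => (t : ℂ) + η t * Complex.I) (1 + η1 t * Complex.I) t := by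
    intro t
    exact (Complex.ofRealCLM.hasDerivAt (x := t)).add ((hcv.d t).ofReal_comp.mul_const Complex.I)
  have hst : ∀ t : ℝ, |((t : ℂ) + η t * Complex.I).im| < 1 / 20 := fun t => by
    rw [him]
    linarith [hη t]
  have hder : ∀ a t, HasDerivAt (anH h η a) (anH' h η η1 a t) t := by
    intro a t
    have h1 := (hd a _ (hst t)).hasDerivAt
    have h2 : HasDerivAt (fun t : ℝ => h a ((t : ℂ) + η t * Complex.I))
        (deriv (h a) (t + η t * Complex.I) * (1 + η1 t * Complex.I)) t := h1.comp t (hcd t)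
    exact (Complex.reCLM.hasFDerivAt (x := h a ((t : ℂ) + η t * Complex.I))).comp_hasDerivAt t h2
  have hop : IsOpen {z : ℂ | |z.im| < 1 / 20} :=
    isOpen_lt (continuous_abs.comp Complex.continuous_im) continuous_const
  have hηc : Continuous η := hcv.cont
  have hcc : Continuous fun t : ℝ => (t : ℂ) + η t * Complex.I := by fun_prop
  have hcont : ∀ a, Continuous (anH' h η η1 a) := by
    intro a
    have h1 : DifferentiableOn ℂ (h a) {z : ℂ | |z.im| < 1 / 20} := fun z hz =>
      (hd a z hz).differentiableWithinAt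
    have h2 : ContinuousOn (deriv (h a)) {z : ℂ | |z.im| < 1 / 20} := (h1.deriv hop).continuousOn
    have h3 : Continuous fun t : ℝ => deriv (h a) (t + η t * Complex.I) :=
      h2.comp_continuous hcc hst
    have h4 : Continuous fun t : ℝ => (1 : ℂ) + η1 t * Complex.I := by
      have := hcv.c
      fun_prop
    exact Complex.continuous_re.comp (h3.mul h4)
  have hle : ∀ a t, |anH h η a t| ≤ B * ∑ i, Real.exp (-|t - c i|) := by
    intro a t
    have h1 := hb a _ (hst t)
    rw [hre] at h1
    exact (Complex.abs_re_le_norm _).trans h1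
  have hle' : ∀ a t, |anH' h η η1 a t| ≤ 99 * (B * ∑ i, Real.exp (-|t - c i|)) := by
    intro a t
    have h1 : ‖deriv (h a) (t + η t * Complex.I)‖ ≤
        (B * (Real.exp (1 / 30) * ∑ i, Real.exp (-|t - c i|))) / (1 / 30) := by
      refine Complex.norm_deriv_le_of_forall_mem_sphere_norm_le (by norm_num) ?_ ?_
      · refine DifferentiableOn.diffContOnCl fun z hz => ?_
        refine (hd a z ?_).differentiableWithinAt
        have h2 : dist z ((t : ℂ) + η t * Complex.I) ≤ 1 / 30 := by
          have := Metric.closure_ball_subset_closedBall hz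
          exact this
        rw [dist_eq_norm] at h2
        have h3 := (Complex.abs_im_le_norm _).trans h2
        rw [Complex.sub_im, him] at h3
        have h4 := abs_sub_abs_le_abs_sub z.im (η t)
        have := hη t
        linarith
      · intro z hz
        have h2 : ‖z - ((t : ℂ) + η t * Complex.I)‖ = 1 / 30 := by
          have := hz
          rw [mem_sphere_iff_norm] at this
          exact this
        have h3 := (Complex.abs_im_le_norm _).trans h2.le
        have h5 := (Complex.abs_re_le_norm _).trans h2.le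
        rw [Complex.sub_im, him] at h3
        rw [Complex.sub_re, hre] at h5
        have h4 := abs_sub_abs_le_abs_sub z.im (η t)
        have h6 := hη t
        refine (hb a z (by linarith)).trans (mul_le_mul_of_nonneg_left ?_ hB)
        rw [Finset.mul_sum]
        refine Finset.sum_le_sum fun i _ => ?_
        rw [← Real.exp_add]
        refine Real.exp_le_exp.2 ?_
        have h7 := abs_sub_abs_le_abs_sub (t - c i) (z.re - c i)
        have h8 : t - c i - (z.re - c i) = -(z.re - t) := by ring
        rw [h8, abs_neg] at h7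
        linarith
    have h2 : ‖(1 : ℂ) + η1 t * Complex.I‖ ≤ 3 / 2 := by
      have h3 : ‖(1 : ℂ) + η1 t * Complex.I‖ ^ 2 = 1 + η1 t ^ 2 := by
        rw [Complex.sq_norm, Complex.normSq_apply]
        simp
        ring
      have h4 : η1 t ^ 2 ≤ 1 := by
        rw [← sq_abs]
        have := hη1 t
        have := abs_nonneg (η1 t)
        nlinarith
      have h5 := norm_nonneg ((1 : ℂ) + η1 t * Complex.I)
      nlinarith
    have he : Real.exp (1 / 30 : ℝ) ≤ 11 / 10 := by
      have := Real.exp_bound' (x := 1 / 30) (by norm_num) (by norm_num) (n := 2) (by norm_num)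
      refine this.trans ?_
      simp [Finset.sum_range_succ, Nat.factorial]
      norm_num
    have h5 := hS0 t
    calc |anH' h η η1 a t| ≤ ‖deriv (h a) (t + η t * Complex.I) * (1 + η1 t * Complex.I)‖ :=
          Complex.abs_re_le_norm _
      _ = ‖deriv (h a) (t + η t * Complex.I)‖ * ‖(1 : ℂ) + η1 t * Complex.I‖ := norm_mul _ _
      _ ≤ (B * (Real.exp (1 / 30) * ∑ i, Real.exp (-|t - c i|))) / (1 / 30) * (3 / 2) := by
          gcongr
      _ = 45 * Real.exp (1 / 30) * (B * ∑ i, Real.exp (-|t - c i|)) := by ring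
      _ ≤ _ := by
          have : 0 ≤ B * ∑ i, Real.exp (-|t - c i|) := mul_nonneg hB h5
          nlinarith
  have hn0 : (0 : ℝ) ≤ n := Nat.cast_nonneg n
  refine ⟨hder, hcont, fun a t => (hle a t).trans (mul_le_mul_of_nonneg_left (hSn t) hB),
    fun a T hT => ?_, fun a => ?_⟩
  · have hHc : Continuous (anH h η a) := continuous_iff_continuousAt.2 fun t => (hder a t).continuousAt
    have hint : ∀ i, Integrable (fun t : ℝ => Real.exp (-2 * |t - c i|)) ∧
        ∫ t : ℝ, Real.exp (-2 * |t - c i|) = 1 := fun i => by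
      have h1 := NUGC.qi_exp_abs (a := 2) (by norm_num) (c i)
      exact ⟨h1.1, h1.2.trans (by norm_num)⟩
    have hpt : ∀ t, anH h η a t ^ 2 + anH' h η η1 a t ^ 2 ≤
        100 ^ 2 * B ^ 2 * n * ∑ i, Real.exp (-2 * |t - c i|) := by
      intro t
      obtain ⟨S, hS⟩ : ∃ S, S = ∑ i, Real.exp (-|t - c i|) := ⟨_, rfl⟩
      have h0 : 0 ≤ S := hS ▸ hS0 t
      have h1 := hle a t
      have h2 := hle' a t
      rw [← hS] at h1 h2
      have h3 : anH h η a t ^ 2 ≤ (B * S) ^ 2 := by
        rw [← sq_abs]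
        exact pow_le_pow_left₀ (abs_nonneg _) h1 2
      have h4 : anH' h η η1 a t ^ 2 ≤ (99 * (B * S)) ^ 2 := by
        rw [← sq_abs]
        exact pow_le_pow_left₀ (abs_nonneg _) h2 2
      have h5 : S ^ 2 ≤ n * ∑ i, Real.exp (-2 * |t - c i|) := by
        have h6 := sq_sum_le_card_mul_sum_sq (s := (Finset.univ : Finset (Fin n)))
          (f := fun i => Real.exp (-|t - c i|))
        rw [← hS, Finset.card_univ, Fintype.card_fin] at h6
        refine h6.trans (le_of_eq ?_)
        congr 1
        refine Finset.sum_congr rfl fun i _ => ?_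
        rw [← Real.exp_nat_mul]
        congr 1
        push_cast
        ring
      have h7 : 0 ≤ B ^ 2 := sq_nonneg B
      have h8 : B ^ 2 * S ^ 2 ≤ B ^ 2 * (n * ∑ i, Real.exp (-2 * |t - c i|)) :=
        mul_le_mul_of_nonneg_left h5 h7
      have h9 : 0 ≤ B ^ 2 * (n * ∑ i, Real.exp (-2 * |t - c i|)) := by
        have : 0 ≤ ∑ i, Real.exp (-2 * |t - c i|) :=
          Finset.sum_nonneg fun _ _ => (Real.exp_pos _).le
        positivity
      nlinarith
    have hI : Integrable fun t : ℝ => 100 ^ 2 * B ^ 2 * n * ∑ i, Real.exp (-2 * |t - c i|) :=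
      (integrable_finsetSum _ fun i _ => (hint i).1).const_mul _
    have hc2 : Continuous fun t => anH h η a t ^ 2 + anH' h η η1 a t ^ 2 :=
      (hHc.pow 2).add ((hcont a).pow 2)
    have h0 : ∀ t, 0 ≤ 100 ^ 2 * B ^ 2 * n * ∑ i, Real.exp (-2 * |t - c i|) := fun t => by
      have : 0 ≤ ∑ i, Real.exp (-2 * |t - c i|) :=
        Finset.sum_nonneg fun _ _ => (Real.exp_pos _).le
      positivity
    calc ∫ t in (-T)..T, (anH h η a t ^ 2 + anH' h η η1 a t ^ 2)
        ≤ ∫ t in (-T)..T, 100 ^ 2 * B ^ 2 * n * ∑ i, Real.exp (-2 * |t - c i|) :=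
          intervalIntegral.integral_mono_on (by linarith) (hc2.intervalIntegrable _ _)
            hI.intervalIntegrable fun t _ => hpt t
      _ ≤ ∫ t : ℝ, 100 ^ 2 * B ^ 2 * n * ∑ i, Real.exp (-2 * |t - c i|) := by
          rw [intervalIntegral.integral_of_le (by linarith)]
          exact setIntegral_le_integral hI (ae_of_all _ h0)
      _ = 100 ^ 2 * (B * n) ^ 2 := by
          rw [integral_const_mul, integral_finsetSum _ fun i _ => (hint i).1,
            Finset.sum_congr rfl fun i _ => (hint i).2]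
          simp
          ring
      _ ≤ _ := by
          have : 0 ≤ (B * (n : ℝ)) ^ 2 := sq_nonneg _
          nlinarith
  · have hBn : 0 ≤ B * n := mul_nonneg hB hn0
    obtain ⟨ε, e, hc, h0, -, h1⟩ := hcv.cur
    have hO : NUOC.O 4 1 η := hc.O4.mono (by linarith)
    have key := HC (b := b) (A := B * n) (F := h a) (η := η) hBn
      (fun z hz => (hd a z hz.2).differentiableWithinAt)
      (fun z _ hz => (hb a z hz).trans (mul_le_mul_of_nonneg_left (hSn _) hB)) hO
      (fun x => by linarith [hη x])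
    refine key.mono (le_trans ?_ hA)
    nlinarith

end

end PotH
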