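import Pool.Agent.PotH.CutB
import Pool.Agent.PotH.OfAnal
import Pool.Agent.NUSea.H0.ShlC2
import Pool.Agent.NUP1.HomB

/-!
# Plan B: the cutoff of the rows `0^K ++ ex` is an admissible cutoff

**`exists_cutR`**: for `m ≥ m0` there is one majorant `Bc` such that for every list `W` of rows and
cutoff points, `W ~ 0^K ++ ex`, `m ≤ K + n0`, `K ≤ 3 m`, at most `n0` points `ex`, `|re x| ≤ l / 5`,
`|im x| ≤ h0`, and every admissible curve, `t ↦ ‖phi ((4 / 3) (1 - ep)) W (pA η t)‖` satisfies `CutR`.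
-/

set_option autoImplicit false
set_option linter.unusedSectionVars false

open MeasureTheory Set Filter Topology

namespace PotH

open NUO (Tb)

noncomputable section

/-- the cutoff of a list of rows and cutoff points on the curve -/
def cfW (ep : ℝ) (W : List ℂ) (η : ℝ → ℝ) (t : ℝ) : ℝ :=
  ‖NUP1.phi (4 / 3 * (1 - ep)) W (NUO.pA η t)‖

lemma uI_curve (η : ℝ → ℝ) (t : ℝ) : uI ((t : ℂ) + (η t : ℂ) * Complex.I) = NUO.pA η t := by
  unfold uI NUO.pA NUP1.vl
  push_cast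
  linear_combination (η t : ℂ) * Complex.I_sq

variable [NUSea.Sea]

/-- **the cutoff of the rows `0^K ++ ex` is admissible** -/
theorem exists_cutR {ep e1 : ℝ} (hep : 0 < ep) (hep1 : ep ≤ 1 / 100) (he : 0 < e1)
    (he1 : e1 ≤ 1 / 100) (Cc : ℝ) (n0 : ℕ) {hh : ℝ} (hhh : 0 ≤ hh) :
    ∃ C0 : ℝ, 1 ≤ C0 ∧ ∃ m0 : ℕ, 1 ≤ m0 ∧ ∀ m ≥ m0, ∃ Bc Bc' : ℝ → ℝ,
      ∀ (K : ℕ) (W ex : List ℂ), RwI n0 hh m K W ex → ∀ η η1 : ℝ → ℝ, CrvP e1 Cc m η η1 →
      CutR ep C0 ((1 - e1) * Tb (Real.log m)) m (cfW ep W η) Bc Bc' := by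
  obtain ⟨c, C, hc, hC, m1, hm1, H⟩ := exists_cutW hep hep1 n0 hhh
  obtain ⟨C2, hC2, HC2⟩ := NUR2.ext_anal 4 (κ := ep / 2) (by linarith) (by linarith)
  obtain ⟨m2, -, HL⟩ := exists_lphW hep hep1 n0 hhh he (by linarith : e1 ≤ 1) (A := 1 / C2)
    (by positivity)
  obtain ⟨C0, hC0, HB⟩ := NUSea.H0.exists_Bl (p := 8 / 3 * (1 - ep)) (c := c) (C1 := C)
    (by linarith) (by linarith) hc (by linarith)
  have ht : Tendsto (fun m : ℕ => (m : ℝ) ^ (-(e1 / 2))) atTop (𝓝 0) :=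
    (tendsto_rpow_neg_atTop (by positivity)).comp tendsto_natCast_atTop_atTop
  obtain ⟨m3, hm3⟩ := eventually_atTop.1 (ht.eventually_le_const (show (0 : ℝ) < ep / 4 by linarith))
  refine ⟨C0, hC0, max m1 (max m2 m3), hm1.trans (le_max_left _ _), fun m hm => ?_⟩
  have hmm1 := (le_max_left m1 (max m2 m3)).trans hm
  have hmm2 := ((le_max_left m2 m3).trans (le_max_right m1 _)).trans hm
  have hmm3 := ((le_max_right m2 m3).trans (le_max_right m1 _)).trans hm
  have hm0 : 1 ≤ m := hm1.trans hmm1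
  obtain ⟨B, B', g1, g2, g3, g4, -, -, g7, g8, g9, g10, g11⟩ := HB m hm0
  refine ⟨B, B', fun K W ex hW η η1 hη => ?_⟩
  have hB' : B' = deriv B := funext fun t => (g2 t).deriv.symm
  have hpos : ∀ t, NUP1.l - 1 / 100 ≤ (NUO.pA η t).re ∧ (NUO.pA η t).re ≤ NUP1.l + ep / 2 := by
    intro t
    rw [NUSea.H0.pA_re]
    have h2 := hη.nn t
    have h3 := (abs_le.1 (hη.le t)).2
    constructor <;> linarith
  have key : ∀ t, cfW ep W η t ≤ 1 + Real.exp (-(c * (m * Real.exp (-(8 / 3 * (1 - ep)) * |t|)))) ∧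
      cfW ep W η t ≤ C * (m * Real.exp (-(8 / 3 * (1 - ep)) * |t|)) := by
    intro t
    obtain ⟨k1, k2⟩ := H m hmm1 K W ex hW (NUO.pA η t) (hpos t).1 (hpos t).2
    rw [NUSea.H0.pA_im] at k1 k2
    refine ⟨?_, k2⟩
    unfold cfW
    rw [phi_perm_K hW.perm]
    refine (norm_sub_le _ _).trans ?_
    rw [norm_one]
    exact add_le_add le_rfl k1
  have hmeas : Measurable (cfW ep W η) := by
    have h1 : Measurable (NUO.pA η) := by
      have := hη.cont.measurable
      unfold NUO.pA NUP1.vl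
      fun_prop
    exact ((NUP1.Bd.measurable_phi _ _).comp h1).norm
  refine ⟨hmeas, fun t => norm_nonneg _, g2, ?_, g3, g4, g7, g8, g9, g10,
    fun t => (g11 t _ (key t).1 (key t).2).1, fun t => ?_,
    fun t => (g11 t _ (key t).1 (key t).2).2, ?_⟩
  · rw [hB']
    exact g1.continuous_deriv (by norm_num)
  · refine (key t).1.trans ?_
    have h2 : Real.exp (-(c * (m * Real.exp (-(8 / 3 * (1 - ep)) * |t|)))) ≤ 1 := by
      rw [Real.exp_le_one_iff]
      have : 0 ≤ c * (m * Real.exp (-(8 / 3 * (1 - ep)) * |t|)) := by positivity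
      linarith
    linarith
  · -- the logarithm in the bulk
    obtain ⟨ε, e, hcur, hε0, hε, hε1⟩ := hη.cur
    have hηs : ∀ x, |η x| ≤ ep / 2 / 2 := fun x => by
      have h2 := (hcur.O4.1 x).trans (hε.trans (hm3 m hmm3))
      linarith
    have hO : NUOC.O 4 1 η := hcur.O4.mono (by linarith)
    have hloc : ∀ z : ℂ, |z.re| < (1 - e1) * Tb (Real.log m) + 2 → |z.im| < ep / 2 →
        |z.re| ≤ (1 - e1) * (3 / 8 * Real.log m) + 5 ∧ |z.im| ≤ ep / 2 := by
      intro z h2 h3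
      unfold Tb at h2
      exact ⟨by linarith, h3.le⟩
    have hext := HC2 (b := (1 - e1) * Tb (Real.log m)) (A := 1 / C2)
      (F := fun z => Complex.log (NUP1.phi (4 / 3 * (1 - ep)) W (uI z))) (η := η) (by positivity)
      (fun z hz => (HL m hmm2 K W ex hW z (hloc z hz.1 hz.2).1
        (hloc z hz.1 hz.2).2).1.differentiableWithinAt)
      (fun z h2 h3 => (HL m hmm2 K W ex hW z (hloc z h2 h3).1 (hloc z h2 h3).2).2.1) hO hηs
    rw [mul_one_div_cancel (by linarith)] at hext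
    refine ⟨_, hext, fun t ht => ?_⟩
    have hz1 : ((t : ℂ) + (η t : ℂ) * Complex.I).re = t := by simp
    have hz2 : ((t : ℂ) + (η t : ℂ) * Complex.I).im = η t := by simp
    have h4 := (HL m hmm2 K W ex hW ((t : ℂ) + (η t : ℂ) * Complex.I) (by
      rw [hz1]
      unfold Tb at ht
      linarith) (by
      rw [hz2]
      linarith [hηs t])).2.2
    rw [uI_curve] at h4
    unfold cfW
    rw [h4, ← uI_curve η t]

/-- **instances**: the rows `0^n`, `m ≤ n ≤ 3 m` -/
theorem RwI.zero {m n : ℕ} (h1 : m ≤ n) (h2 : n ≤ 3 * m) : RwI 0 0 m n (List.replicate n 0) [] where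
  perm := by simp
  len := by simp
  pt := by simp
  up := h2
  dn := by omega

end

end PotH
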