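import Pool.Agent.PB.DomL
import Pool.Agent.PB.ValH
import Pool.Agent.NUGC.RedC

/-!
# Plan B: the one body data with the ends at `0`, rows at `0`, on the curve

Sea `NUSea.seaP` (rows at `0`).

* `Th0`: modulus of the factor of the ends at `0` (one row taken out); `Hend`: its potential against
  the ends `± l / 2` of `NUSp.DD pE qE`;
* **`hok_end`**: `Hend` is an admissible potential, constants `B0`, `N0` absolute;
* **`int_end`**: `∫ m P Hend = O(1)` on every admissible curve;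
* **`dom_end`**: the one body data with `k` rows at `0`, the ends at `0` and a family of groups on the
  curve.
-/

set_option autoImplicit false
set_option linter.unusedSectionVars false

noncomputable section

open MeasureTheory Filter Topology Set Complex

namespace PotH

open NUMF (l l_pos)
open NUO (pA Tb yw)
open NUSea.H0 (Gd)
open NUGC (OB ThN spF pE qE)
open NUAct (zt)
open NUKer (iD)
open NUSp (wd wq wph wn)
open PBH (AT HS HS' Atm AtOk)
open PBV (Fit yr sin_neF log_bk)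

/-! ### the row factor -/

/-- `k` rows at `0` -/
theorem rwC0_pow {η : ℝ → ℝ} {t : ℝ} (h : |η t| < l) (k : ℕ) :
    PBO.rwC 0 (pA η t) ^ k =
      Real.exp ((k : ℝ) * (@NUSea.vc NUSea.seaP (NUAct.zt (NUKer.iD η) t)).re) := by
  have h1 : PBO.rwC 0 (pA η t) = Real.exp (@NUSea.vc NUSea.seaP (NUAct.zt (NUKer.iD η) t)).re :=
    PBL.row0_pA h
  rw [h1, ← Real.exp_nat_mul]

/-! ### the ends at `0` -/

/-- modulus of the factor of the ends at `0`, one row taken out -/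
def Th0 (u : ℂ) : ℝ := ‖Complex.sin u‖ / ‖Complex.sin (u - 2 * l)‖

theorem Th0_nonneg (u : ℂ) : 0 ≤ Th0 u := by unfold Th0; positivity

/-- the two legs at `0` are one row at `0` and `Th0` -/
theorem thZ0_sq {u : ℂ} (h1 : Complex.sin u ≠ 0) :
    PBO.thZ 0 u ^ 2 = PBO.rwC 0 u * Th0 u := by
  have hl : (NUP1.l : ℂ) = (l : ℂ) := rfl
  unfold PBO.thZ PBO.rwC Th0
  rw [hl, zero_sub, sub_zero, show -u - 3 * (l : ℂ) = -(u + 3 * l) by ring,
    show -u + 2 * (l : ℂ) = -(u - 2 * l) by ring, Complex.sin_neg, Complex.sin_neg, norm_neg, norm_neg]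
  have p1 : ‖Complex.sin u‖ ≠ 0 := norm_ne_zero_iff.2 h1
  rcases eq_or_ne ‖Complex.sin (u - 2 * l)‖ 0 with p2 | p2
  · rw [p2]
    simp
  · field_simp

theorem Th0_pA {δ : ℝ} {η : ℝ → ℝ} (hδ : 0 < δ) (hδ1 : δ ≤ l) (hη : ∀ t, |η t| ≤ δ / 2) (t : ℝ) :
    0 < Th0 (pA η t) ∧ Real.log (Th0 (pA η t)) = AT (3 * l) (-(3 * l)) 0 η t := by
  have hl := l_pos
  obtain ⟨-, s2, s3⟩ := PBH.sin_row 0 η t
  rw [Complex.zero_re, Complex.zero_im, sub_zero] at s2
  rw [Complex.zero_re, Complex.zero_im, sub_zero] at s3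
  rw [zero_add] at s2
  rw [zero_sub] at s3
  have p1 := PBH.pw_norm (c := 0) (y := 3 * l) hδ (by linarith)
    (by rw [abs_of_pos (by linarith)]; linarith) hη t
  have p2 := PBH.pw_norm (c := 0) (y := -(3 * l)) hδ (by linarith)
    (by rw [abs_neg, abs_of_pos (by linarith)]; linarith) hη t
  unfold Th0
  rw [s2, s3]
  exact ⟨by positivity, by rw [Real.log_div p1.ne' p2.ne', PBH.AT_log]⟩

/-- **the potential of the ends at `0`** against the ends `± l / 2` -/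
def Hend (η : ℝ → ℝ) (_a : Bool) (t : ℝ) : ℝ :=
  Real.log (Th0 (pA η t)) - Real.log (ThN (pA η t))

/-- its atoms -/
def aend (_a : Bool) : Fin 3 → Atm := ![⟨1, 3 * l, -(3 * l), 0⟩,
  ⟨-(1 / 2), 7 / 2 * l, -(7 / 2 * l), 0⟩, ⟨-(1 / 2), 5 / 2 * l, -(5 / 2 * l), 0⟩]

theorem Hend_eq {δ : ℝ} {η : ℝ → ℝ} (hδ : 0 < δ) (hδ1 : δ ≤ l / 2) (hη : ∀ t, |η t| ≤ δ / 2) :
    Hend η = HS aend η := by
  have hl := l_pos
  funext a t
  have e1 := (Th0_pA hδ (by linarith) hη t).2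
  have e4 := (PBH.ThN_pA hδ hδ1 hη t).2
  unfold Hend HS aend
  rw [e1, e4]
  simp only [Fin.sum_univ_succ, Matrix.cons_val_zero, Matrix.cons_val_succ, Fin.sum_univ_zero,
    Matrix.cons_val_fin_one]
  ring

lemma aend_ok {δ : ℝ} (hδ1 : δ ≤ l / 2) : AtOk 1 δ aend := by
  have hl := l_pos
  intro a i
  fin_cases i
  all_goals refine ⟨abs_le.2 ⟨?_, ?_⟩, abs_le.2 ⟨?_, ?_⟩, abs_le.2 ⟨?_, ?_⟩⟩
  all_goals simp [aend]
  all_goals linarith

section
variable [NUSea.Sea]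

/-- **the ends at `0` are an admissible potential**, `B0`, `N0` absolute -/
theorem hok_end : ∃ B0 N0 : ℝ, 0 ≤ B0 ∧ 0 ≤ N0 ∧ ∀ e1 : ℝ, 0 < e1 → ∃ m0 : ℕ, ∀ m : ℕ,
    m0 ≤ m → ∀ (Cc : ℝ) (η η1 : ℝ → ℝ), CrvP e1 Cc m η η1 →
      (∀ t, |η t| ≤ l / 8 ∧ 0 < Th0 (pA η t) ∧ 0 < ThN (pA η t) ∧
        ∀ a, Th0 (pA η t) = ThN (pA η t) * Real.exp (Hend η a t)) ∧
      ∃ H' : Bool → ℝ → ℝ, ∀ th b : ℝ, 0 ≤ th →
        HOk B0 N0 th b (Real.log m ^ 3) (Hend η) H' := by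
  have hl := l_pos
  have h8 := PBH.l8
  have hpi := Real.pi_lt_four
  obtain ⟨B0, N0, hB0, hN0, A0, hA0, H⟩ := PBH.hok_sm 3 (K := 1) (δ := l / 2) zero_le_one
    (by linarith) (by linarith)
  refine ⟨B0, N0, hB0, hN0, fun e1 he1 => ?_⟩
  have t1 : Tendsto (fun m : ℕ => (m : ℝ) ^ (-(e1 / 2))) atTop (𝓝 0) :=
    (tendsto_rpow_neg_atTop (by linarith : 0 < e1 / 2)).comp tendsto_natCast_atTop_atTop
  have t2 : Tendsto (fun m : ℕ => Real.log m ^ 3) atTop atTop :=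
    (tendsto_pow_atTop (by norm_num)).comp (Real.tendsto_log_atTop.comp tendsto_natCast_atTop_atTop)
  obtain ⟨m1, hm1⟩ := eventually_atTop.1 ((t1.eventually (ge_mem_nhds (by linarith :
    (0 : ℝ) < l / 2 / 4))).and (t2.eventually_ge_atTop A0))
  refine ⟨m1, fun m hm Cc η η1 hη => ?_⟩
  obtain ⟨a1, a2⟩ := hm1 m hm
  have hS := PBH.sm_of hη a1
  have hη2 : ∀ t, |η t| ≤ l / 2 / 2 := fun t => (hS.le t).trans (by linarith)
  refine ⟨fun t => ⟨(hS.le t).trans (by linarith), ?_⟩, HS' aend η η1, fun th b hth => ?_⟩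
  · have p1 := (Th0_pA (by linarith : 0 < l / 2) (by linarith) hη2 t).1
    have p4 := (PBH.ThN_pA (by linarith : 0 < l / 2) le_rfl hη2 t).1
    refine ⟨p1, p4, fun a => ?_⟩
    unfold Hend
    rw [Real.exp_sub, Real.exp_log p1, Real.exp_log p4]
    field_simp
  · rw [Hend_eq (by linarith : 0 < l / 2) le_rfl hη2]
    exact H η η1 hS _ (aend_ok le_rfl) th b _ hth a2

end

/-! ### the linear term of the ends at `0` -/

/-- word of the ends at `0` -/
def L0 : List (ℤ × ℝ) := [(0, 1), (-2, -1)]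

lemma y0 : yw 0 0 = 3 * l ∧ yw 0 (-2) = -(3 * l) := by
  have hl := l_pos
  obtain ⟨-, h0, h2⟩ := yr (x := 0) (by rw [Complex.zero_re, abs_zero]; positivity)
  rw [Complex.zero_re] at h0 h2
  exact ⟨by rw [h0]; ring, by rw [h2]; ring⟩

lemma fit_0 : Fit (1 / 10) L0 0 := by
  have hl := l_pos
  obtain ⟨h0, h1⟩ := y0
  intro kc hk
  simp only [L0, List.mem_cons, List.not_mem_nil, or_false] at hk
  rcases hk with rfl | rfl
  · show |yw 0 0| ≤ _
    rw [h0, abs_le]; constructor <;> linarith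
  · show |yw 0 (-2)| ≤ _
    rw [h1, abs_le]; constructor <;> linarith

lemma wph_0 : wph L0 0 = 6 * l := by
  obtain ⟨h0, h1⟩ := y0
  simp only [L0, NUSp.wph_cons, NUSp.wph_nil]
  rw [h0, h1]
  ring

lemma wq_0 : wq L0 = 0 := by
  simp only [L0, NUSp.wq_cons, NUSp.wq_nil]
  norm_num

/-- the factor of the ends at `0` is the word -/
lemma log_Th0 {ζ : ℂ} (hζ : |ζ.im| < 1 / 10 * l) :
    Real.log (Th0 (l + I * ζ)) = (wd L0 0 ζ).re := by
  have hF := fit_0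
  have s0 : 0 < ‖Complex.sin (((l : ℂ) + I * ζ) - 0 + ((0 : ℤ) : ℂ) * l)‖ :=
    sin_neF (hF (0, 1) (by simp [L0])) hζ
  have s2 : 0 < ‖Complex.sin (((l : ℂ) + I * ζ) - 0 + ((-2 : ℤ) : ℂ) * l)‖ :=
    sin_neF (hF (-2, -1) (by simp [L0])) hζ
  simp only [L0, NUSp.wd_cons, NUSp.wd_nil, Complex.add_re, Complex.re_ofReal_mul,
    Complex.zero_re, log_bk]
  have e0 : (l : ℂ) + I * ζ = (l + I * ζ) - 0 + ((0 : ℤ) : ℂ) * l := by
    push_cast
    ring
  have e2 : (l : ℂ) + I * ζ - 2 * l = (l + I * ζ) - 0 + ((-2 : ℤ) : ℂ) * l := by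
    push_cast
    ring
  unfold Th0
  rw [← e0] at s0
  rw [e2, ← e0, Real.log_div s0.ne' s2.ne']
  ring

/-- on the line the ends have modulus one -/
lemma re_0 (t : ℝ) : (wd L0 0 t).re = 0 := by
  have hl := l_pos
  rw [← log_Th0 (by rw [Complex.ofReal_im, abs_zero]; positivity)]
  have hll : (l : ℂ) + I * t - 2 * l = -((starRingEnd ℂ) ((l : ℂ) + I * t)) := by
    simp only [map_add, map_mul, Complex.conj_ofReal, Complex.conj_I]
    ring
  unfold Th0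
  rw [hll, Complex.sin_neg, norm_neg, Complex.sin_conj, RCLike.norm_conj]
  rcases eq_or_ne ‖Complex.sin ((l : ℂ) + I * t)‖ 0 with h | h
  · rw [h]
    simp
  · rw [div_self h, Real.log_one]

section P0

attribute [local instance] NUSea.seaP

/-- **the ends at `0` against the sea** -/
theorem exists_th0 : ∃ C : ℝ, 1 ≤ C ∧ ∀ {s ε M b : ℝ} {e η η1 : ℝ → ℝ}, 0 ≤ s →
    ε ≤ 1 / 100 → NUSea.Cur s ε M b e η → (∀ t, HasDerivAt η (η1 t) t) → 0 ≤ b →
    (∀ t, |NUSea.hd s η η1 t| ≤ 1) →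
      Integrable (fun t => s * NUSea.P t * Real.log (Th0 (pA η t))) ∧
      |(∫ t, s * NUSea.P t * Real.log (Th0 (pA η t))) +
          12 * l * (s * NUSea.P 0 * η 0)| ≤ C * (1 + b * (M * ε)) := by
  obtain ⟨C, hC, H⟩ := PBV.exists_word
  refine ⟨C, hC, ?_⟩
  intro s ε M b e η η1 hs hε hcur h1 hb hA
  have hl := l_pos
  have hll : l = Real.pi / 8 := rfl
  have hp3 := Real.pi_gt_three
  have hp4 := Real.pi_le_four
  obtain ⟨i1, i2, h3⟩ := H hs hε hcur h1 hb hA L0 0 fit_0 wq_0 (by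
    rw [wph_0, abs_of_pos (by positivity)]; linarith) (by
    simp only [L0, NUSp.wn_cons, NUSp.wn_nil]; norm_num)
  rw [wph_0, Complex.zero_im] at h3
  have him : ∀ t, (zt (iD η) t).im = η t := fun t => by simp [NUAct.zt, iD]
  have hη : ∀ t, |η t| ≤ ε := fun t => (NUSea.Ev.le0 hcur t).trans (hcur.le t)
  have c1 : ∀ t, (wd L0 0 (zt (iD η) t)).re = Real.log (Th0 (pA η t)) := fun t => by
    rw [PBV.pA_zt, log_Th0 (by rw [him]; linarith [hη t])]
  simp only [c1] at i1 h3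
  simp only [re_0, mul_zero, integral_zero, sub_zero] at h3
  refine ⟨i1, ?_⟩
  rw [show 12 * l = 2 * (6 * l) by ring]
  exact h3

/-- the current of an admissible curve has slope at most one -/
theorem CrvP.hd_le {e1 Cc : ℝ} {m : ℕ} {η η1 : ℝ → ℝ} (h : CrvP e1 Cc m η η1) (t : ℝ) :
    |NUSea.hd m η η1 t| ≤ 1 := by
  have h1 := NUSea.hasDerivAt_hd (m : ℝ) h.d t
  have h2 : LipschitzWith 1 fun t => (m : ℝ) * NUSea.P t * η t :=
    LipschitzWith.of_dist_le_mul fun x y => by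
      rw [Real.dist_eq, Real.dist_eq, NNReal.coe_one, one_mul]
      exact h.lip x y
  have h3 := norm_deriv_le_of_lipschitz (x₀ := t) h2
  rwa [h1.deriv, Real.norm_eq_abs, NNReal.coe_one] at h3

/-- **`∫ m P Hend = O(1)`** on every admissible curve -/
theorem int_end {e1 Cc : ℝ} (he : 0 < e1) (he1 : e1 ≤ 1) (hCc : 0 ≤ Cc) : ∃ C : ℝ, 0 ≤ C ∧
    ∀ (m : ℕ) (η η1 : ℝ → ℝ), 1 ≤ m → CrvP e1 Cc m η η1 → ∀ a : Bool,
      |∫ t, (m : ℝ) * NUSea.P t * Hend η a t| ≤ C := by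
  obtain ⟨C1, hC1, H1⟩ := exists_th0
  obtain ⟨C2, hC2, H2⟩ := PBV.exists_th
  refine ⟨(C1 + C2) * (1 + Cc * (16 / e1 ^ 2)), by positivity, ?_⟩
  intro m η η1 hm hcv a
  obtain ⟨ε, e, hcur, hε0, hε1, hε⟩ := hcv.cur
  have hm1 : (1 : ℝ) ≤ m := by exact_mod_cast hm
  have hL0 := Real.log_nonneg hm1
  have hTb : NUO.Tb (Real.log m) = 3 / 8 * Real.log m := rfl
  have hb : 0 ≤ (1 - e1) * NUO.Tb (Real.log m) := by
    rw [hTb]
    have : 0 ≤ 1 - e1 := by linarith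
    positivity
  have hA := hcv.hd_le
  obtain ⟨i1, a1⟩ := H1 (by positivity) hε hcur hcv.d hb hA
  obtain ⟨i2, a2⟩ := H2 (by positivity) hε hcur hcv.d hb hA
  have h3 := PBV.log_sq_le he hm
  have h4 : (1 - e1) * NUO.Tb (Real.log m) ≤ Real.log m := by
    rw [hTb]
    nlinarith
  have h5 : (1 - e1) * NUO.Tb (Real.log m) * (Cc * Real.log m * ε) ≤
      Real.log m * (Cc * Real.log m * (m : ℝ) ^ (-(e1 / 2))) := by
    refine mul_le_mul h4 (mul_le_mul_of_nonneg_left hε1 (by positivity)) (by positivity) hL0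
  have h6 : Real.log m * (Cc * Real.log m * (m : ℝ) ^ (-(e1 / 2))) =
      Cc * (Real.log m ^ 2 * (m : ℝ) ^ (-(e1 / 2))) := by ring
  have h7 : Cc * (Real.log m ^ 2 * (m : ℝ) ^ (-(e1 / 2))) ≤ Cc * (16 / e1 ^ 2) :=
    mul_le_mul_of_nonneg_left h3 hCc
  have h8 : 1 + (1 - e1) * NUO.Tb (Real.log m) * (Cc * Real.log m * ε) ≤
      1 + Cc * (16 / e1 ^ 2) := by linarith
  have b1 := a1.trans (mul_le_mul_of_nonneg_left h8 (by linarith))
  have b2 := a2.trans (mul_le_mul_of_nonneg_left h8 (by linarith))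
  have e3 : ∫ t, (m : ℝ) * NUSea.P t * Hend η a t =
      (∫ t, (m : ℝ) * NUSea.P t * Real.log (Th0 (pA η t))) -
        ∫ t, (m : ℝ) * NUMF.P t * Real.log (ThN (NUO.pA η t)) := by
    have f1 := integral_sub i1 i2
    rw [← f1]
    refine integral_congr_ae (ae_of_all _ fun t => ?_)
    show (m : ℝ) * NUMF.P t * (Real.log (Th0 (pA η t)) - Real.log (ThN (pA η t))) =
      (m : ℝ) * NUMF.P t * Real.log (Th0 (pA η t)) - (m : ℝ) * NUMF.P t * Real.log (ThN (pA η t))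
    ring
  rw [e3]
  have e4 : NUSea.P 0 = NUMF.P 0 := rfl
  rw [e4] at b1
  rw [abs_le] at b1 b2 ⊢
  constructor <;> nlinarith [b1.1, b1.2, b2.1, b2.2]

end P0

/-! ### the one body factors on the curve -/

/-- **`k` rows at `0`, the ends at `0`, a family of groups** -/
theorem dom_end {n : ℕ} (g : Fin n → Gd) {k : ℕ} {R : ℝ}
    {η : ℝ → ℝ} {t : ℝ} (h : |η t| < l / 5) (a : Bool)
    (hR : R = 2 * Real.cos l * PBO.rwC 0 (pA η t) ^ k * Th0 (pA η t))
    (hH : Th0 (pA η t) = ThN (pA η t) * Real.exp (Hend η a t)) :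
    R * spF g a (pA η t) = 2 * Real.cos l *
      Real.exp ((k : ℝ) * (@NUSea.vc NUSea.seaP (NUAct.zt (NUKer.iD η) t)).re +
      (NUSp.DD pE qE (List.ofFn fun i => (g i).G) a (NUAct.zt (NUKer.iD η) t)).re +
      Hend η a t) := by
  have hl := l_pos
  rw [hR, rwC0_pow (by linarith), hH, Real.exp_add, Real.exp_add, ← NUGC.ThN_spF g a h]
  ring

end PotH

end
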