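import Pool.Agent.PotH.S4H
import Pool.Agent.PB.SqC
import Pool.Agent.PB.StatOK

/-!
# The gas of a configuration with a statistic, general sea (helper79)

* `StatM`: admissible statistics of the gas of a configuration (`m` rows);
* `SharpM`, `sharpM`: the sharp bound with a statistic;
* **`s4M : S4M`**: `S4H` with a statistic `Ψ` of the quanta: polynomial bound `w m^A0` everywhere, price
  `w D` in the sharp range; the constant per object grows by `A0`.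
-/

set_option autoImplicit false
set_option linter.unusedSectionVars false

noncomputable section

open MeasureTheory Finset Filter Topology
open scoped ENNReal

namespace PotH

open NUGC
open NUO (Xo kd ht Par Tb TW excS chgO PG slkK cons exc)
open NUSea.H0 (Inp Gd TG BF BF1 cstF aR datO DatC SpI hfar cfP)
open NUStabP (enC)
open NUDispW (win)
open NUR2 (Cfg)
open PBZ (Z1S StatOK)

variable [NUSea.Sea]

/-- the density of the quanta for `m` rows -/
def rhoM (m : ℕ) (t : ℝ) : ℝ := (m : ℝ) * NUSea.P t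

/-- **admissible statistics** of `p` quanta X and `q` quanta Y, `m` rows: window `2 (log m)²`,
constants of `PBS.gasSharpC` -/
def StatM (Cg : ℝ) (m p q : ℕ) (A D : ℝ) (Ψ : Cfg p q → ℝ≥0∞) : Prop :=
  StatOK (2 * Real.log m ^ 2) (rhoM m) (1 / (Cg * Real.log m ^ 2)) (Cg * Real.log m ^ 6)
    (Real.log m ^ 2 / 40) p q A D Ψ

/-- **the sharp bound with a statistic** -/
def SharpM : Prop :=
  ∀ B0 N0 : ℝ, 0 ≤ B0 → 0 ≤ N0 → ∃ K Ca : ℝ, 0 ≤ K ∧ 0 ≤ Ca ∧ ∀ kap : ℝ, 0 < kap →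
    ∀ ep : ℝ, 0 < ep → ep ≤ 1 / 100 → ∀ e1 : ℝ, 0 < e1 → e1 ≤ 1 / 100 →
    ∀ Cc C0 : ℝ, 1 ≤ Cc → 1 ≤ C0 → ∀ δ : ℝ, 0 < δ →
    ∃ d Cst Cg : ℝ, 0 < d ∧ 0 ≤ Cst ∧ 1 ≤ Cg ∧ ∃ m0 : ℕ, ∀ m : ℕ, m0 ≤ m →
    ∀ (n : ℕ) (η η1 cr Bc Bc' : ℝ → ℝ) (H H' : Bool → ℝ → ℝ) (B : OB) (g : Fin n → Gd),
    EnvH ep e1 Cc C0 B0 N0 d m η η1 cr Bc Bc' H H' B g →
    ∀ (aX aY : ℕ) (ν : ℝ) (N : ℕ) (b' : ℝ) (r : ℕ) (O : Fin r → Xo) (E x : ℝ), |b'| ≤ d →
      RgH ep e1 m g aX aY ν N O E x →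
      (∀ i, |(g i).τ| ≤ Real.log m ^ 2) → (r : ℝ) + 2 ≤ Real.log m →
      (∀ i, |ht (O i)| ≤ Real.log m ^ 2) →
      ∀ (Ψ : Cfg (N + aX - chgO O true) (N + aY - chgO O false) → ℝ≥0∞) (A D : ℝ),
      StatM Cg m (N + aX - chgO O true) (N + aY - chgO O false) A D Ψ →
      lhsH B m η η1 aX aY ν N b' O Ψ ≤
        ENNReal.ofReal (prefH m g E x Cst * (m : ℝ) ^ (3 / 8 + Ca * (ep + e1) + δ) *
          Real.exp (confEH m η (TW ep e1 m) K kap O + linH η η1 m g (T1H ep e1 m O E) H +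
            enH m g O (T1H ep e1 m O E) (N + aX - chgO O true) (N + aY - chgO O false))) *
          ENNReal.ofReal D

/-- three values of the number of groups, with a slope and a constant of the statistics -/
lemma max3M {F : ℕ → ℝ → ℝ → ℝ → ℕ → Prop}
    (hF : ∀ G d d' C C' c c' m m', F G d C c m → d' ≤ d → C ≤ C' → c ≤ c' → m ≤ m' →
      F G d' C' c' m')
    (h : ∀ G ≤ 2, ∃ d C c : ℝ, 0 < d ∧ 0 ≤ C ∧ 1 ≤ c ∧ ∃ m, F G d C c m) :
    ∃ d C c : ℝ, 0 < d ∧ 0 ≤ C ∧ 1 ≤ c ∧ ∃ m, ∀ G ≤ 2, F G d C c m := by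
  obtain ⟨d0, C0, c0, a0, b0, e0, m0, h0⟩ := h 0 (by norm_num)
  obtain ⟨d1, C1, c1, a1, b1, e1, m1, h1⟩ := h 1 (by norm_num)
  obtain ⟨d2, C2, c2, a2, b2, e2, m2, h2⟩ := h 2 (by norm_num)
  refine ⟨min d0 (min d1 d2), C0 + C1 + C2, c0 + c1 + c2, lt_min a0 (lt_min a1 a2), by positivity,
    by linarith, max m0 (max m1 m2), ?_⟩
  intro G hG
  interval_cases G
  · exact hF _ _ _ _ _ _ _ _ _ h0 (min_le_left _ _) (by linarith) (by linarith) (le_max_left _ _)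
  · exact hF _ _ _ _ _ _ _ _ _ h1 ((min_le_right _ _).trans (min_le_left _ _)) (by linarith)
      (by linarith) ((le_max_left _ _).trans (le_max_right _ _))
  · exact hF _ _ _ _ _ _ _ _ _ h2 ((min_le_right _ _).trans (min_le_right _ _)) (by linarith)
      (by linarith) ((le_max_right _ _).trans (le_max_right _ _))

/-- statistics admissible for a large constant are admissible for a smaller one -/
theorem StatM.weak {Cg Cg' : ℝ} {m p q : ℕ} {A D : ℝ} {Ψ : Cfg p q → ℝ≥0∞} (hL : 1 ≤ Real.log m)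
    (h1 : 1 ≤ Cg) (h : Cg ≤ Cg') (hS : StatM Cg' m p q A D Ψ) : StatM Cg m p q A D Ψ := by
  refine { meas := hS.meas, A0 := hS.A0, D0 := hS.D0, poly := hS.poly, gas := fun g U hg => ?_ }
  refine hS.gas g U (hg.weak ?_ ?_ ?_ le_rfl)
  · have : 0 < Cg' := by linarith
    positivity
  · have : 0 < Cg := by linarith
    have hL0 : 0 < Real.log m := by linarith
    gcongr
  · gcongr

/-- **the sharp bound with a statistic, from the data** -/
theorem sharpM_of (hD : DatGH) : SharpM := by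
  intro B0 N0 hB0 hN0
  obtain ⟨KG, Ca, hKG, hCa, hG⟩ := PBS.gasSharpC
  obtain ⟨KR, hKR, hC⟩ := exists_confH hD hB0 hN0
  refine ⟨KG + KR, Ca, by positivity, hCa, ?_⟩
  intro kap hkap ep hep hep1 e1 he he1 Cc C0 hCc hC0 δ hδ
  have key := max3M (F := fun G d C Cg M0 => 0 ≤ C ∧ 1 ≤ Cg ∧ 1 ≤ Real.log M0 ∧ ∀ m : ℕ, M0 ≤ m →
    ∀ (η η1 cr Bc Bc' : ℝ → ℝ) (H H' : Bool → ℝ → ℝ) (B : OB) (g : Fin G → Gd),
    EnvH ep e1 Cc C0 B0 N0 d m η η1 cr Bc Bc' H H' B g →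
    ∀ (aX aY : ℕ) (ν : ℝ) (N : ℕ) (b' : ℝ) (r : ℕ) (O : Fin r → Xo) (E x : ℝ), |b'| ≤ d →
      RgH ep e1 m g aX aY ν N O E x →
      (∀ i, |(g i).τ| ≤ Real.log m ^ 2) → (r : ℝ) + 2 ≤ Real.log m →
      (∀ i, |ht (O i)| ≤ Real.log m ^ 2) →
      ∀ (Ψ : Cfg (N + aX - chgO O true) (N + aY - chgO O false) → ℝ≥0∞) (A D : ℝ),
      StatM Cg m (N + aX - chgO O true) (N + aY - chgO O false) A D Ψ →
      lhsH B m η η1 aX aY ν N b' O Ψ ≤
        ENNReal.ofReal (prefH m g E x C * (m : ℝ) ^ (3 / 8 + Ca * (ep + e1) + δ) *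
          Real.exp (confEH m η (TW ep e1 m) (KG + KR) kap O + linH η η1 m g (T1H ep e1 m O E) H +
            enH m g O (T1H ep e1 m O E) (N + aX - chgO O true) (N + aY - chgO O false))) *
          ENNReal.ofReal D) ?_ ?_
  · obtain ⟨d, C, Cg, hd, hC, hCg, M0, H⟩ := key
    exact ⟨d, C, Cg, hd, hC, hCg, M0, fun m hm n η η1 cr Bc Bc' Hp Hp' B g hE aX aY ν N b' r O E x
      hb' hR hn hrL hht =>
      (H n hR.n2).2.2.2 m hm η η1 cr Bc Bc' Hp Hp' B g hE aX aY ν N b' r O E x hb' hR hn hrL hht⟩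
  · rintro G d d' C C' Cg Cg' m m' ⟨hC0', hCg1, h1m, h⟩ hd hC hCg hm
    have hm0 : (1 : ℕ) ≤ m := by
      rcases Nat.eq_zero_or_pos m with h0 | h0
      · rw [h0] at h1m
        norm_num at h1m
      · exact h0
    have hlog : Real.log m ≤ Real.log m' :=
      Real.log_le_log (by exact_mod_cast hm0) (by exact_mod_cast hm)
    refine ⟨hC0'.trans hC, hCg1.trans hCg, h1m.trans hlog, ?_⟩
    intro M hM η η1 cr Bc Bc' Hp Hp' B g hE aX aY ν N b' r O E x hb' hR hn hrL hht Ψ A D hS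
    have hlog' : 1 ≤ Real.log M := (h1m.trans hlog).trans
      (Real.log_le_log (by exact_mod_cast hm0.trans hm) (by exact_mod_cast hM))
    exact (h M (hm.trans hM) η η1 cr Bc Bc' Hp Hp' B g (hE.mono hd) aX aY ν N b' r O E x
      (hb'.trans hd) hR hn hrL hht Ψ A D (hS.weak hlog' hCg1 hCg)).trans
        (mul_le_mul_left (rhsH_mono (hm0.trans (hm.trans hM)) hC0' hC le_rfl le_rfl) _)
  · intro G hG2
    obtain ⟨k, κ, CB, w, hκ, hCB, hw, hw1, hC⟩ := hC G hG2 kap hkap ep hep hep1 e1 he he1 Cc C0 hCc hC0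
    obtain ⟨ϑ, Cst, Cg, hϑ, hCst, hCg, m1, hG⟩ := hG G (kap / 2) (by positivity) ep hep hep1 e1 he he1
      δ hδ k κ CB w hκ hCB hw hw1
    obtain ⟨d, CR, hd, hd1, hCR, m2, hC⟩ := hC ϑ hϑ
    obtain ⟨m5, hm5⟩ := NUO.log_large 1
    refine ⟨d, (Cst + 1) * CR, Cg, hd, by positivity, hCg, max (max m1 m2) (max m5 1),
      by positivity, hCg, hm5 _ ((le_max_left _ _).trans (le_max_right _ _)), ?_⟩
    intro m hm η η1 cr Bc Bc' Hp Hp' B g hE aX aY ν N b' r O E x hb' hR hn hrL hht Ψ A D hS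
    have hm1 : m1 ≤ m := ((le_max_left _ _).trans (le_max_left _ _)).trans hm
    have hm2 : m2 ≤ m := ((le_max_right _ _).trans (le_max_left _ _)).trans hm
    have hm3 : m5 ≤ m := ((le_max_left _ _).trans (le_max_right _ _)).trans hm
    have hL1 : 1 ≤ Real.log m := hm5 m hm3
    have h1m : 1 ≤ m := ((le_max_right m5 1).trans (le_max_right (max m1 m2) _)).trans hm
    obtain ⟨B1, D', hc⟩ := hC m hm2 η η1 cr Bc Bc' Hp Hp' B g hE aX aY ν N b' r O E x hb' hR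
    have hG2' : (G : ℝ) ≤ 2 := by exact_mod_cast hG2
    have hrG : (r : ℝ) + G ≤ Real.log m := by linarith
    have hgp : ∀ j, |(gP (T1H ep e1 m O E) g j).τ| ≤ Real.log m ^ 2 := by
      intro j
      show |NUSp.pin (T1H ep e1 m O E) (g j).τ| ≤ _
      exact (abs_pin_le_abs ((TW_nonneg hep he h1m).trans (TW_le ep e1 m O hR.E0).1) _).trans (hn j)
    have h1 := hG m hm1 _ _ r O _ _ _ _ _ _ _ _ _ _ _ hc.dat (hc.gd hn hrG hht) hrG hht hgp hc.dD
    have h2 := hc.red KG Cst _ hCst Ψ (ENNReal.ofReal D) (by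
      have h3 := hS.gas _ _ h1
      rw [mul_comm (ENNReal.ofReal D)] at h3
      exact h3)
    have hexc := NUO.excS_nonneg (TW ep e1 m) O
    exact h2.trans (mul_le_mul_left (rhsH_mono h1m (by positivity) le_rfl le_rfl (by linarith)) _)

/-- **the sharp bound with a statistic** -/
theorem sharpM : SharpM := sharpM_of datGH

/-! ### the two bounds together -/

/-- **the gas in the presence of the objects, of at most two groups and of a real potential, with a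
statistic of the quanta**: `w m^A0` its bound, `w D` its price in the sharp range -/
def S4M : Prop :=
  ∀ B0 N0 : ℝ, 0 ≤ B0 → 0 ≤ N0 → ∃ K Ca : ℝ, 0 ≤ K ∧ 0 ≤ Ca ∧ ∀ A0 : ℝ, 0 ≤ A0 →
    ∀ kap : ℝ, 0 < kap →
    ∀ ep : ℝ, 0 < ep → ep ≤ 1 / 100 → ∀ e1 : ℝ, 0 < e1 → e1 ≤ 1 / 100 →
    ∀ Cc C0 : ℝ, 1 ≤ Cc → 1 ≤ C0 → ∀ δ : ℝ, 0 < δ →
    ∃ d Cst Cg : ℝ, 0 < d ∧ 0 ≤ Cst ∧ 1 ≤ Cg ∧ ∃ m0 : ℕ, ∀ m : ℕ, m0 ≤ m →
    ∀ (n : ℕ) (η η1 cr Bc Bc' : ℝ → ℝ) (H H' : Bool → ℝ → ℝ) (B : OB) (g : Fin n → Gd),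
    EnvH ep e1 Cc C0 B0 N0 d m η η1 cr Bc Bc' H H' B g →
    ∀ (aX aY : ℕ) (ν : ℝ) (N : ℕ) (b' : ℝ) (r : ℕ) (O : Fin r → Xo) (E x : ℝ), |b'| ≤ d →
      RgH ep e1 m g aX aY ν N O E x →
      ∀ (Ψ : Cfg (N + aX - chgO O true) (N + aY - chgO O false) → ℝ≥0∞) (w D : ℝ), 0 ≤ w → 1 ≤ D →
      (∀ y, Ψ y ≤ ENNReal.ofReal (w * Real.exp (A0 * Real.log m))) →
      ((∀ i, |(g i).τ| ≤ Real.log m ^ 2) → |ν - N| ≤ Real.log m ^ 3 → (r : ℝ) + 2 ≤ Real.log m →
        (∀ i, |ht (O i)| ≤ Real.log m ^ 2) →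
        ∃ A : ℝ, StatM Cg m (N + aX - chgO O true) (N + aY - chgO O false) A (w * D) Ψ) →
      lhsH B m η η1 aX aY ν N b' O Ψ ≤
        ENNReal.ofReal (w * D * (prefH m g E x Cst * (m : ℝ) ^ (3 / 8 + Ca * (ep + e1) + δ) *
          (if ∀ i, |(g i).τ| ≤ Real.log m ^ 2 then 1 else Real.exp ((A0 + 1 / 2) * Real.log m)) *
          Real.exp (confEH m η (TW ep e1 m) (K + A0) kap O + linH η η1 m g (T1H ep e1 m O E) H +
            enH m g O (T1H ep e1 m O E) (N + aX - chgO O true) (N + aY - chgO O false))))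

/-- **`S4M` from the crude bound and the sharp bound with a statistic** -/
theorem s4M_of (hC : CrudeH) (hS : SharpM) : S4M := by
  intro B0 N0 hB0 hN0
  obtain ⟨K1, Ca1, hK1, hCa1, hC⟩ := hC B0 N0 hB0 hN0
  obtain ⟨K2, Ca2, hK2, hCa2, hS⟩ := hS B0 N0 hB0 hN0
  refine ⟨max K1 K2 + 1 / 2, max Ca1 Ca2, by have := hK1.trans (le_max_left K1 K2); linarith,
    hCa1.trans (le_max_left _ _), ?_⟩
  intro A0 hA0 kap hkap ep hep hep' e1 he1 he1' Cc C0 hCc hC0 δ hδ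
  obtain ⟨d1, Cst1, hd1, hCst1, m1, hC⟩ := hC kap hkap ep hep hep' e1 he1 he1' Cc C0 hCc hC0 δ hδ
  obtain ⟨d2, Cst2, Cg, hd2, hCst2, hCg, m2, hS⟩ :=
    hS kap hkap ep hep hep' e1 he1 he1' Cc C0 hCc hC0 δ hδ
  set d : ℝ := min (d1 / 2) d2 with hd
  have hd0 : 0 < d := lt_min (by positivity) hd2
  have hdd1 : d ≤ d1 / 2 := min_le_left _ _
  have hdd2 : d ≤ d2 := min_le_right _ _
  obtain ⟨m3, hm3⟩ := NUO.log_large (max (10 * (A0 + 1) + 20) ((A0 + 1) / d))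
  have hCm0 : 0 ≤ max Cst1 Cst2 := hCst1.trans (le_max_left _ _)
  refine ⟨d, max Cst1 Cst2 * Real.exp (2 * A0 + 1), Cg, hd0, by positivity, hCg,
    max (max m1 m2) (max m3 3), ?_⟩
  intro m hm n η η1 cr Bc Bc' Hp Hp' B g hEnv aX aY ν N b' r O E x hb' hR Ψ w D hw hD hpoly hstat
  have hm1 : m1 ≤ m := ((le_max_left _ _).trans (le_max_left _ _)).trans hm
  have hm2 : m2 ≤ m := ((le_max_right _ _).trans (le_max_left _ _)).trans hm
  have hm3' : m3 ≤ m := ((le_max_left _ _).trans (le_max_right _ _)).trans hm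
  have hm4 : 3 ≤ m := ((le_max_right _ _).trans (le_max_right _ _)).trans hm
  obtain ⟨L, hL⟩ : ∃ L, L = Real.log m := ⟨_, rfl⟩
  have hL30 : 10 * (A0 + 1) + 20 ≤ L := by rw [hL]; exact (le_max_left _ _).trans (hm3 m hm3')
  have hLd : A0 + 1 ≤ d * L := by
    have h := (le_max_right _ _).trans (hm3 m hm3')
    rw [div_le_iff₀ hd0, ← hL] at h
    linarith
  have hmR : (1 : ℝ) ≤ m := by
    have : 1 ≤ m := by omega
    exact_mod_cast this
  have hmpos : (0 : ℝ) < m := by linarith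
  obtain ⟨Xc, hXc⟩ : ∃ X, X = confEH m η (TW ep e1 m) (max K1 K2) kap O := ⟨_, rfl⟩
  obtain ⟨G, hG⟩ : ∃ G, G = linH η η1 m g (T1H ep e1 m O E) Hp +
    enH m g O (T1H ep e1 m O E) (N + aX - chgO O true) (N + aY - chgO O false) := ⟨_, rfl⟩
  obtain ⟨p, hp⟩ : ∃ p, p = 3 / 8 + max Ca1 Ca2 * (ep + e1) + δ := ⟨_, rfl⟩
  have hmp : (0 : ℝ) ≤ (m : ℝ) ^ p := Real.rpow_nonneg hmpos.le _
  have hpre0 : 0 ≤ prefH m g E x (max Cst1 Cst2) := prefH_nonneg hCm0
  obtain ⟨F, hF⟩ : ∃ F : ℝ, F = if ∀ i, |(g i).τ| ≤ Real.log m ^ 2 then 1 else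
    Real.exp ((A0 + 1 / 2) * Real.log m) := ⟨_, rfl⟩
  have hF1 : 1 ≤ F := by
    rw [hF]
    split_ifs
    · exact le_rfl
    · rw [Real.one_le_exp_iff, ← hL]
      have : 0 ≤ L := by linarith
      positivity
  have hTWL : TW ep e1 m ≤ L := by
    unfold TW Tb
    rw [← hL]
    have : (1 + 2 * e1 + 2 * ep) ≤ 2 := by linarith
    nlinarith
  have hsh2 : (m : ℝ) ^ (3 / 8 + Ca2 * (ep + e1) + δ) ≤ (m : ℝ) ^ p := by
    refine Real.rpow_le_rpow_of_exponent_le hmR ?_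
    have : Ca2 * (ep + e1) ≤ max Ca1 Ca2 * (ep + e1) :=
      mul_le_mul_of_nonneg_right (le_max_right _ _) (by linarith)
    rw [hp]
    linarith
  have hcr2 : (m : ℝ) ^ (7 / 8 + Ca1 * (ep + e1) + δ) ≤ (m : ℝ) ^ p * Real.exp (1 / 2 * L) := by
    have h2 : Real.exp (1 / 2 * L) = (m : ℝ) ^ (1 / 2 : ℝ) := by
      rw [Real.rpow_def_of_pos hmpos, ← hL, mul_comm]
    rw [h2, ← Real.rpow_add hmpos]
    refine Real.rpow_le_rpow_of_exponent_le hmR ?_
    have : Ca1 * (ep + e1) ≤ max Ca1 Ca2 * (ep + e1) :=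
      mul_le_mul_of_nonneg_right (le_max_left _ _) (by linarith)
    rw [hp]
    linarith
  have hB0' : 0 ≤ w * (prefH m g E x (max Cst1 Cst2) * (m : ℝ) ^ p) :=
    mul_nonneg hw (mul_nonneg hpre0 hmp)
  have hmerge := PBZ.merge_stat (L := L) (d := d) (A := A0) (D := D)
    (B := w * (prefH m g E x (max Cst1 Cst2) * (m : ℝ) ^ p)) (X := Xc + G)
    (exc := excS (TW ep e1 m) O)
    (y := ν - N) (b' := b') (r := r) (near := ∀ i, |(g i).τ| ≤ Real.log m ^ 2)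
    (hts := ∀ i, |ht (O i)| ≤ Real.log m ^ 2)
    (Z := ENNReal.ofReal w * Z1S B (NUSea.O.par0 m) η η1 O (N + aX - chgO O true)
      (N + aY - chgO O false) fun _ => 1)
    (Zs := Z1S B (NUSea.O.par0 m) η η1 O (N + aX - chgO O true) (N + aY - chgO O false) Ψ)
    (F := F) hA0 hL30 hd0 hLd hD hB0'
    (NUO.excS_nonneg _ _) hb' hF1 (fun hn => by
      rw [hF, if_neg hn, ← hL])
    (by
      refine (PBZ.Z1S_le_const ENNReal.ofReal_ne_top hpoly).trans (le_of_eq ?_)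
      rw [PBZ.Z1S_one, ENNReal.ofReal_mul hw, ← hL]
      ring)
    (fun b'' hb'' => by
      have h := hC m hm1 n η η1 cr Bc Bc' Hp Hp' B g (hEnv.mono (by linarith)) aX aY ν N b'' r O E x
        (by linarith) hR
      have h0 : ENNReal.ofReal (Real.exp (b'' * (ν - N))) * (ENNReal.ofReal w *
          Z1S B (NUSea.O.par0 m) η η1 O (N + aX - chgO O true) (N + aY - chgO O false) fun _ => 1) =
          ENNReal.ofReal w * lhsH B m η η1 aX aY ν N b'' O (fun _ => 1) := by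
        unfold lhsH
        ring
      rw [h0]
      refine (mul_le_mul_right h _).trans ?_
      rw [← ENNReal.ofReal_mul hw]
      refine ENNReal.ofReal_le_ofReal ?_
      have h3 : confEH m η (TW ep e1 m) K1 kap O ≤ Xc := by
        rw [hXc]
        exact confEH_mono (le_max_left _ _) O
      rw [mul_assoc w]
      refine mul_le_mul_of_nonneg_left ?_ hw
      calc prefH m g E x Cst1 * (m : ℝ) ^ (7 / 8 + Ca1 * (ep + e1) + δ) *
            Real.exp (confEH m η (TW ep e1 m) K1 kap O - 1 / 10 * excS (TW ep e1 m) O +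
              linH η η1 m g (T1H ep e1 m O E) Hp +
              enH m g O (T1H ep e1 m O E) (N + aX - chgO O true) (N + aY - chgO O false))
          ≤ prefH m g E x (max Cst1 Cst2) * ((m : ℝ) ^ p * Real.exp (1 / 2 * L)) *
            Real.exp (Xc + G - 1 / 10 * excS (TW ep e1 m) O) := by
            refine mul_le_mul (mul_le_mul (prefH_mono (le_max_left _ _)) hcr2
              (Real.rpow_nonneg hmpos.le _) hpre0)
              (Real.exp_le_exp.2 (by rw [hG]; linarith)) (Real.exp_pos _).le ?_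
            exact mul_nonneg hpre0 (mul_nonneg hmp (Real.exp_pos _).le)
        _ = prefH m g E x (max Cst1 Cst2) * (m : ℝ) ^ p *
            Real.exp (1 / 2 * L + (Xc + G) - 1 / 10 * excS (TW ep e1 m) O) := by
            rw [show 1 / 2 * L + (Xc + G) - 1 / 10 * excS (TW ep e1 m) O = 1 / 2 * L +
              (Xc + G - 1 / 10 * excS (TW ep e1 m) O) by ring, Real.exp_add (1 / 2 * L)]
            ring)
    (fun hn hrL hy hh => by
      obtain ⟨A, hst⟩ := hstat hn (by rw [← hL]; exact hy) (by rw [← hL]; exact hrL) hh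
      have h := hS m hm2 n η η1 cr Bc Bc' Hp Hp' B g (hEnv.mono hdd2) aX aY ν N b' r O E x
        (by linarith) hR hn (by rw [← hL]; exact hrL) hh Ψ A (w * D) hst
      refine h.trans ?_
      have hwD : 0 ≤ w * D := mul_nonneg hw (by linarith)
      rw [← ENNReal.ofReal_mul' hwD]
      refine ENNReal.ofReal_le_ofReal ?_
      have h3 : confEH m η (TW ep e1 m) K2 kap O ≤ Xc := by
        rw [hXc]
        exact confEH_mono (le_max_right _ _) O
      have h4 : prefH m g E x Cst2 * (m : ℝ) ^ (3 / 8 + Ca2 * (ep + e1) + δ) *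
          Real.exp (confEH m η (TW ep e1 m) K2 kap O + linH η η1 m g (T1H ep e1 m O E) Hp +
            enH m g O (T1H ep e1 m O E) (N + aX - chgO O true) (N + aY - chgO O false)) ≤
          prefH m g E x (max Cst1 Cst2) * (m : ℝ) ^ p * Real.exp (Xc + G) :=
        mul_le_mul (mul_le_mul (prefH_mono (le_max_right _ _)) hsh2
          (Real.rpow_nonneg hmpos.le _) hpre0)
          (Real.exp_le_exp.2 (by rw [hG]; linarith)) (Real.exp_pos _).le (mul_nonneg hpre0 hmp)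
      refine (mul_le_mul_of_nonneg_right h4 hwD).trans (le_of_eq ?_)
      ring)
    (fun hh => by
      push Not at hh
      obtain ⟨i, hi⟩ := hh
      have h1 := NUO.excS_ge (TW ep e1 m) O i
      rw [← hL] at hi
      linarith)
  unfold lhsH
  refine hmerge.trans (ENNReal.ofReal_le_ofReal (le_of_eq ?_))
  rw [show max K1 K2 + 1 / 2 + A0 = max K1 K2 + (A0 + 1 / 2) by ring, confEH_add, ← hXc, ← hF, ← hp,
    prefH_mul]
  rw [show Xc + (A0 + 1 / 2) * (r : ℝ) + linH η η1 m g (T1H ep e1 m O E) Hp +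
    enH m g O (T1H ep e1 m O E) (N + aX - chgO O true) (N + aY - chgO O false) =
    Xc + G + (A0 + 1 / 2) * (r : ℝ) by rw [hG]; ring]
  ring

/-- **the gas of a configuration with a statistic** -/
theorem s4M : S4M := s4M_of crudeH sharpM

end PotH

end
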