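import Mathlib

/-!
# Plan B: from the crude bound and the sharp bound with a statistic to one bound (helper79)

The argument of `NUGC.s4C_of` with a statistic inside, one configuration, numbers only.
`Z` the gas, `Zs` the gas with the statistic (`Zs ≤ e^{A L} Z`), `y = ν - N` the distance to the mean
number of quanta, `exc` the excess of the heights of the objects, `X` the exponent of the configuration.
-/

set_option autoImplicit false

noncomputable section

open scoped ENNReal

namespace PBZ

/-- **crude + sharp with a statistic** -/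
theorem merge_stat {L d A D B X exc y b' : ℝ} {r : ℕ} {near hts : Prop} {Z Zs : ℝ≥0∞} {F : ℝ}
    (hA : 0 ≤ A) (hL : 10 * (A + 1) + 20 ≤ L) (hd : 0 < d) (hdL : A + 1 ≤ d * L) (hD : 1 ≤ D)
    (hB : 0 ≤ B) (hexc : 0 ≤ exc) (hb' : |b'| ≤ d) (hF1 : 1 ≤ F)
    (hF : ¬ near → Real.exp ((A + 1 / 2) * L) ≤ F)
    (hpoly : Zs ≤ ENNReal.ofReal (Real.exp (A * L)) * Z)
    (hcr : ∀ b'' : ℝ, |b''| ≤ 2 * d → ENNReal.ofReal (Real.exp (b'' * y)) * Z ≤
      ENNReal.ofReal (B * Real.exp (1 / 2 * L + X - 1 / 10 * exc)))
    (hsh : near → (r : ℝ) + 2 ≤ L → |y| ≤ L ^ 3 → hts →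
      ENNReal.ofReal (Real.exp (b' * y)) * Zs ≤ ENNReal.ofReal (D * B * Real.exp X))
    (hfar : ¬ hts → L ^ 2 - L ≤ exc) :
    ENNReal.ofReal (Real.exp (b' * y)) * Zs ≤
      ENNReal.ofReal (D * B * Real.exp (2 * A + 1) * F * Real.exp (X + (A + 1 / 2) * r)) := by
  have hL20 : 20 ≤ L := by linarith
  have hF0 : 0 < F := by linarith
  have hr0 : (0 : ℝ) ≤ r := Nat.cast_nonneg r
  -- the crude bound with a gain
  have crude : ∀ b'' : ℝ, |b''| ≤ 2 * d →
      b' * y + (A + 1 / 2) * L ≤ b'' * y + 1 / 10 * exc +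
        (Real.log F + (A + 1 / 2) * r + (2 * A + 1)) →
      ENNReal.ofReal (Real.exp (b' * y)) * Zs ≤
        ENNReal.ofReal (D * B * Real.exp (2 * A + 1) * F * Real.exp (X + (A + 1 / 2) * r)) := by
    intro b'' hb'' hg
    have h1 : ENNReal.ofReal (Real.exp (b' * y)) * Zs ≤
        ENNReal.ofReal (Real.exp (b' * y - b'' * y + A * L)) *
          (ENNReal.ofReal (Real.exp (b'' * y)) * Z) := by
      have e : ENNReal.ofReal (Real.exp (b' * y - b'' * y + A * L)) *
          (ENNReal.ofReal (Real.exp (b'' * y)) * Z) = ENNReal.ofReal (Real.exp (b' * y)) *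
            (ENNReal.ofReal (Real.exp (A * L)) * Z) := by
        rw [← mul_assoc, ← ENNReal.ofReal_mul (Real.exp_pos _).le, ← Real.exp_add, ← mul_assoc,
          ← ENNReal.ofReal_mul (Real.exp_pos _).le, ← Real.exp_add]
        congr 3
        ring
      rw [e]
      gcongr
    refine h1.trans ((mul_le_mul_right (hcr b'' hb'') _).trans ?_)
    rw [← ENNReal.ofReal_mul (Real.exp_pos _).le]
    refine ENNReal.ofReal_le_ofReal ?_
    have h2 : Real.exp (b' * y - b'' * y + A * L) * Real.exp (1 / 2 * L + X - 1 / 10 * exc) ≤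
        Real.exp (2 * A + 1) * F * Real.exp (X + (A + 1 / 2) * r) := by
      conv_rhs => rw [← Real.exp_log hF0]
      rw [← Real.exp_add, ← Real.exp_add, ← Real.exp_add]
      exact Real.exp_le_exp.2 (by linarith)
    calc Real.exp (b' * y - b'' * y + A * L) * (B * Real.exp (1 / 2 * L + X - 1 / 10 * exc)) =
        B * (Real.exp (b' * y - b'' * y + A * L) * Real.exp (1 / 2 * L + X - 1 / 10 * exc)) := by
          ring
      _ ≤ B * (Real.exp (2 * A + 1) * F * Real.exp (X + (A + 1 / 2) * r)) := by gcongr
      _ = 1 * (B * Real.exp (2 * A + 1) * F * Real.exp (X + (A + 1 / 2) * r)) := by ring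
      _ ≤ D * (B * Real.exp (2 * A + 1) * F * Real.exp (X + (A + 1 / 2) * r)) := by gcongr
      _ = _ := by ring
  have hlogF : 0 ≤ Real.log F := Real.log_nonneg hF1
  have hb2 : |b'| ≤ 2 * d := by linarith
  have hAr : 0 ≤ (A + 1 / 2) * (r : ℝ) := by positivity
  by_cases hrL : (r : ℝ) + 2 ≤ L
  · by_cases hnm : |y| ≤ L ^ 3
    · by_cases hh : hts
      · by_cases hn : near
        · refine (hsh hn hrL hnm hh).trans (ENNReal.ofReal_le_ofReal ?_)
          have h1 : 1 ≤ Real.exp (2 * A + 1) := Real.one_le_exp (by linarith)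
          have h2 : Real.exp X ≤ Real.exp (X + (A + 1 / 2) * r) := Real.exp_le_exp.2 (by linarith)
          calc D * B * Real.exp X = D * B * 1 * 1 * Real.exp X := by ring
            _ ≤ D * B * Real.exp (2 * A + 1) * F * Real.exp (X + (A + 1 / 2) * r) := by gcongr
        · have h1 := hF hn
          have h2 : (A + 1 / 2) * L ≤ Real.log F := by
            have := Real.log_le_log (Real.exp_pos _) h1
            rwa [Real.log_exp] at this
          exact crude b' hb2 (by nlinarith)
      · have h1 := hfar hh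
        exact crude b' hb2 (by nlinarith)
    · push Not at hnm
      have hL2 : 1 ≤ L ^ 2 := by nlinarith
      have hg : (A + 1 / 2) * L ≤ d * L ^ 3 := by
        have e : d * L ^ 3 = (d * L) * L ^ 2 := by ring
        have h3 : L ≤ L ^ 2 := by nlinarith
        rw [e]
        calc (A + 1 / 2) * L ≤ (A + 1) * L ^ 2 := by
              apply mul_le_mul (by linarith) h3 (by linarith) (by linarith)
          _ ≤ (d * L) * L ^ 2 := by gcongr
      rcases le_total 0 y with h0 | h0
      · rw [abs_of_nonneg h0] at hnm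
        refine crude (b' + d) ?_ ?_
        · have := abs_add_le b' d
          rw [abs_of_pos hd] at this
          linarith
        · have h4 : d * L ^ 3 ≤ d * y := mul_le_mul_of_nonneg_left hnm.le hd.le
          nlinarith
      · rw [abs_of_nonpos h0] at hnm
        refine crude (b' - d) ?_ ?_
        · have := abs_sub b' d
          rw [abs_of_pos hd] at this
          linarith
        · have h4 : d * L ^ 3 ≤ d * (-y) := mul_le_mul_of_nonneg_left hnm.le hd.le
          nlinarith
  · push Not at hrL
    refine crude b' hb2 ?_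
    have h5 : (A + 1 / 2) * L ≤ (A + 1 / 2) * ((r : ℝ) + 2) :=
      mul_le_mul_of_nonneg_left hrL.le (by linarith)
    nlinarith

end PBZ

end
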