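import Pool.Agent.PotH.ExH
import Pool.Agent.PB.Z1S
import Pool.Agent.NUGC.RedC

/-!
# From the gas with the data of a configuration to the gas of any one body data

General sea, `m` rows of the sea, abstract cutoff `cr`, real potential `H`, statistic `Ψ`.

* `DomH`: the one body data `B` is dominated by the sea, ends, groups, cutoff and `exp H`;
* `T1H`, `RgH`: end of the window, range of the parameters; `lhsH`, `oneEH`, `confEH`, `enH`, `prefH`;
* `gas_zH`: from the gas bound to `PBZ.Z1S`, with the tilt;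
* **`red_stepH`**: one configuration.
-/

set_option autoImplicit false
set_option linter.unusedSectionVars false

noncomputable section

open MeasureTheory Finset Filter Topology
open scoped ENNReal

namespace PotH

open NUGC
open NUO (Xo kd ht Par Tb TW excS chgO PG slkK cons exc)
open NUSea.H0 (Inp Gd TG BF BF1 cstF aR datO DatC SpI hfar cfP)
open NUStabP (enC)
open NUDispW (win)
open PBZ (Z1S)

variable [NUSea.Sea]

/-! ### definitions -/

/-- **domination of the one body data** on the curve: rows of the sea, ends and groups at their true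
heights, potential `H`, cutoff `cr` -/
def DomH (B : OB) (m : ℕ) (η : ℝ → ℝ) (cr : ℝ → ℝ) {n : ℕ} (g : Fin n → Gd)
    (H : Bool → ℝ → ℝ) : Prop :=
  ∀ a t, B.R a (NUO.pA η t) * ‖B.φ (NUO.pA η t)‖ ≤
    2 * Real.cos NUP1.l * (Real.exp ((m : ℝ) * (NUSea.vc (NUAct.zt (NUKer.iD η) t)).re +
      (NUSp.DD pE qE (List.ofFn fun i => (g i).G) a (NUAct.zt (NUKer.iD η) t)).re + H a t) * cr t)

/-- end of the window: `E` is the excess of the composite groups -/
def T1H (ep e1 : ℝ) (m : ℕ) {r : ℕ} (O : Fin r → Xo) (E : ℝ) : ℝ :=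
  TW ep e1 m + max (excS (TW ep e1 m) O) E

/-- the range of the parameters of one configuration: `N + aX` quanta X, `N + aY` quanta Y -/
structure RgH (ep e1 : ℝ) (m : ℕ) {n : ℕ} (g : Fin n → Gd) (aX aY : ℕ) (ν : ℝ) (N : ℕ) {r : ℕ}
    (O : Fin r → Xo) (E x : ℝ) : Prop where
  n2 : n ≤ 2
  sp : ∀ i j, i ≠ j → (g i).σ ≠ (g j).σ
  ax : aX ≤ 3
  ay : aY ≤ 3
  q : (aX : ℝ) - aY = -∑ i, NUC43.sg (g i).σ * NUSp.qc (g i).c / 2
  nu : |ν - m| ≤ 4
  hN : N ≤ 3 * m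
  hr : r ≤ 2 * N + (aX + aY)
  hc1 : chgO O true ≤ N + aX
  hc2 : chgO O false ≤ N + aY
  E0 : 0 ≤ E
  hE : ∀ i, (g i).c = .w ∨ (g i).c = .d ∨ |(g i).τ| ≤ TW ep e1 m + E
  x0 : 0 ≤ x
  hx : ∀ i, NUSp.exc (T1H ep e1 m O E) (g i).τ ≤ x

/-- exponent of an object: mean field, slack, full current of the curve, far factor -/
def oneEH (m : ℕ) (η : ℝ → ℝ) (T' : ℝ) {r : ℕ} (O : Fin r → Xo) (i : Fin r) : ℝ :=
  (m : ℝ) * NUSea.O.mfo (cons (NUSea.O.par0 m) O i) +
    (m : ℝ) * slkK (fun t => ∫ u, NUSea.P u * NUC43.slk (u - t)) (kd (O i)) (ht (O i)) -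
    2 * Real.pi * NUO.wK (kd (O i)) * crH η m (ht (O i)) + exc T' (ht (O i))

/-- exponent of the objects: one body exponents, `K` per object, energy of the densities, `kap` times
the window energy -/
def confEH (m : ℕ) (η : ℝ → ℝ) (T' K kap : ℝ) {r : ℕ} (O : Fin r → Xo) : ℝ :=
  ∑ i, oneEH m η T' O i + K * r + enC O + kap * win univ (fun i => ht (O i))

/-- energies objects - groups and groups - groups (groups pinned at `T1`), far constants of the groups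
with `p` quanta X, `q` quanta Y in the gas -/
def enH (m : ℕ) {n : ℕ} (g : Fin n → Gd) {r : ℕ} (O : Fin r → Xo) (T1 : ℝ) (p q : ℕ) : ℝ :=
  ∑ i, ∑ d, ES (obSr (NUSea.O.par0 m).jL (NUSea.O.par0 m).e (O i)) (TG (fun i => (g i).pin T1) d) +
    1 / 2 * (∑ d, ∑ d', ES (TG (fun i => (g i).pin T1) d) (TG (fun i => (g i).pin T1) d')) +
    cstF T1 g true * ((p : ℝ) - q)

/-- prefactor: mean field value, sea terms of the groups at their true heights, far factors -/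
def prefH (m : ℕ) {n : ℕ} (g : Fin n → Gd) (E x Cst : ℝ) : ℝ :=
  Cst * Real.exp (NUSea.MF (m : ℝ) + ∑ i, seaG m (g i)) * Real.exp (37 / 20 * x + 12 / 5 * E)

/-- the left side: tilt and positive gas with the statistic `Ψ` -/
def lhsH (B : OB) (m : ℕ) (η η1 : ℝ → ℝ) (aX aY : ℕ) (ν : ℝ) (N : ℕ) (b' : ℝ) {r : ℕ}
    (O : Fin r → Xo)
    (Ψ : (Fin (N + aX - chgO O true) → ℝ) × (Fin (N + aY - chgO O false) → ℝ) → ℝ≥0∞) : ℝ≥0∞ :=
  ENNReal.ofReal (Real.exp (b' * (ν - N))) *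
    Z1S B (NUSea.O.par0 m) η η1 O (N + aX - chgO O true) (N + aY - chgO O false) Ψ

theorem prefH_nonneg {m : ℕ} {n : ℕ} {g : Fin n → Gd} {E x Cst : ℝ} (h : 0 ≤ Cst) :
    0 ≤ prefH m g E x Cst := by
  unfold prefH
  positivity

theorem prefH_mono {m : ℕ} {n : ℕ} {g : Fin n → Gd} {E x Cst Cst' : ℝ} (h : Cst ≤ Cst') :
    prefH m g E x Cst ≤ prefH m g E x Cst' := by
  unfold prefH
  gcongr

theorem prefH_mul {m : ℕ} {n : ℕ} {g : Fin n → Gd} {E x Cst a : ℝ} :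
    prefH m g E x (Cst * a) = prefH m g E x Cst * a := by
  unfold prefH
  ring

theorem confEH_add (m : ℕ) (η : ℝ → ℝ) (T' K K' kap : ℝ) {r : ℕ} (O : Fin r → Xo) :
    confEH m η T' (K + K') kap O = confEH m η T' K kap O + K' * r := by
  unfold confEH
  ring

theorem confEH_mono {m : ℕ} {η : ℝ → ℝ} {T' K K' kap : ℝ} (hK : K ≤ K') {r : ℕ} (O : Fin r → Xo) :
    confEH m η T' K kap O ≤ confEH m η T' K' kap O := by
  unfold confEH
  have : K * (r : ℝ) ≤ K' * r := mul_le_mul_of_nonneg_right hK (Nat.cast_nonneg r)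
  linarith

/-- the exponent of the objects, split -/
lemma confEH_split {m : ℕ} {η : ℝ → ℝ} {T' K kap : ℝ} {r : ℕ} (O : Fin r → Xo) :
    confEH m η T' K kap O =
      (∑ i, ((m : ℝ) * NUSea.O.mfo (cons (NUSea.O.par0 m) O i) +
        (m : ℝ) * slkK (fun t => ∫ u, NUSea.P u * NUC43.slk (u - t)) (kd (O i)) (ht (O i)) -
        2 * Real.pi * NUO.wK (kd (O i)) * crH η m (ht (O i)))) +
      5 / 2 * excS T' O + K * r + enC O + kap * win univ (fun i => ht (O i)) := by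
  unfold confEH oneEH excS exc
  rw [Finset.sum_add_distrib, ← Finset.mul_sum]

/-! ### the gas -/

/-- **from the gas bound to the gas of the one body data `B`**: constant `Q`, exponent `E`, statistic
`Ψ`, factor `Y` -/
theorem gas_zH {m : ℕ} {η η1 cr : ℝ → ℝ} (hcr : ∀ t, 0 ≤ cr t) {T1 x b' : ℝ} {n : ℕ}
    {g : Fin n → Gd} {B : OB} (hBn : B.Nn) {H : Bool → ℝ → ℝ} (hD : DomH B m η cr g H)
    (hF : FamOk T1 x g) (hT : 0 ≤ T1) {B1 : ℝ → ℝ} (hP : PG (1 / 8) (NUSea.O.par0 m))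
    (hη : ∀ t, |η t| < 1 / 8 * NUMF.l) {r : ℕ} {O : Fin r → Xo} {p q : ℕ}
    {Ψ : (Fin p → ℝ) × (Fin q → ℝ) → ℝ≥0∞} {Y : ℝ≥0∞} {Q E : ℝ} (hQ : 0 < Q)
    (h : ∫⁻ y, ENNReal.ofReal (NUSea.H0.W0 (datO (inH η η1 m T1 b' g B1 H) (NUSea.O.par0 m) O) p q
        (aCH η η1 m T1 b' g B1 H O true) (aCH η η1 m T1 b' g B1 H O false)
        (fun t => cr t * hfar (CcF n) T1 x t) y) * Ψ y ≤
      ENNReal.ofReal ((p.factorial : ℝ) * q.factorial *
        (Q * Real.exp (NUSea.MFs (inH η η1 m T1 b' g B1 H).s p q + E))) * Y) :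
    ENNReal.ofReal (Real.exp (-(b' / 2) * ((p : ℝ) + q))) *
      Z1S B (NUSea.O.par0 m) η η1 O p q Ψ ≤
      ENNReal.ofReal (Q * Real.exp (NUSea.MF (m : ℝ) + E + cstF T1 g true * p +
        cstF T1 g false * q)) * Y := by
  have hl := NUMF.l_pos
  obtain ⟨I, hI⟩ : ∃ I, I = inH η η1 m T1 b' g B1 H := ⟨_, rfl⟩
  have hs : I.s = (m : ℝ) := by rw [hI]; rfl
  have hIη : I.η = η := by rw [hI]; rfl
  have hIη1 : I.η1 = η1 := by rw [hI]; rfl
  have hIA : ∀ a z, I.A a z = NUSp.DD pE qE (List.ofFn fun i => (gP T1 g i).G) a z := by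
    intro a z
    rw [hI]
    rfl
  rw [← hI] at h
  have ea : ∀ a, aCH η η1 m T1 b' g B1 H O a =
      NUBR.aFe (datO I (NUSea.O.par0 m) O) (fun a t => (BF T1 g η a t + H a t) + -(b' / 2)) a := by
    intro a
    funext t
    unfold aCH aR NUBR.aFe raH
    rw [hI, sub_eq_add_neg]
  rw [ea true, ea false] at h
  have eQ : ∀ y : ℝ, Q * Real.exp y = Real.exp (Real.log Q + y) := by
    intro y
    rw [Real.exp_add, Real.exp_log hQ]
  have h' : ∫⁻ y, ENNReal.ofReal (NUSea.H0.W0 (datO I (NUSea.O.par0 m) O) p q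
      (NUBR.aFe (datO I (NUSea.O.par0 m) O) (fun a t => (BF T1 g η a t + H a t) + -(b' / 2)) true)
      (NUBR.aFe (datO I (NUSea.O.par0 m) O) (fun a t => (BF T1 g η a t + H a t) + -(b' / 2)) false)
      (fun t => cr t * hfar (CcF n) T1 x t) y) * Ψ y ≤
      ENNReal.ofReal ((p.factorial : ℝ) * q.factorial *
        Real.exp (NUSea.MFs I.s p q + (Real.log Q + E))) * Y := by
    refine h.trans (le_of_eq ?_)
    rw [eQ]
    congr 4
    ring
  have hη2 : ∀ t, |η t| < NUMF.l / 5 := fun t => by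
    have := hη t
    linarith
  have hcos := cosl_nonneg
  have key := PBZ.Z1S_le_inp (B := B) hBn (I := I) (P := NUSea.O.par0 m) (δ := 1 / 8) hP
    (by rw [hIη]; exact hη) (O := O) (p := p) (n := q) (cc := cstF T1 g)
    (e := fun a t => BF T1 g η a t + H a t) (cf := fun t => cr t * hfar (CcF n) T1 x t)
    (c := -(b' / 2))
    (E := Real.log Q + E) (Ψ := Ψ) (Y := Y) ?_ h'
  · rw [hIη, hIη1, hs] at key
    refine key.trans (le_of_eq ?_)
    rw [eQ]
    congr 3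
    ring
  · intro a t
    rw [hIη, hs, hIA]
    refine (hD a t).trans ?_
    have h1 := dom_fam hF hT pE qE a (hη2 t)
    have h2 : 0 ≤ 2 * Real.cos NUP1.l *
        Real.exp ((m : ℝ) * (NUSea.vc (NUAct.zt (NUKer.iD η) t)).re) * Real.exp (H a t) * cr t := by
      have := hcr t
      positivity
    have h3 := mul_le_mul_of_nonneg_left h1 h2
    rw [Real.exp_add _ (H a t), Real.exp_add
      ((m : ℝ) * (NUSea.vc (NUAct.zt (NUKer.iD η) t)).re)]
    refine le_trans (le_of_eq ?_) (h3.trans (le_of_eq ?_))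
    · ring
    · rw [show (m : ℝ) * (NUSea.vc (NUAct.zt (NUKer.iD η) t)).re +
        (NUSp.DD pE qE (List.ofFn fun i => (gP T1 g i).G) a (NUAct.zt (NUKer.iD η) t)).re +
        (BF T1 g η a t + H a t) = (m : ℝ) * (NUSea.vc (NUAct.zt (NUKer.iD η) t)).re +
        ((NUSp.DD pE qE (List.ofFn fun i => (gP T1 g i).G) a (NUAct.zt (NUKer.iD η) t)).re +
        BF T1 g η a t) + H a t by ring, Real.exp_add _ (H a t), Real.exp_add
          ((m : ℝ) * (NUSea.vc (NUAct.zt (NUKer.iD η) t)).re)]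
      ring

/-! ### one configuration -/

/-- the tilt -/
lemma tilt_numH {b' ν m N aX aY cX cY r : ℝ} (hb' : |b'| ≤ 1) (hν : |ν - m| ≤ 4) (hax : aX ≤ 3)
    (hay : aY ≤ 3) (hax0 : 0 ≤ aX) (hay0 : 0 ≤ aY) (h1 : 0 ≤ cX) (h2 : 0 ≤ cY) (h3 : cX ≤ 2 * r)
    (h4 : cY ≤ 2 * r) :
    b' * (ν - N) + b' / 2 * ((N + aX - cX) + (N + aY - cY)) - b' * m ≤ 7 + 2 * r := by
  have h5 : b' * (ν - N) + b' / 2 * ((N + aX - cX) + (N + aY - cY)) - b' * m =
      b' * (ν - m) + b' / 2 * (aX + aY) + -(b' / 2) * (cX + cY) := by ring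
  have h6 : |b' * (ν - m)| ≤ 1 * 4 := by
    rw [abs_mul]
    exact mul_le_mul hb' hν (abs_nonneg _) zero_le_one
  have h7 := le_abs_self (b' * (ν - m))
  obtain ⟨h8, h9⟩ := abs_le.1 hb'
  have h10 : b' / 2 * (aX + aY) ≤ 1 / 2 * (aX + aY) :=
    mul_le_mul_of_nonneg_right (by linarith) (by linarith)
  have h11 : -(b' / 2) * (cX + cY) ≤ 1 / 2 * (cX + cY) :=
    mul_le_mul_of_nonneg_right (by linarith) (by linarith)
  rw [h5]
  linarith

/-- **one configuration**: from the bound of the gas to the bound of `lhsH`; `α` the power of `m` in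
the bound of the gas, `x'` the excess in the cutoff -/
theorem red_stepH {K0 KG kap C1 Cst α S : ℝ} {ep e1 Cc : ℝ} {m : ℕ} {η η1 cr : ℝ → ℝ} {n : ℕ}
    {g : Fin n → Gd} {aX aY : ℕ} {ν : ℝ} {N : ℕ} {b' : ℝ} {r : ℕ} {O : Fin r → Xo}
    {E x x' : ℝ} {B : OB} {H : Bool → ℝ → ℝ} (hm0 : 0 < m) (hc : CrvP e1 Cc m η η1) (hBn : B.Nn)
    (hcr : ∀ t, 0 ≤ cr t) (hDom : DomH B m η cr g H) (hb' : |b'| ≤ 1) (hR : RgH ep e1 m g aX aY ν N O E x)
    (hF : FamOk (T1H ep e1 m O E) x' g) (hT : 0 ≤ T1H ep e1 m O E) {B1 : ℝ → ℝ}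
    (hP : PG (1 / 8) (NUSea.O.par0 m)) (hCst : 0 ≤ Cst)
    (hS0 : 0 ≤ S) (hS : S ≤ (2 + CcF 2) * Real.exp (37 / 20 * x))
    (hEn : (datO (inH η η1 m (T1H ep e1 m O E) b' g B1 H) (NUSea.O.par0 m) O).En ≤
        (∑ i, oneH (inH η η1 m (T1H ep e1 m O E) b' g B1 H) (NUSea.O.par0 m) O (crH η m) i) + enC O +
        (∑ i, ∑ d, ES (obSr (NUSea.O.par0 m).jL (NUSea.O.par0 m).e (O i))
          (TG (gP (T1H ep e1 m O E) g) d)) +
        1 / 2 * (∑ d, ∑ d', ES (TG (gP (T1H ep e1 m O E) g) d) (TG (gP (T1H ep e1 m O E) g) d')) +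
        (∑ i, seaG m (g i)) - b' * m + linH η η1 m g (T1H ep e1 m O E) H +
        K0 * r + kap / 2 * win univ (fun i => ht (O i)) + C1)
    {Ψ : (Fin (N + aX - chgO O true) → ℝ) × (Fin (N + aY - chgO O false) → ℝ) → ℝ≥0∞} {Y : ℝ≥0∞}
    (h : ∫⁻ y, ENNReal.ofReal (NUSea.H0.W0
        (datO (inH η η1 m (T1H ep e1 m O E) b' g B1 H) (NUSea.O.par0 m) O)
        (N + aX - chgO O true) (N + aY - chgO O false)
        (aCH η η1 m (T1H ep e1 m O E) b' g B1 H O true)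
        (aCH η η1 m (T1H ep e1 m O E) b' g B1 H O false)
        (fun t => cr t * hfar (CcF n) (T1H ep e1 m O E) x' t) y) * Ψ y ≤
      ENNReal.ofReal (((N + aX - chgO O true).factorial : ℝ) * (N + aY - chgO O false).factorial *
        (Cst * (m : ℝ) ^ α * (1 + S) *
          Real.exp (NUSea.H0.confC ep e1 m (inH η η1 m (T1H ep e1 m O E) b' g B1 H)
            (NUSea.O.par0 m) (N + aX - chgO O true) (N + aY - chgO O false) KG (kap / 2) O
            (T1H ep e1 m O E)))) * Y) :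
    lhsH B m η η1 aX aY ν N b' O Ψ ≤
      ENNReal.ofReal (prefH m g E x ((Cst + 1) * (3 + CcF 2) * Real.exp (C1 + 7)) *
        (m : ℝ) ^ α *
        Real.exp (confEH m η (TW ep e1 m) (KG + K0 + 2) kap O - 1 / 10 * excS (TW ep e1 m) O +
          linH η η1 m g (T1H ep e1 m O E) H +
          enH m g O (T1H ep e1 m O E) (N + aX - chgO O true) (N + aY - chgO O false))) * Y := by
  obtain ⟨T1, hT1⟩ : ∃ T1, T1 = T1H ep e1 m O E := ⟨_, rfl⟩
  rw [← hT1] at hF hT hEn h ⊢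
  unfold lhsH
  generalize hp : N + aX - chgO O true = p at Ψ h ⊢
  generalize hq : N + aY - chgO O false = q at Ψ h ⊢
  have hpR : (p : ℝ) = (N : ℝ) + aX - chgO O true := by
    rw [← hp, Nat.cast_sub hR.hc1]
    push_cast
    ring
  have hqR : (q : ℝ) = (N : ℝ) + aY - chgO O false := by
    rw [← hq, Nat.cast_sub hR.hc2]
    push_cast
    ring
  have hmp' : (0 : ℝ) < m := by exact_mod_cast hm0
  obtain ⟨n1, n2⟩ := hc.small
  have hη : ∀ t, |η t| < 1 / 8 * NUMF.l := fun t => (n1 t).trans_lt (by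
    have := Real.pi_gt_three
    show (1 : ℝ) / 100 < 1 / 8 * (Real.pi / 8)
    linarith)
  obtain ⟨I, hI⟩ : ∃ I, I = inH η η1 m T1 b' g B1 H := ⟨_, rfl⟩
  obtain ⟨E', hE'⟩ : ∃ E', E' = (datO I (NUSea.O.par0 m) O).En + KG * r +
      12 / 5 * (T1 - TW ep e1 m) + kap / 2 * win univ (fun i => ht (O i)) := ⟨_, rfl⟩
  have hconf : NUSea.H0.confC ep e1 m (inH η η1 m T1 b' g B1 H) (NUSea.O.par0 m) p q KG
      (kap / 2) O T1 = NUSea.MFs (inH η η1 m T1 b' g B1 H).s p q + E' := by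
    rw [hE', hI]
    unfold NUSea.H0.confC
    ring
  rw [hconf] at h
  obtain ⟨Q, hQd⟩ : ∃ Q, Q = (Cst + 1) * (m : ℝ) ^ α * (1 + S) := ⟨_, rfl⟩
  have hma : 0 < (m : ℝ) ^ α := Real.rpow_pos_of_pos hmp' _
  have hQ : 0 < Q := by rw [hQd]; positivity
  have h' : ∫⁻ y, ENNReal.ofReal (NUSea.H0.W0 (datO (inH η η1 m T1 b' g B1 H) (NUSea.O.par0 m) O)
        p q (aCH η η1 m T1 b' g B1 H O true) (aCH η η1 m T1 b' g B1 H O false)
        (fun t => cr t * hfar (CcF n) T1 x' t) y) * Ψ y ≤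
      ENNReal.ofReal ((p.factorial : ℝ) * q.factorial *
        (Q * Real.exp (NUSea.MFs (inH η η1 m T1 b' g B1 H).s p q + E'))) * Y := by
    refine h.trans (mul_le_mul_left (ENNReal.ofReal_le_ofReal ?_) _)
    rw [hQd]
    have h1 : (0 : ℝ) ≤ (p.factorial : ℝ) * q.factorial := by positivity
    refine mul_le_mul_of_nonneg_left (mul_le_mul_of_nonneg_right ?_ (Real.exp_pos _).le) h1
    have h2 : 0 ≤ (m : ℝ) ^ α * (1 + S) := by positivity
    nlinarith
  have hz := gas_zH (x := x') hcr hBn hDom hF hT hP hη hQ h'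
  -- the tilt
  have e1' : ENNReal.ofReal (Real.exp (b' * (ν - N))) * Z1S B (NUSea.O.par0 m) η η1 O p q Ψ =
      ENNReal.ofReal (Real.exp (b' * (ν - N) + b' / 2 * ((p : ℝ) + q))) *
        (ENNReal.ofReal (Real.exp (-(b' / 2) * ((p : ℝ) + q))) *
          Z1S B (NUSea.O.par0 m) η η1 O p q Ψ) := by
    rw [← mul_assoc, ← ENNReal.ofReal_mul (Real.exp_pos _).le, ← Real.exp_add]
    congr 3
    ring
  rw [e1']
  refine (mul_le_mul_right hz _).trans ?_
  rw [← mul_assoc, ← ENNReal.ofReal_mul (Real.exp_pos _).le]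
  refine mul_le_mul_left (ENNReal.ofReal_le_ofReal ?_) _
  -- the real inequality
  obtain ⟨c1, hc1⟩ : ∃ c1 : ℝ, c1 = cstF T1 g true := ⟨_, rfl⟩
  have hc2 : cstF T1 g false = -c1 := by
    have := NUSea.H0.cstF_cancel g T1
    rw [hc1]
    linarith
  obtain ⟨X1, hX1⟩ : ∃ X1, X1 = b' * (ν - N) + b' / 2 * ((p : ℝ) + q) +
      (NUSea.MF (m : ℝ) + E' + cstF T1 g true * p + cstF T1 g false * q) := ⟨_, rfl⟩
  have hSx : 1 + S ≤ (3 + CcF 2) * Real.exp (37 / 20 * x) := by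
    have h2 : 1 ≤ Real.exp (37 / 20 * x) := Real.one_le_exp (by have := hR.x0; positivity)
    nlinarith
  have hCc0 := CcF_one 2
  have hlhs : Real.exp (b' * (ν - N) + b' / 2 * ((p : ℝ) + q)) *
      (Q * Real.exp (NUSea.MF (m : ℝ) + E' + cstF T1 g true * p + cstF T1 g false * q)) =
        (Cst + 1) * (m : ℝ) ^ α * (1 + S) * Real.exp X1 := by
    rw [hX1, hQd, Real.exp_add (b' * (ν - N) + b' / 2 * ((p : ℝ) + q))]
    ring
  rw [hlhs]
  obtain ⟨X2, hX2⟩ : ∃ X2, X2 = NUSea.MF (m : ℝ) + (∑ i, seaG m (g i)) + 12 / 5 * E + (C1 + 7) +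
      (confEH m η (TW ep e1 m) (KG + K0 + 2) kap O - 1 / 10 * excS (TW ep e1 m) O +
          linH η η1 m g T1 H + enH m g O T1 p q) := ⟨_, rfl⟩
  have hrhs : prefH m g E x ((Cst + 1) * (3 + CcF 2) * Real.exp (C1 + 7)) * (m : ℝ) ^ α *
        Real.exp (confEH m η (TW ep e1 m) (KG + K0 + 2) kap O -
          1 / 10 * excS (TW ep e1 m) O + linH η η1 m g T1 H + enH m g O T1 p q) =
      (Cst + 1) * (m : ℝ) ^ α * ((3 + CcF 2) * Real.exp (37 / 20 * x)) * Real.exp X2 := by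
    unfold prefH
    rw [hX2, Real.exp_add _ (confEH m η (TW ep e1 m) (KG + K0 + 2) kap O -
      1 / 10 * excS (TW ep e1 m) O + linH η η1 m g T1 H + enH m g O T1 p q),
      Real.exp_add _ (C1 + 7), Real.exp_add _ (12 / 5 * E), Real.exp_add _ (12 / 5 * E)]
    ring
  rw [hrhs]
  refine mul_le_mul (mul_le_mul_of_nonneg_left hSx (by positivity)) (Real.exp_le_exp.2 ?_)
    (Real.exp_pos _).le (by positivity)
  -- exponents
  have hexc : T1 - TW ep e1 m ≤ excS (TW ep e1 m) O + E := by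
    rw [hT1]
    unfold T1H
    have h2 := NUO.excS_nonneg (TW ep e1 m) O
    have h3 : max (excS (TW ep e1 m) O) E ≤ excS (TW ep e1 m) O + E :=
      max_le (by linarith [hR.E0]) (by linarith)
    linarith
  have hchg1 := chgOx_le2 O true
  have hchg2 := chgOx_le2 O false
  have hch1 : (0 : ℝ) ≤ chgO O true := Nat.cast_nonneg _
  have hch2 : (0 : ℝ) ≤ chgO O false := Nat.cast_nonneg _
  have hax : (aX : ℝ) ≤ 3 := by exact_mod_cast hR.ax
  have hay : (aY : ℝ) ≤ 3 := by exact_mod_cast hR.ay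
  have hax0 : (0 : ℝ) ≤ aX := Nat.cast_nonneg _
  have hay0 : (0 : ℝ) ≤ aY := Nat.cast_nonneg _
  have htilt : b' * (ν - N) + b' / 2 * ((p : ℝ) + q) - b' * m ≤ 7 + 2 * r := by
    rw [hpR, hqR]
    exact tilt_numH hb' hR.nu hax hay hax0 hay0 hch1 hch2 hchg1 hchg2
  have e6 : (∑ i, oneH (inH η η1 m T1 b' g B1 H) (NUSea.O.par0 m) O (crH η m) i) =
      ∑ i, ((m : ℝ) * NUSea.O.mfo (cons (NUSea.O.par0 m) O i) +
        (m : ℝ) * slkK (fun t => ∫ u, NUSea.P u * NUC43.slk (u - t)) (kd (O i)) (ht (O i)) -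
        2 * Real.pi * NUO.wK (kd (O i)) * crH η m (ht (O i))) := rfl
  rw [e6] at hEn
  clear hz h' h hconf e1' hlhs hrhs
  rw [hX1, hX2, hc2, ← hc1, confEH_split]
  unfold enH
  rw [← hc1, hE']
  have e5 : (fun i => (g i).pin T1) = gP T1 g := rfl
  rw [e5]
  rw [← hI] at hEn
  linarith

end PotH

end
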