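import Pool.Agent.PotH.CutA

/-!
# The cutoff of the rows `0^K ++ ex` near the line of the gas

`exists_cutW`: for `m ≤ K + n0`, `K ≤ 3 m`, `m` large, at most `n0` further points with
`|re x| ≤ l / 5`, `|im x| ≤ h0`, and `l - 1/100 ≤ re u ≤ l + ep / 2`: the product of the `psi` is at most
`exp (- c m e^{-p |im u|})`, the cutoff at most `C m e^{-p |im u|}`, `p = (8 / 3) (1 - ep)`;
`exists_lphW`: in the bulk the logarithm of the cutoff is analytic and tiny.
-/

set_option autoImplicit false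

noncomputable section

open Complex Filter Topology

namespace PotH

open NUP1

/-- the half width of the strip of the cutoff -/
def sI (ep : ℝ) : ℝ := 3 * l / 2 + ep / 2

theorem adm_sI {ep : ℝ} (h0 : 0 < ep) (h1 : ep ≤ 1 / 100) : Adm (4 / 3 * (1 - ep)) (sI ep) where
  pos := by nlinarith
  snn := by
    have := l_pos
    unfold sI
    positivity
  sl := by
    have hpi := Real.pi_gt_three
    unfold sI l
    nlinarith [mul_pos h0 h0]
  bl := by
    have hpi := Real.pi_pos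
    unfold l
    nlinarith [mul_pos h0 hpi]

/-- rows: `K` rows at `0` and the further points `ex` -/
structure RwI (n0 : ℕ) (h0 : ℝ) (m K : ℕ) (W ex : List ℂ) : Prop where
  perm : W.Perm (List.replicate K 0 ++ ex)
  len : ex.length ≤ n0
  pt : ∀ x ∈ ex, |x.re| ≤ l / 5 ∧ |x.im| ≤ h0
  up : K ≤ 3 * m
  dn : m ≤ K + n0

/-- the product of the `psi` -/
def prW (β : ℝ) (K : ℕ) (ex : List ℂ) (u : ℂ) : ℂ :=
  psi β u ^ K * (ex.map fun x => psi β (u - x)).prod

/-- the geometry of the points -/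
lemma wide_of {ep : ℝ} (h0 : 0 < ep) (h1 : ep ≤ 1 / 100) {x u : ℂ} (hx : |x.re| ≤ l / 5)
    (hu1 : l - 1 / 100 ≤ u.re) (hu2 : u.re ≤ l + ep / 2) : |(u - x).re + l / 2| ≤ 9 / 5 * l := by
  have hl : (3 : ℝ) / 8 < l := by
    unfold l
    have := Real.pi_gt_three
    linarith
  obtain ⟨x1, x2⟩ := abs_le.1 hx
  rw [sub_re, abs_le]
  constructor <;> linarith

/-- **the cutoff near the line of the gas** -/
theorem exists_cutW {ep : ℝ} (h0 : 0 < ep) (h1 : ep ≤ 1 / 100) (n0 : ℕ) {hh : ℝ} (hhh : 0 ≤ hh) :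
    ∃ c C : ℝ, 0 < c ∧ 1 ≤ C ∧ ∃ m0 : ℕ, 1 ≤ m0 ∧ ∀ m ≥ m0, ∀ (K : ℕ) (W ex : List ℂ),
      RwI n0 hh m K W ex → ∀ u : ℂ, l - 1 / 100 ≤ u.re → u.re ≤ l + ep / 2 →
      ‖prW (4 / 3 * (1 - ep)) K ex u‖ ≤
        Real.exp (-(c * (m * Real.exp (-(8 / 3 * (1 - ep)) * |u.im|)))) ∧
      ‖phi (4 / 3 * (1 - ep)) W u‖ ≤ C * (m * Real.exp (-(8 / 3 * (1 - ep)) * |u.im|)) := by
  have hA := adm_sI h0 h1
  obtain ⟨β, hβ⟩ : ∃ β : ℝ, β = 4 / 3 * (1 - ep) := ⟨_, rfl⟩
  have hβ0 : 0 < β := by rw [hβ]; nlinarith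
  have hβ1 : β ≤ 4 / 3 := by rw [hβ]; nlinarith
  have e2 : 8 / 3 * (1 - ep) = 2 * β := by rw [hβ]; ring
  rw [e2, ← hβ]
  rw [← hβ] at hA
  have hk := hA.kap_pos
  have hc := hA.cl_pos
  obtain ⟨c1, hc1⟩ : ∃ c1 : ℝ, c1 = cl β * kap β (sI ep) / 2 := ⟨_, rfl⟩
  have hc10 : 0 < c1 := by rw [hc1]; positivity
  obtain ⟨A, hAd⟩ : ∃ A : ℝ, A = 10 * Real.exp (2 * β * hh) * n0 := ⟨_, rfl⟩
  have hA0 : 0 ≤ A := by rw [hAd]; positivity
  obtain ⟨m1, hm1⟩ := exists_nat_ge (4 * A / c1)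
  refine ⟨c1 / 4, 12 / kap β (sI ep) + A * Real.exp A + 1, by positivity, ?_,
    max (2 * n0 + 1) m1, le_trans (by omega) (le_max_left _ _), ?_⟩
  · have : 0 ≤ 12 / kap β (sI ep) + A * Real.exp A := by positivity
    linarith
  intro m hm K W ex hW u hu1 hu2
  have hl : (3 : ℝ) / 8 < l := by
    unfold l
    have := Real.pi_gt_three
    linarith
  have hm2 : 2 * n0 + 1 ≤ m := (le_max_left _ _).trans hm
  have hm3 : (m1 : ℝ) ≤ m := by exact_mod_cast (le_max_right _ _).trans hm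
  have hmr : (1 : ℝ) ≤ m := by
    have : 1 ≤ m := by omega
    exact_mod_cast this
  have hKm : (m : ℝ) / 2 ≤ K := by
    have h3 := hW.dn
    have h4 : m ≤ 2 * K := by omega
    have h5 : (m : ℝ) ≤ 2 * K := by exact_mod_cast h4
    linarith
  have hK3 : (K : ℝ) ≤ 3 * m := by exact_mod_cast hW.up
  have hAm : 4 * A ≤ c1 * m := by
    have h3 := hm1.trans hm3
    rw [div_le_iff₀ hc10] at h3
    linarith
  obtain ⟨E, hE⟩ : ∃ E : ℝ, E = Real.exp (-(2 * β) * |u.im|) := ⟨_, rfl⟩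
  have hE0 : 0 < E := by rw [hE]; exact Real.exp_pos _
  have hE1 : E ≤ 1 := by
    rw [hE, Real.exp_le_one_iff]
    have := abs_nonneg u.im
    nlinarith
  have hin : |u.re + l / 2| ≤ sI ep := by
    unfold sI
    rw [abs_le]
    constructor <;> linarith
  have hps := norm_psi hA hin
  rw [← hE, ← hc1] at hps
  obtain ⟨q1, q2⟩ := prod_wide (h0 := hh) hβ0 hβ1
    (fun x hx => wide_of h0 h1 (hW.pt x hx).1 hu1 hu2) fun x hx => (hW.pt x hx).2
  rw [← hE] at q1 q2
  have hlen : (ex.length : ℝ) ≤ n0 := by exact_mod_cast hW.len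
  have hAE : 10 * Real.exp (2 * β * hh) * ex.length * E ≤ A * E := by
    refine mul_le_mul_of_nonneg_right ?_ hE0.le
    rw [hAd]
    gcongr
  have q1' := q1.trans (Real.exp_le_exp.2 hAE)
  have q2' : ‖1 - (ex.map fun x => psi β (u - x)).prod‖ ≤ A * Real.exp A * E := by
    have h3 : Real.exp (10 * Real.exp (2 * β * hh) * ex.length * E) ≤ Real.exp (A * E) :=
      Real.exp_le_exp.2 hAE
    have h4 : Real.exp (A * E) - 1 ≤ A * E * Real.exp (A * E) := by
      have h5 := Real.one_sub_le_exp_neg (A * E)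
      have h6 := Real.exp_pos (A * E)
      have h7 : Real.exp (A * E) * Real.exp (-(A * E)) = 1 := by rw [← Real.exp_add]; simp
      nlinarith
    have h5 : Real.exp (A * E) ≤ Real.exp A := by
      refine Real.exp_le_exp.2 ?_
      nlinarith
    have h6 : A * E * Real.exp (A * E) ≤ A * E * Real.exp A := by gcongr
    linarith
  have hpK : ‖psi β u ^ K‖ ≤ Real.exp (-(c1 * K * E)) := by
    rw [norm_pow]
    calc ‖psi β u‖ ^ K ≤ Real.exp (-(c1 * E)) ^ K := pow_le_pow_left₀ (norm_nonneg _) hps K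
      _ = _ := by
        rw [← Real.exp_nat_mul]
        congr 1
        ring
  constructor
  · unfold prW
    rw [norm_mul]
    calc ‖psi β u ^ K‖ * ‖(ex.map fun x => psi β (u - x)).prod‖ ≤
          Real.exp (-(c1 * K * E)) * Real.exp (A * E) :=
          mul_le_mul hpK q1' (norm_nonneg _) (Real.exp_pos _).le
      _ = Real.exp (-((c1 * K - A) * E)) := by
          rw [← Real.exp_add]
          congr 1
          ring
      _ ≤ _ := by
          refine Real.exp_le_exp.2 (neg_le_neg ?_)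
          rw [← hE]
          have h3 : c1 / 4 * m ≤ c1 * K - A := by nlinarith
          calc c1 / 4 * (m * E) = c1 / 4 * m * E := by ring
            _ ≤ _ := mul_le_mul_of_nonneg_right h3 hE0.le
  · rw [phi_perm_K hW.perm]
    have e3 : 1 - psi β u ^ K * (ex.map fun x => psi β (u - x)).prod =
        (1 - psi β u ^ K) + psi β u ^ K * (1 - (ex.map fun x => psi β (u - x)).prod) := by
      ring
    have h3 : ‖1 - psi β u ^ K‖ ≤ 4 / kap β (sI ep) * (K * E) := by
      have h4 := norm_phi_le (X := List.replicate K 0) (u := u) hA (fun x hx => by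
        rw [List.eq_of_mem_replicate hx, sub_zero]
        exact hin)
      rw [phi_replicate, sub_zero, List.map_replicate, List.sum_replicate, nsmul_eq_mul, sub_zero,
        ← hE] at h4
      exact h4
    have h5 : ‖psi β u ^ K‖ ≤ 1 := hpK.trans (by
      rw [Real.exp_le_one_iff]
      have : 0 ≤ c1 * K * E := by positivity
      linarith)
    have h6 : ‖psi β u ^ K * (1 - (ex.map fun x => psi β (u - x)).prod)‖ ≤ A * Real.exp A * E := by
      rw [norm_mul]
      exact (mul_le_of_le_one_left (norm_nonneg _) h5).trans q2'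
    rw [e3, ← hE]
    refine (norm_add_le _ _).trans ?_
    have h7 : 4 / kap β (sI ep) * (K * E) ≤ 12 / kap β (sI ep) * (m * E) := by
      calc 4 / kap β (sI ep) * (K * E) ≤ 4 / kap β (sI ep) * (3 * m * E) := by gcongr
        _ = _ := by ring
    have h8 : A * Real.exp A * E ≤ A * Real.exp A * (m * E) := by
      have : 0 ≤ A * Real.exp A := by positivity
      have h9 : E ≤ m * E := le_mul_of_one_le_left hE0.le hmr
      exact mul_le_mul_of_nonneg_left h9 this
    have h9 : 0 ≤ (m : ℝ) * E := by positivity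
    have h10 : (12 / kap β (sI ep) + A * Real.exp A + 1) * (m * E) =
        12 / kap β (sI ep) * (m * E) + A * Real.exp A * (m * E) + m * E := by ring
    rw [h10]
    linarith

/-- the position on the line of the gas -/
def uI (z : ℂ) : ℂ := (l : ℂ) + I * z

lemma uI_re (z : ℂ) : (uI z).re = l - z.im := by
  unfold uI
  simp
  ring

lemma uI_im (z : ℂ) : (uI z).im = z.re := by
  unfold uI
  simp

/-- **the logarithm of the cutoff in the bulk** -/
theorem exists_lphW {ep : ℝ} (h0 : 0 < ep) (h1 : ep ≤ 1 / 100) (n0 : ℕ) {hh : ℝ} (hhh : 0 ≤ hh)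
    {e : ℝ} (he : 0 < e) (he1 : e ≤ 1) {A : ℝ} (hA0 : 0 < A) :
    ∃ m0 : ℕ, 1 ≤ m0 ∧ ∀ m ≥ m0, ∀ (K : ℕ) (W ex : List ℂ), RwI n0 hh m K W ex → ∀ z : ℂ,
      |z.re| ≤ (1 - e) * (3 / 8 * Real.log m) + 5 → |z.im| ≤ ep / 2 →
      DifferentiableAt ℂ (fun z => Complex.log (phi (4 / 3 * (1 - ep)) W (uI z))) z ∧
        ‖Complex.log (phi (4 / 3 * (1 - ep)) W (uI z))‖ ≤ A ∧
        ‖phi (4 / 3 * (1 - ep)) W (uI z)‖ =
          Real.exp (Complex.log (phi (4 / 3 * (1 - ep)) W (uI z))).re := by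
  obtain ⟨c, C, hc, -, m1, hm1, H⟩ := exists_cutW h0 h1 n0 hhh
  have ht1 : Tendsto (fun m : ℕ => (m : ℝ) ^ e) atTop atTop :=
    (tendsto_rpow_atTop he).comp tendsto_natCast_atTop_atTop
  obtain ⟨m2, hm2⟩ := eventually_atTop.1 (ht1.eventually_ge_atTop
    ((4 + 2 / A) * Real.exp 14 / c))
  refine ⟨max m1 m2, hm1.trans (le_max_left _ _), fun m hm K W ex hW z hz hz' => ?_⟩
  have hmm1 := (le_max_left m1 m2).trans hm
  have hmr : (1 : ℝ) ≤ m := by exact_mod_cast hm1.trans hmm1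
  have hmp : (0 : ℝ) < m := by linarith
  have hL := Real.log_nonneg hmr
  have hl : (3 : ℝ) / 8 < l := by
    unfold l
    have := Real.pi_gt_three
    linarith
  obtain ⟨z1, z2⟩ := abs_le.1 hz'
  have hu1 : l - 1 / 100 ≤ (uI z).re := by rw [uI_re]; linarith
  have hu2 : (uI z).re ≤ l + ep / 2 := by rw [uI_re]; linarith
  obtain ⟨k1, -⟩ := H m hmm1 K W ex hW (uI z) hu1 hu2
  rw [uI_im] at k1
  -- size of the exponent
  have h2 : Real.exp (-14) * (m : ℝ) ^ (-(1 - e)) ≤ Real.exp (-(8 / 3 * (1 - ep)) * |z.re|) := by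
    rw [Real.rpow_def_of_pos hmp, ← Real.exp_add]
    refine Real.exp_le_exp.2 ?_
    have h4 : 8 / 3 * (1 - ep) * |z.re| ≤ 8 / 3 * |z.re| := by
      refine mul_le_mul_of_nonneg_right ?_ (abs_nonneg _)
      linarith
    have h5 : 8 / 3 * |z.re| ≤ 8 / 3 * ((1 - e) * (3 / 8 * Real.log m) + 5) := by linarith
    nlinarith
  have h3 : (m : ℝ) * (m : ℝ) ^ (-(1 - e)) = (m : ℝ) ^ e := by
    rw [← Real.rpow_one_add' hmp.le (by linarith)]
    congr 1
    ring
  have h4 : 4 + 2 / A ≤ c * (m * Real.exp (-(8 / 3 * (1 - ep)) * |z.re|)) := by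
    have h5 := hm2 m ((le_max_right _ _).trans hm)
    rw [div_le_iff₀ hc] at h5
    have h6 : (4 + 2 / A) ≤ Real.exp (-14) * (c * (m : ℝ) ^ e) := by
      have h7 : Real.exp (-14) * ((4 + 2 / A) * Real.exp 14) ≤ Real.exp (-14) * ((m : ℝ) ^ e * c) :=
        mul_le_mul_of_nonneg_left h5 (Real.exp_pos _).le
      have h8 : Real.exp (-14) * Real.exp 14 = 1 := by rw [← Real.exp_add]; simp
      have h9 : Real.exp (-14) * ((4 + 2 / A) * Real.exp 14) = 4 + 2 / A := by
        rw [mul_left_comm, h8, mul_one]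
      rw [h9] at h7
      linarith
    refine h6.trans ?_
    rw [← h3]
    calc Real.exp (-14) * (c * (m * (m : ℝ) ^ (-(1 - e)))) =
          c * (m * (Real.exp (-14) * (m : ℝ) ^ (-(1 - e)))) := by ring
      _ ≤ _ := by gcongr
  have h5 : ‖prW (4 / 3 * (1 - ep)) K ex (uI z)‖ ≤ min (1 / 4) (A / 2) := by
    refine k1.trans ((Real.exp_le_exp.2 (neg_le_neg h4)).trans ?_)
    have h6 := Real.add_one_le_exp (4 + 2 / A)
    have h7 : 0 < 2 / A := by positivity
    rw [Real.exp_neg]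
    refine le_min ?_ ?_
    · rw [one_div]
      exact inv_anti₀ (by norm_num) (by linarith)
    · rw [show A / 2 = (2 / A)⁻¹ by rw [inv_div]]
      exact inv_anti₀ h7 (by linarith)
  obtain ⟨x, hx⟩ : ∃ x : ℂ, x = prW (4 / 3 * (1 - ep)) K ex (uI z) := ⟨_, rfl⟩
  rw [← hx] at h5
  have hph : phi (4 / 3 * (1 - ep)) W (uI z) = 1 + -x := by
    rw [phi_perm_K hW.perm, hx]
    unfold prW
    ring
  have hx1 : ‖-x‖ ≤ 1 / 4 := by
    rw [norm_neg]
    exact h5.trans (min_le_left _ _)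
  have hx2 : ‖-x‖ ≤ A / 2 := by
    rw [norm_neg]
    exact h5.trans (min_le_right _ _)
  have hsl : 1 + -x ∈ Complex.slitPlane := Complex.mem_slitPlane_of_norm_lt_one (by linarith)
  refine ⟨?_, ?_, ?_⟩
  · have hβ0 : 0 < 4 / 3 * (1 - ep) := by nlinarith
    have hβ1 : 4 / 3 * (1 - ep) ≤ 4 / 3 := by nlinarith
    have hd1 : DifferentiableAt ℂ (psi (4 / 3 * (1 - ep))) (uI z) := by
      refine diff_psi_wide hβ0 hβ1 ?_
      have := wide_of (x := 0) h0 h1 (by simp; positivity) hu1 hu2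
      rwa [sub_zero] at this
    have hd2 : DifferentiableAt ℂ (fun u => (ex.map fun x => psi (4 / 3 * (1 - ep)) (u - x)).prod)
        (uI z) := diff_prod_wide hβ0 hβ1 fun x hx => wide_of h0 h1 (hW.pt x hx).1 hu1 hu2
    have hd3 : DifferentiableAt ℂ (phi (4 / 3 * (1 - ep)) W) (uI z) := by
      have e : phi (4 / 3 * (1 - ep)) W = fun u => 1 - psi (4 / 3 * (1 - ep)) u ^ K *
          (ex.map fun x => psi (4 / 3 * (1 - ep)) (u - x)).prod := funext fun u => phi_perm_K hW.perm u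
      rw [e]
      exact ((hd1.pow K).mul hd2).const_sub 1
    have hu : DifferentiableAt ℂ uI z := by
      unfold uI
      fun_prop
    refine DifferentiableAt.clog ?_ ?_
    · exact DifferentiableAt.comp (g := phi (4 / 3 * (1 - ep)) W) (f := uI) z hd3 hu
    · rw [hph]
      exact hsl
  · rw [hph]
    have h6 := Complex.norm_log_one_add_half_le_self (z := -x) (by linarith)
    linarith
  · have hne : (1 + -x) ≠ 0 := Complex.slitPlane_ne_zero hsl
    rw [hph, ← Complex.norm_exp, Complex.exp_log hne]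

end PotH

end
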