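import Pool.Agent.NUGC.AsmC

/-!
# Plan B: the assembly of one configuration, abstract in the gas and in the one body data

`asmH`: one body weights `o i` of the objects, factors `sp i` of spectators with energies `es i`,
exponents `u i` of the gas bound; if `o i exp (u i + K') colK ≤ act' i` then the product of the
weights, the pair weights and the gas bound is at most `B ∏ act' exp (- c ∑ cnt²)`.

`asmZ`: the same for a term `objWc B P O * Z` with `Z ≤ B exp(..)`.
-/

set_option autoImplicit false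

noncomputable section

open MeasureTheory Finset
open scoped ENNReal

namespace PotH

open NUO NUP1 NUStabP NUDispW NUGC
open NUDirP (Small)

/-- **one configuration** -/
theorem asmH (hS : StabProd) (K A2 : ℝ) : ∃ K' c1 : ℝ, 0 < c1 ∧
    ∀ P : Par, P.jL = 9 / 4 → P.e = 1 / 4 → P.d = d0 → ∀ r : ℕ, Small 8 P r → ∀ O : Fin r → Xo,
    ∀ o sp u es act' : Fin r → ℝ, (∀ i, 0 ≤ o i) → (∀ i, 0 ≤ sp i) →
      (∀ i, sp i * Real.exp (es i) ≤ Real.exp A2) →
      (∀ i, o i * Real.exp (u i + K') * colK (((r : ℝ) + 1) ^ 12) (kd (O i)) ≤ act' i) →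
    ∀ B : ℝ, 0 ≤ B → ∀ W : Finset ℤ,
      ((∏ i, o i) * ∏ i, sp i) * (∏ i, ∏ j, if i < j then pairN P O i j else 1) *
        (B * Real.exp (∑ i, u i + ∑ i, es i + K * r + enC O + c1 * win univ fun i => ht (O i))) ≤
      B * (∏ i, act' i) * Real.exp (-(c1 * ∑ w ∈ W, (cO O w : ℝ) ^ 2)) := by
  obtain ⟨C2, c1, hC2, hc1, hstab⟩ := hS
  refine ⟨2 * C2 + K + (C2 * 6144 + 1) * 4 + A2, c1 / 2, by positivity, ?_⟩
  intro P hj he hd r hsm O o sp u es act' ho hsp hspec hone B hB W
  have hdr : (r : ℝ) ^ 2 * P.d r ≤ r := by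
    rcases Nat.eq_zero_or_pos r with h | h
    · simp [h]
    · have h1 := d0_sq r
      have h2 : (1 : ℝ) ≤ r := by exact_mod_cast h
      rw [hd]
      linarith
  have hd0 : 0 < P.d r := by
    rw [hd]
    exact d0_pos r
  have hdi : 1 / P.d r ≤ 6144 * ((r : ℝ) + 1) ^ 2 := by
    rw [hd]
    exact (d0_inv r).le
  have key := conf_algC (x := fun i => ht (O i)) (o := o) (sp := sp) (u := u) (es := es)
    (act' := act') (coll := fun i => collC C2 4 P r (O i))
    (col := fun i => colK (((r : ℝ) + 1) ^ 12) (kd (O i)))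
    (PP := ∏ i, ∏ j, if i < j then pairN P O i j else 1) (EG := enC O) (B := B)
    (K := K) (C2 := C2) (A := (C2 * 6144 + 1) * 4) (A2 := A2) (c1 := c1) (kap := c1 / 2)
    (dr := P.d r) W hC2.le (by positivity) le_rfl hdr ho hsp
    (fun i => collC_nonneg hC2.le hd0 _)
    (fun i => coll_bd hC2.le (by norm_num) hd0 hdi _)
    (fun W => hstab P hj he r hsm O W) hspec hone hB
  exact key

end PotH

end
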