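import Pool.Agent.NUS4C.GDSp

/-!
# The data `GD` of the sharp bound, abstract rests

`gd_confA`: as `NUS4C.gd_conf`, without cutoff (the logarithm of the cutoff is in the real rest);
`gd_DDA`: the same with ends and groups.
-/

set_option autoImplicit false
set_option linter.unusedSectionVars false

open MeasureTheory Set Filter Topology

namespace PotH

open NUE NUOC NUKer NUR2 NUDi NUO NUGC NUSp NUS4C
open NUS4 (R1f)

noncomputable section

variable [NUSea.Sea]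

/-- **the data of the sharp bound for a configuration**: curve `η`, rows `s`, extra analytic potentials
`A`, real rests `Er`; at most `log m` objects at heights at most `(log m)²` -/
theorem gd_confA {ep e1 κ : ℝ} (hep : 0 < ep) (hep1 : ep ≤ 1 / 100) (he : 0 < e1) (he1 : e1 ≤ 1 / 4)
    (hκ : 0 < κ) (k : ℕ) : ∃ m0 : ℕ, ∀ m ≥ m0, ∀ (s R : ℝ) (P : Par) (η η1 : ℝ → ℝ)
    (A : Bool → ℂ → ℂ) (Er : Bool → ℝ → ℝ) (r : ℕ) (O : Fin r → Xo) (aX aY : ℝ → ℝ),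
    (m : ℝ) / 2 ≤ s → s ≤ 2 * m → PG (1 / 8) P → Real.log m ≤ R →
    R ≤ 2 * Real.log m ^ 2 → (1 - e1) * Tb (Real.log m) + 3 ≤ R →
    (∃ (ε Mc : ℝ) (ec : ℝ → ℝ), NUSea.Cur s ε Mc ((1 - e1) * Tb (Real.log m)) ec η ∧
      ε ≤ (m : ℝ) ^ (-κ) ∧ Mc ≤ Real.log m ^ k) →
    (∀ t, HasDerivAt η (η1 t) t) →
    (∀ a (z : ℂ), |z.re| ≤ (1 - e1) * Tb (Real.log m) + 2 → |z.im| < ep / 2 →
      DifferentiableAt ℂ (A a) z ∧ ‖A a z‖ ≤ Real.log m ^ k) →
    (∀ a, NUR2.Ext 4 ((1 - e1) * Tb (Real.log m)) (Real.log m ^ k) (Er a)) →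
    (r : ℝ) ≤ Real.log m → (∀ i, |ht (O i)| ≤ Real.log m ^ 2) →
    (∀ t, 0 ≤ aX t) → (∀ t, 0 ≤ aY t) → Measurable aX → Measurable aY →
    (∀ t, |t| ≤ (1 - e1) * Tb (Real.log m) → aX t = Real.exp (s * (NUSea.vc (NUAct.zt (iD η) t)).re +
      (FO P O true (NUAct.zt (iD η) t) + A true (NUAct.zt (iD η) t)).re + Er true t)) →
    (∀ t, |t| ≤ (1 - e1) * Tb (Real.log m) → aY t = Real.exp (s * (NUSea.vc (NUAct.zt (iD η) t)).re +
      (FO P O false (NUAct.zt (iD η) t) + A false (NUAct.zt (iD η) t)).re + Er false t)) →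
    GD m (k + 5) κ e1 (ep / 2) s R ((1 - e1) * Tb (Real.log m)) η η1 η η1 aX aY := by
  have hl := NUMF.l_pos
  have hlv : (98 : ℝ) / 250 < NUMF.l := by
    unfold NUMF.l
    have := Real.pi_gt_d2
    linarith
  -- the width
  have hw0 : 0 < ep / 2 := by linarith
  have hwl : ep / 2 < 1 / 8 * NUMF.l := by linarith
  obtain ⟨K0, hK0⟩ : ∃ K0 : ℝ, K0 = |KO (1 / 8) (ep / 2)| := ⟨_, rfl⟩
  have hK00 : 0 ≤ K0 := by rw [hK0]; exact abs_nonneg _
  have h4 := (Real.tendsto_log_atTop.comp tendsto_natCast_atTop_atTop).eventually_ge_atTop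
    (max 8 (K0 + 4))
  obtain ⟨m2, hm2⟩ := Filter.eventually_atTop.1 h4
  refine ⟨m2, fun m hm s R P η η1 A Er r O aX aY hs1 hs2 hP hR1 hR2 hbR hcur hd hA hEr
    hr hht ha0 hb0 ham hbm hX hY => ?_⟩
  have g2 := hm2 m hm
  obtain ⟨L, hL⟩ : ∃ L, L = Real.log m := ⟨_, rfl⟩
  have g2' : max 8 (K0 + 4) ≤ Real.log m := g2
  rw [← hL] at g2'
  have hL8 : 8 ≤ L := (le_max_left _ _).trans g2'
  have hLK : K0 + 4 ≤ L := (le_max_right _ _).trans g2'
  have hbd : (1 - e1) * Tb (Real.log m) = R1f e1 m + 1 := by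
    unfold R1f Tb
    ring
  have hb2 : (1 - e1) * Tb (Real.log m) ≤ L := by
    rw [← hL]
    unfold Tb
    nlinarith
  have hb00 : 0 ≤ (1 - e1) * Tb (Real.log m) := by
    rw [← hL]
    unfold Tb
    have : 0 ≤ 1 - e1 := by linarith
    positivity
  -- the potential
  have hF : ∀ (a : Bool) (z : ℂ), |z.re| ≤ (1 - e1) * Tb (Real.log m) + 2 → |z.im| < ep / 2 →
      DifferentiableAt ℂ (fun z => FO P O a z + A a z) z ∧ ‖FO P O a z + A a z‖ ≤ L ^ (k + 5) := by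
    intro a z hz1 hz2
    obtain ⟨d1, n1⟩ := hA a z hz1 hz2
    have d3 := (hasDerivAt_FO O hw0 hwl hP a hz2).differentiableAt
    have n3 := norm_FO O hw0 hwl hP a hz2
    refine ⟨d3.fun_add d1, ?_⟩
    rw [← hL] at n1 hr
    have hLk : 1 ≤ L ^ k := one_le_pow₀ (by linarith)
    have n4 : ‖FO P O a z‖ ≤ K0 * (L * (4 * L ^ 2)) := by
      refine n3.trans ?_
      have s1 : ∑ i, (1 + |z.re - ht (O i)|) ≤ r * (4 * L ^ 2) := by
        have : ∀ i : Fin r, 1 + |z.re - ht (O i)| ≤ 4 * L ^ 2 := by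
          intro i
          have t1 := abs_sub z.re (ht (O i))
          have t2 := hht i
          rw [← hL] at t2
          have t3 : |z.re| ≤ L + 2 := hz1.trans (by linarith)
          nlinarith
        refine (Finset.sum_le_sum fun i _ => this i).trans (le_of_eq ?_)
        rw [Finset.sum_const, Finset.card_univ, Fintype.card_fin, nsmul_eq_mul]
      have s0 : 0 ≤ ∑ i, (1 + |z.re - ht (O i)|) := Finset.sum_nonneg fun i _ => by positivity
      calc KO (1 / 8) (ep / 2) * ∑ i, (1 + |z.re - ht (O i)|) ≤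
            K0 * ∑ i, (1 + |z.re - ht (O i)|) := by
            rw [hK0]
            exact mul_le_mul_of_nonneg_right (le_abs_self _) s0
        _ ≤ K0 * (r * (4 * L ^ 2)) := mul_le_mul_of_nonneg_left s1 hK00
        _ ≤ K0 * (L * (4 * L ^ 2)) := by gcongr
    calc ‖FO P O a z + A a z‖ ≤ ‖FO P O a z‖ + ‖A a z‖ := norm_add_le _ _
      _ ≤ K0 * (L * (4 * L ^ 2)) + L ^ k := by gcongr
      _ ≤ K0 * (L * (4 * L ^ 2)) * L ^ k + L ^ k := by
          have : K0 * (L * (4 * L ^ 2)) * 1 ≤ K0 * (L * (4 * L ^ 2)) * L ^ k :=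
            mul_le_mul_of_nonneg_left hLk (by positivity)
          linarith
      _ = (K0 * 4 * L ^ 3 + 1) * L ^ k := by ring
      _ ≤ L ^ 5 * L ^ k := by
          refine mul_le_mul_of_nonneg_right ?_ (by positivity)
          have t1 : K0 * 4 * L ^ 3 ≤ (L - 4) * 4 * L ^ 3 := by
            have : K0 ≤ L - 4 := by linarith
            gcongr
          have t2 : 1 ≤ L ^ 3 := one_le_pow₀ (by linarith)
          nlinarith [mul_nonneg (mul_nonneg (by linarith : 0 ≤ L) (by linarith : 0 ≤ L - 8))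
            (by positivity : 0 ≤ L ^ 3)]
      _ = L ^ (k + 5) := by ring
  refine ⟨hs1, hs2, hR1, hR2, hbd.ge, hbR, ?_, ?_, hd, hd, ha0, hb0, ham, hbm, ?_, ?_⟩
  · obtain ⟨ε, Mc, ec, hc, hc1, hc2⟩ := hcur
    refine ⟨ε, Mc, ec, hc, hc1, hc2.trans ?_⟩
    rw [← hL]
    exact pow_le_pow_right₀ (by linarith) (by omega)
  · obtain ⟨ε, Mc, ec, hc, hc1, hc2⟩ := hcur
    refine ⟨ε, Mc, ec, hc, hc1, hc2.trans ?_⟩
    rw [← hL]
    exact pow_le_pow_right₀ (by linarith) (by omega)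
  · refine ⟨L ^ (k + 5), L ^ k, fun z => FO P O true z + A true z, Er true,
      by positivity, by rw [hL], ?_, hF true, by rw [hL]; exact hEr true, hX⟩
    rw [← hL]
    exact pow_le_pow_right₀ (by linarith) (by omega)
  · refine ⟨L ^ (k + 5), L ^ k, fun z => FO P O false z + A false z, Er false,
      by positivity, by rw [hL], ?_, hF false, by rw [hL]; exact hEr false, hY⟩
    rw [← hL]
    exact pow_le_pow_right₀ (by linarith) (by omega)

/-- **the data of the sharp bound with spectators**: `gd_confA` with `A a = DD p q L a`, ends at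
height `0`, at most `N` groups at heights at most `(log m)²`, real rests `Er` -/
theorem gd_DDA {ep e1 κ δ : ℝ} (hep : 0 < ep) (hep1 : ep ≤ 1 / 100) (he : 0 < e1) (he1 : e1 ≤ 1 / 4)
    (hκ : 0 < κ) (hδ : ep / 2 < δ * NUMF.l) (N k : ℕ) (hk : 3 ≤ k) : ∃ m0 : ℕ, ∀ m ≥ m0,
    ∀ (s R : ℝ) (P : Par) (η η1 : ℝ → ℝ) (p q : ℂ) (L : List Grp) (Er : Bool → ℝ → ℝ)
    (r : ℕ) (O : Fin r → Xo) (aX aY : ℝ → ℝ),
    (m : ℝ) / 2 ≤ s → s ≤ 2 * m → PG (1 / 8) P → Real.log m ≤ R →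
    R ≤ 2 * Real.log m ^ 2 → (1 - e1) * Tb (Real.log m) + 3 ≤ R →
    (∃ (ε Mc : ℝ) (ec : ℝ → ℝ), NUSea.Cur s ε Mc ((1 - e1) * Tb (Real.log m)) ec η ∧
      ε ≤ (m : ℝ) ^ (-κ) ∧ Mc ≤ Real.log m ^ k) →
    (∀ t, HasDerivAt η (η1 t) t) →
    Away δ p → Away δ q → p.im = 0 → q.im = 0 → L.length ≤ N →
    (∀ G ∈ L, gn G ≤ 15 ∧ ∃ τ, |τ| ≤ Real.log m ^ 2 ∧ G.Ok δ τ) →
    (∀ a, NUR2.Ext 4 ((1 - e1) * Tb (Real.log m)) (Real.log m ^ k) (Er a)) →
    (r : ℝ) ≤ Real.log m → (∀ i, |ht (O i)| ≤ Real.log m ^ 2) →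
    (∀ t, 0 ≤ aX t) → (∀ t, 0 ≤ aY t) → Measurable aX → Measurable aY →
    (∀ t, |t| ≤ (1 - e1) * Tb (Real.log m) → aX t = Real.exp (s * (NUSea.vc (NUAct.zt (iD η) t)).re +
      (FO P O true (NUAct.zt (iD η) t) + DD p q L true (NUAct.zt (iD η) t)).re + Er true t)) →
    (∀ t, |t| ≤ (1 - e1) * Tb (Real.log m) → aY t = Real.exp (s * (NUSea.vc (NUAct.zt (iD η) t)).re +
      (FO P O false (NUAct.zt (iD η) t) + DD p q L false (NUAct.zt (iD η) t)).re + Er false t)) →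
    GD m (k + 5) κ e1 (ep / 2) s R ((1 - e1) * Tb (Real.log m)) η η1 η η1 aX aY := by
  obtain ⟨m1, H⟩ := gd_confA hep hep1 he he1 hκ k
  obtain ⟨K, hK⟩ : ∃ K : ℝ, K = |kb δ (ep / 2)| * (2 + 15 * N) := ⟨_, rfl⟩
  have hK0 : 0 ≤ K := by rw [hK]; positivity
  have h4 := (Real.tendsto_log_atTop.comp tendsto_natCast_atTop_atTop).eventually_ge_atTop
    (max 3 (3 * K))
  obtain ⟨m2, hm2⟩ := Filter.eventually_atTop.1 h4
  refine ⟨max m1 m2, fun m hm s R P η η1 p q L Er r O aX aY hs1 hs2 hP hR1 hR2 hbR hcur hd hp hq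
    hp0 hq0 hLN hL hEr hr hht ha0 hb0 ham hbm hX hY => ?_⟩
  have g : max 3 (3 * K) ≤ Real.log m := hm2 m ((le_max_right _ _).trans hm)
  have g1 : 3 ≤ Real.log m := (le_max_left _ _).trans g
  have g2 : 3 * K ≤ Real.log m := (le_max_right _ _).trans g
  obtain ⟨l, hl⟩ : ∃ l, l = Real.log m := ⟨_, rfl⟩
  refine H m ((le_max_left _ _).trans hm) s R P η η1 (fun a => DD p q L a) Er r O aX aY hs1 hs2
    hP hR1 hR2 hbR hcur hd ?_ hEr hr hht ha0 hb0 ham hbm hX hY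
  intro a z hz1 hz2
  have hw0 : 0 < ep / 2 := by linarith
  refine ⟨(hasDerivAt_DD hw0 hδ hp hq (by rw [hp0, hq0]) (fun G hG => ?_) a hz2).differentiableAt, ?_⟩
  · obtain ⟨-, τ, -, h⟩ := hL G hG
    exact ⟨τ, h⟩
  · have h1 := norm_DD hw0 hδ hp hq hp0 hq0 hL (by positivity) a hz2
    refine h1.trans ?_
    rw [← hl] at hz1 g1 g2 ⊢
    have hb2 : (1 - e1) * Tb l ≤ l := by
      unfold Tb
      nlinarith
    have h2 : 1 + |z.re| + l ^ 2 ≤ 3 * l ^ 2 := by nlinarith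
    have h3 : |kb δ (ep / 2)| * (2 + 15 * (L.length : ℝ)) ≤ K := by
      rw [hK]
      have : (L.length : ℝ) ≤ N := by exact_mod_cast hLN
      gcongr
    calc |kb δ (ep / 2)| * (2 + 15 * (L.length : ℝ)) * (1 + |z.re| + l ^ 2) ≤ K * (3 * l ^ 2) := by
          gcongr
      _ = 3 * K * l ^ 2 := by ring
      _ ≤ l * l ^ 2 := by gcongr
      _ = l ^ 3 := by ring
      _ ≤ l ^ k := pow_le_pow_right₀ (by linarith) hk

end

end PotH
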