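import Pool.Agent.PotH.Fx
import Pool.Agent.PotH.GdA

/-!
# TARGET-C with a real potential: the one body factors in the bulk

`exists_gdH`: for groups and objects at heights at most `(log m)²` the one body factors of `inH`
satisfy `NUS4C.GD`.
-/

set_option autoImplicit false
set_option linter.unusedSectionVars false

open MeasureTheory Set Filter Topology

namespace PotH

open NUO (Xo ht Par Tb TW excS chgO FO)
open NUSea.H0
open NUGC (pE qE CcF SC chG gP muS tauS FamOk pE_re pE_im qE_re qE_im exists_geoC)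

noncomputable section

variable [NUSea.Sea]

/-- the far constants are small compared with `(log m)³` -/
lemma cstF_le {G : ℕ} (g : Fin G → Gd) {T1 X : ℝ} (hT : 0 ≤ T1) (hg : ∀ i, |(g i).τ| ≤ X) (a : Bool) :
    |cstF T1 g a| ≤ 3 * G * X := by
  unfold cstF
  refine (Finset.abs_sum_le_sum_abs _ _).trans ?_
  have h1 : ∀ i ∈ (Finset.univ : Finset (Fin G)),
      |NUSp.gq a (g i).G * NUSp.exc T1 (g i).τ| ≤ 3 * X := by
    intro i _
    rw [abs_mul]
    have h2 : |NUSp.gq a (g i).G| ≤ 3 := NUSp.abs_gq_le _ _ _ _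
    have h3 : |NUSp.exc T1 (g i).τ| ≤ X := by
      rw [abs_of_nonneg (NUSp.exc_nonneg _ _)]
      unfold NUSp.exc
      refine max_le ?_ ?_
      · linarith [hg i]
      · exact (abs_nonneg _).trans (hg i)
    exact mul_le_mul h2 h3 (abs_nonneg _) (by norm_num)
  refine (Finset.sum_le_sum h1).trans (le_of_eq ?_)
  rw [Finset.sum_const, Finset.card_univ, Fintype.card_fin, nsmul_eq_mul]
  ring

/-- **the one body factors in the bulk** -/
theorem exists_gdH {ep e1 κ : ℝ} (hep : 0 < ep) (hep1 : ep ≤ 1 / 100) (he : 0 < e1)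
    (he1 : e1 ≤ 1 / 100) (hκ : 0 < κ) (G k : ℕ) (hk : 4 ≤ k) : ∃ m0 : ℕ, ∀ m : ℕ,
    m0 ≤ m → ∀ η η1 : ℝ → ℝ, ∀ (b' : ℝ), |b'| ≤ 1 → ∀ (T1 x : ℝ) (g : Fin G → Gd) (B1 : ℝ → ℝ)
      (H H' : Bool → ℝ → ℝ) (B0 N0 th : ℝ),
      HOk B0 N0 th ((1 - e1) * Tb (Real.log m)) (Real.log m ^ 3) H H' →
      ∀ (cr : ℝ → ℝ), (∃ Ec : ℝ → ℝ, NUR2.Ext 4 ((1 - e1) * Tb (Real.log m)) 1 Ec ∧
        ∀ t, |t| ≤ (1 - e1) * Tb (Real.log m) → cr t = Real.exp (Ec t)) → ∀ (r : ℕ)
      (O : Fin r → Xo), TW ep e1 m ≤ T1 → (∀ i, |(g i).τ| ≤ Real.log m ^ 2) →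
      Measurable (cfH cr G T1 x) → (∀ t, 0 ≤ cfH cr G T1 x t) →
      (∃ (dl ε Mc : ℝ) (e : ℝ → ℝ), IOk dl ε Mc ((1 - e1) * Tb (Real.log m)) e
        (inH η η1 m T1 b' g B1 H) (NUSea.O.par0 m) r ∧ ε ≤ (m : ℝ) ^ (-κ) ∧ Mc ≤ Real.log m ^ k) →
      (r : ℝ) ≤ Real.log m → (∀ i, |ht (O i)| ≤ Real.log m ^ 2) →
      NUS4C.GD m (k + 5) κ e1 (ep / 2) m (2 * Real.log m ^ 2) ((1 - e1) * Tb (Real.log m))
        η η1 η η1
        (fun t => aCH η η1 m T1 b' g B1 H O true t * cfH cr G T1 x t)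
        (fun t => aCH η η1 m T1 b' g B1 H O false t * cfH cr G T1 x t) := by
  have hl3 : (3 : ℝ) / 8 < NUMF.l := by
    unfold NUMF.l
    have := Real.pi_gt_three
    linarith
  obtain ⟨m1, HH⟩ := gd_DDA (κ := κ) (δ := 1 / 4) hep hep1 he (by linarith) hκ
    (by linarith) G k (by omega)
  obtain ⟨m2, H2⟩ := exists_geoC hκ
  have h4 := (Real.tendsto_log_atTop.comp tendsto_natCast_atTop_atTop).eventually_ge_atTop
    (3 * (G : ℝ) + 5)
  obtain ⟨m3, hm3⟩ := Filter.eventually_atTop.1 h4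
  refine ⟨max (max m1 m2) m3, fun m hm η η1 b' hb' T1 x g B1 H H' B0 N0 th hH cr hcr r O hT1 hg
    hcm hc0 hI hr hht => ?_⟩
  have k1 : m1 ≤ m := (le_max_left _ _).trans ((le_max_left _ _).trans hm)
  have k2 : m2 ≤ m := (le_max_right _ _).trans ((le_max_left _ _).trans hm)
  have k3 : m3 ≤ m := (le_max_right _ _).trans hm
  obtain ⟨dl, ε, Mc, e, hI1, hε, hMc⟩ := hI
  obtain ⟨Cκ, hG⟩ := H2 m k2 O hI1 hε
  have hG0 : (0 : ℝ) ≤ G := Nat.cast_nonneg G
  have hLG : 3 * (G : ℝ) + 5 ≤ Real.log m := hm3 m k3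
  have hL : 5 ≤ Real.log m := by linarith
  have hmp : (0 : ℝ) ≤ m := Nat.cast_nonneg m
  have hTb : Tb (Real.log m) = 3 / 8 * Real.log m := rfl
  have hTW : TW ep e1 m = (1 + 2 * e1 + 2 * ep) * (3 / 8 * Real.log m) := rfl
  have hbT : (1 - e1) * Tb (Real.log m) ≤ T1 := by
    refine le_trans ?_ hT1
    rw [hTW, hTb]
    refine mul_le_mul_of_nonneg_right (by linarith) (by linarith)
  have hT10 : 0 ≤ T1 := by
    refine le_trans ?_ hbT
    rw [hTb]
    have : 0 ≤ 1 - e1 := by linarith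
    have : 0 ≤ Real.log m := by linarith
    positivity
  obtain ⟨Ec, hEc, hcE⟩ := hcr
  have hHc : ∀ a, Continuous (H a) := fun a =>
    continuous_iff_continuousAt.2 fun t => (hH.d a t).continuousAt
  have hη5 : ∀ t, |η t| < NUMF.l / 5 := fun t => by
    obtain ⟨h1, -⟩ := hI1.cur.O4
    have h2 := hI1.ε1
    have h3 : |η t| ≤ ε := h1 t
    unfold NUMF.l
    linarith [Real.pi_gt_d2]
  have hram : ∀ a, Measurable (raH η T1 b' g H a) := by
    intro a
    have hd : Continuous (BF T1 g η a) := continuous_iff_continuousAt.2 fun t =>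
      (hasDerivAt_BF g T1 a (hη5 t) (hI1.der t)).continuousAt
    exact ((hd.add (hHc a)).sub continuous_const).measurable
  have key : ∀ a t, |t| ≤ (1 - e1) * Tb (Real.log m) →
      aCH η η1 m T1 b' g B1 H O a t * cfH cr G T1 x t =
      Real.exp (m * (NUSea.vc (NUAct.zt (NUKer.iD η) t)).re +
        (FO (NUSea.O.par0 m) O a (NUAct.zt (NUKer.iD η) t) +
          NUSp.DD pE qE (List.ofFn fun i => (g i).G) a (NUAct.zt (NUKer.iD η) t)).re +
        ((H a t + Ec t) + (-(cstF T1 g a) + -(b' / 2)))) := by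
    intro a t ht
    have hz : NUAct.zt (NUKer.iD η) t = (t : ℂ) + (η t : ℂ) * Complex.I := rfl
    have h1 := fam_in g (T := T1) (η := η) pE qE a (ht.trans hbT)
    have h2 : aCH η η1 m T1 b' g B1 H O a t = Real.exp (m * (NUSea.vc (NUAct.zt (NUKer.iD η) t)).re +
        (FO (NUSea.O.par0 m) O a (NUAct.zt (NUKer.iD η) t) +
          NUSp.DD pE qE (List.ofFn fun i => (gP T1 g i).G) a (NUAct.zt (NUKer.iD η) t)).re +
          raH η T1 b' g H a t) := rfl
    have h3 : cfH cr G T1 x t = Real.exp (Ec t) := by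
      unfold cfH
      rw [hfar_in (ht.trans hbT), mul_one, hcE t ht]
    have h4 : raH η T1 b' g H a t = BF T1 g η a t + H a t - b' / 2 := rfl
    have h5 : (fun i => (gP T1 g i).G) = fun i => ((g i).pin T1).G := rfl
    rw [h2, h3, ← Real.exp_add, h4]
    congr 1
    rw [Complex.add_re, Complex.add_re, hz, h1, h5]
    ring
  have hTb0 : (1 - e1) * Tb (Real.log m) + 3 ≤ 2 * Real.log m ^ 2 := by
    rw [hTb]
    nlinarith
  refine HH m k1 m (2 * Real.log m ^ 2) (NUSea.O.par0 m) η η1 pE qE (List.ofFn fun i => (g i).G)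
    (fun a t => (H a t + Ec t) + (-(cstF T1 g a) + -(b' / 2))) r O _ _ (by linarith) (by linarith)
    hI1.pg (by nlinarith) le_rfl hTb0 ⟨ε, Mc, e, hI1.cur, hε, hMc⟩ hI1.der
    (away_p pE_re) (away_q qE_re) pE_im qE_im (by rw [List.length_ofFn]) ?_ ?_ hr hht
    (fun t => mul_nonneg (Real.exp_pos _).le (hc0 t)) (fun t => mul_nonneg (Real.exp_pos _).le (hc0 t))
    ((aR_meas hG (hram true)).mul hcm) ((aR_meas hG (hram false)).mul hcm) (key true) (key false)
  · intro G' hG'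
    rw [List.mem_ofFn] at hG'
    obtain ⟨i, rfl⟩ := hG'
    exact ⟨NUSp.gn_grp _ _ _, (g i).τ, hg i, (g i).ok⟩
  · intro a
    have h1 : NUR2.Ext 4 ((1 - e1) * Tb (Real.log m)) (3 * G * Real.log m ^ 2 + 1)
        (fun _ => -(cstF T1 g a) + -(b' / 2)) := by
      refine NUR2.Ext.of_O (NUOC.O.const 4 ?_)
      refine (abs_add_le _ _).trans (add_le_add ?_ ?_)
      · rw [abs_neg]
        exact cstF_le g hT10 hg a
      · rw [abs_neg, abs_div, abs_two]
        linarith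
    refine (((hH.ext a).add hEc).add h1).mono ?_
    have h3 : Real.log m ^ 4 ≤ Real.log m ^ k := pow_le_pow_right₀ (by linarith) hk
    have h5 : Real.log m ^ 4 = Real.log m ^ 3 * Real.log m := by ring
    have h6 : Real.log m ^ 3 = Real.log m ^ 2 * Real.log m := by ring
    have h7 : (25 : ℝ) ≤ Real.log m ^ 2 := by nlinarith
    have h8 : 3 * G * Real.log m ^ 2 ≤ Real.log m ^ 3 := by
      rw [h6, mul_comm (Real.log m ^ 2)]
      exact mul_le_mul_of_nonneg_right (by linarith) (by positivity)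
    have h9 : 1 ≤ Real.log m ^ 3 := one_le_pow₀ (by linarith)
    nlinarith

end

end PotH
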