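import Pool.Agent.PotH.ShlH
import Pool.Agent.PotH.Gd
import Pool.Agent.NUGC.GdC

/-!
# TARGET-C with a real potential: the data

**`datGH : DatGH`**: the data `inH` of every configuration satisfy the hypotheses of the gas bounds.
-/

set_option autoImplicit false
set_option linter.unusedSectionVars false

open MeasureTheory Set Filter Topology

namespace PotH

open NUO (Xo ht Par Tb TW excS chgO)
open NUSea.H0
open NUGC (pE qE CcF SC chG gP muS tauS FamOk pE_re pE_im qE_re qE_im exists_geoC parG_C)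

noncomputable section

variable [NUSea.Sea]

/-- **the data of every configuration, with a potential** -/
theorem datGH : DatGH := by
  intro G
  obtain ⟨W, hW, HS⟩ := exists_shlH G
  refine ⟨W, by linarith, fun ep hep hep1 e1 he he1 Cc C0 hCc hC0 B0 N0 hB0 hN0 => ?_⟩
  obtain ⟨C, hC, mS, -, HS⟩ := HS ep hep hep1 e1 he he1 C0 hC0
  obtain ⟨k, κ, CB, hκ, hCB, HD⟩ := exists_datFxH G (W := W) (C := C) (by linarith) (by linarith)
    he he1 hCc hB0 hN0
  obtain ⟨mG, HG⟩ := exists_geoC hκ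
  obtain ⟨mD, HGD⟩ := exists_gdH hep hep1 he he1 hκ G (k + 4) (by omega)
  refine ⟨k + 9, κ, CB, ep / 2, C, hκ, hCB, by linarith, by linarith, by linarith, fun ϑ hϑ => ?_⟩
  obtain ⟨d, hd, mF, HD⟩ := HD ϑ hϑ
  have h4 := (Real.tendsto_log_atTop.comp tendsto_natCast_atTop_atTop).eventually_ge_atTop (1 : ℝ)
  obtain ⟨m3, hm3⟩ := Filter.eventually_atTop.1 h4
  refine ⟨min d 1, lt_min hd one_pos, max (max mS mG) (max mD (max mF m3)),
    fun m hm η η1 hcv cr Bc Bc' hcut b' hb T1 x g hT1 hF => ?_⟩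
  have k1 : mS ≤ m := (le_max_left _ _).trans ((le_max_left _ _).trans hm)
  have k2 : mG ≤ m := (le_max_right _ _).trans ((le_max_left _ _).trans hm)
  have k3 : mD ≤ m := (le_max_left _ _).trans ((le_max_right _ _).trans hm)
  have k4 : mF ≤ m := (le_max_left _ _).trans ((le_max_right _ _).trans
    ((le_max_right _ _).trans hm))
  have k5 : m3 ≤ m := (le_max_right _ _).trans ((le_max_right _ _).trans
    ((le_max_right _ _).trans hm))
  have hL : 1 ≤ Real.log m := hm3 m k5
  have hpow : ∀ i j : ℕ, i ≤ j → Real.log m ^ i ≤ Real.log m ^ j := fun i j hij =>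
    pow_le_pow_right₀ hL hij
  obtain ⟨hTW, HS⟩ := HS m k1
  obtain ⟨B, B', b1, b2, b3, b4, b5, b7, b8, b9, b10, HS⟩ := HS T1 hT1 _ cr Bc Bc' hcut
  refine ⟨B, b1, b4, b5, b7, b8,
    fun H H' hH nX nY hnX hnY hn r hr O hX hY hO => ?_⟩
  have hH' : HOk B0 N0 d ((1 - e1) * Tb (Real.log m)) (Real.log m ^ 3) H H' :=
    { d := hH.d
      c := hH.c
      le := hH.le
      en := fun a T hT => (hH.en a T hT).trans
        (by have := mul_le_mul_of_nonneg_right (min_le_left d 1) hT; linarith)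
      ext := hH.ext }
  obtain ⟨f1, f2, f3, f4, f5, f6⟩ := HD m k4 η η1 hcv b' (hb.trans (min_le_left _ _)) T1 g
    (hTW.trans hT1) B B' b2 b3 b4 b5 b9 b10 H H' _ _ hH'
  obtain ⟨dl, ε, Mc, e, hI, hε, hMc, hdl⟩ := f1 r
  obtain ⟨Cκ, hG⟩ := HG m k2 O hI hε
  have hS := HS η η1 hcv.d (fun t => (hcv.le t).trans (by norm_num)) x g hF b' H H' hH.d
    (NUSea.O.par0 m) r O Cκ hG
  refine ⟨DH ep e1 m G x, ?_, (DH_eq _ _ _ _ _).le, fun hg hr hht => ?_⟩
  · have hm0 : (0 : ℝ) ≤ m := Nat.cast_nonneg m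
    exact
      { s1 := by show (m : ℝ) / 2 ≤ m; linarith
        s2 := by show (m : ℝ) ≤ 2 * m; linarith
        pk := by
          have : nX - chgO O true ≤ 8 * m := (Nat.sub_le _ _).trans hnX
          exact_mod_cast this
        nk := by
          have : nY - chgO O false ≤ 8 * m := (Nat.sub_le _ _).trans hnY
          exact_mod_cast this
        rk := by exact_mod_cast hr
        par := parG_C m
        ok := ⟨dl, ε, Mc, e, hI, hε, hMc.trans (hpow _ _ (by omega)), hdl⟩
        fld := f2 nX nY hn r O hX hY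
        shl := hS
        q1 := le_rfl
        tw := hO
        DS := DH_le _ _ _ _ x hT1
        gs := f3
        ν0 := fun a t => (f4 a t).trans (mul_le_mul_of_nonneg_left
          (le_add_of_nonneg_right (NUH0.plt_nonneg _ _)) hCB)
        w0 := f5
        w1 := f6 }
  · exact HGD m k3 η η1 b' (hb.trans (min_le_right _ _)) T1 x g B H H' B0 N0 d hH' cr hcut.ext r O
      hT1 hg hS.mc hS.c0 ⟨dl, ε, Mc, e, hI, hε, hMc.trans (hpow _ _ (by omega))⟩
      (by have : (0 : ℝ) ≤ G := Nat.cast_nonneg G; linarith) hht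

end

end PotH
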