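import Pool.Agent.NUGC.CuOkC

/-!
# The current with apex `ts`

`tentT D ts`: the smoothed tent of half width `D` with apex `ts`, slopes `aC (1 ∓ ts / D)`;
`hT e1 J m ts = tentT (DC e1 m) ts + cur e1 T J`, `T = Tb (log m)`; `etaT e1 J m ts s = hT / (s P)`.
For `|ts| ≤ T / 2`, uniformly in `ts`:

* `hT_*`: smoothness, support, values, derivatives; `hT_top`: largest at `ts` up to `2`;
* `energyT`: `kap0 ∫ h'² - 12 l h(ts) ≤ -((1 - 2 e1) T - ts² / T) + C (1 + J)²`;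
* `exists_curT`, `curOKT`: the displacement is admissible;
* `CuOkT`, `cuOkT`, `lin_curT`: the facts for the exponent inequality, legs at height `ts`.

For `ts = 0` this is the current of TARGET-C (`hT_zero_top`).
-/

set_option autoImplicit false
set_option linter.unusedSectionVars false

open MeasureTheory Set Filter Topology

namespace PotH

open NUO NUCR NUGC

noncomputable section

/-! ### The tent -/

/-- **the smoothed tent with apex `ts`** -/
def tentT (D ts : ℝ) : ℝ → ℝ := j3 D ts (aC * (1 - ts / D)) (aC * (1 + ts / D))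

/-- its derivative -/
def tentT' (D ts : ℝ) : ℝ → ℝ := d3 D ts (aC * (1 - ts / D)) (aC * (1 + ts / D))

theorem tentT_zero (D : ℝ) : tentT D 0 = tent D aC := by
  unfold tentT tent
  simp

variable {D ts : ℝ}

theorem tentT_deriv (D ts t : ℝ) : HasDerivAt (tentT D ts) (tentT' D ts t) t := j3_deriv _ _ _ _ t

theorem tentT'_cont (D ts : ℝ) : Continuous (tentT' D ts) := d3_cont _ _ _ _

theorem ts_mem (h : |ts| ≤ 9 / 16 * D) : -D ≤ ts ∧ ts ≤ D := by
  have h1 := abs_le.1 h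
  have h2 : 0 ≤ D := by linarith [abs_nonneg ts]
  constructor <;> linarith [h1.1, h1.2]

theorem x_mem (hD : 0 < D) (h : |ts| ≤ 9 / 16 * D) : |ts / D| ≤ 9 / 16 := by
  rw [abs_div, abs_of_pos hD, div_le_iff₀ hD]
  exact h

theorem l3T_left (h : |ts| ≤ 9 / 16 * D) {t : ℝ} (h1 : -D ≤ t) (h2 : t ≤ ts) :
    l3 D ts (aC * (1 - ts / D)) (aC * (1 + ts / D)) t = aC * (1 - ts / D) * (D + t) := by
  have h3 := ts_mem h
  unfold l3
  rw [max_eq_left (by linarith), max_eq_right (by linarith), max_eq_right (by linarith [h3.2])]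
  ring

theorem l3T_right (hD : 0 < D) (h : |ts| ≤ 9 / 16 * D) {t : ℝ} (h1 : ts ≤ t) (h2 : t ≤ D) :
    l3 D ts (aC * (1 - ts / D)) (aC * (1 + ts / D)) t = aC * (1 + ts / D) * (D - t) := by
  have h3 := ts_mem h
  unfold l3
  rw [max_eq_left (by linarith [h3.1]), max_eq_left (by linarith), max_eq_right (by linarith)]
  field_simp
  ring

theorem l3T_out (hD : 0 < D) (h : |ts| ≤ 9 / 16 * D) {t : ℝ} (h1 : D ≤ |t|) :
    l3 D ts (aC * (1 - ts / D)) (aC * (1 + ts / D)) t = 0 := by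
  have h3 := ts_mem h
  rcases le_abs.1 h1 with h1 | h1
  · unfold l3
    rw [max_eq_left (by linarith), max_eq_left (by linarith [h3.2]), max_eq_left (by linarith)]
    field_simp
    ring
  · unfold l3
    rw [max_eq_right (by linarith), max_eq_right (by linarith [h3.1]), max_eq_right (by linarith)]
    ring

/-- upper and lower bounds of the piecewise linear tent -/
theorem l3T_bd (hD : 0 < D) (h : |ts| ≤ 9 / 16 * D) (t : ℝ) :
    (0 ≤ l3 D ts (aC * (1 - ts / D)) (aC * (1 + ts / D)) t ∧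
      l3 D ts (aC * (1 - ts / D)) (aC * (1 + ts / D)) t ≤ aC * (D - ts ^ 2 / D)) ∧
    aC * (1 - |ts| / D) * (D - |t|) ≤ l3 D ts (aC * (1 - ts / D)) (aC * (1 + ts / D)) t := by
  have ha := aC_pos
  have h3 := ts_mem h
  have hx := abs_le.1 (x_mem hD h)
  have e0 : |ts| / D = |ts / D| := by rw [abs_div, abs_of_pos hD]
  have x1 := le_abs_self (ts / D)
  have x2 := neg_abs_le (ts / D)
  have x3 := x_mem hD h
  have e1 : aC * (D - ts ^ 2 / D) = aC * (1 - ts / D) * (D + ts) := by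
    field_simp
    ring
  have e2 : aC * (D - ts ^ 2 / D) = aC * (1 + ts / D) * (D - ts) := by
    field_simp
    ring
  rw [e0]
  have t1 := le_abs_self t
  have t2 := neg_abs_le t
  rcases le_total D |t| with h4 | h4
  · rw [l3T_out hD h h4]
    refine ⟨⟨le_rfl, ?_⟩, ?_⟩
    · rw [e1]
      have : 0 ≤ 1 - ts / D := by linarith [hx.2]
      have : 0 ≤ D + ts := by linarith [h3.1]
      positivity
    · refine mul_nonpos_of_nonneg_of_nonpos (mul_nonneg ha.le (by linarith)) (by linarith)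
  · rcases le_total t ts with h5 | h5
    · rw [l3T_left h (by linarith) h5]
      have k1 : 0 ≤ aC * (1 - ts / D) := mul_nonneg ha.le (by linarith [hx.2])
      refine ⟨⟨mul_nonneg k1 (by linarith), ?_⟩, ?_⟩
      · rw [e1]
        exact mul_le_mul_of_nonneg_left (by linarith) k1
      · exact mul_le_mul (mul_le_mul_of_nonneg_left (by linarith) ha.le) (by linarith)
          (by linarith) k1
    · rw [l3T_right hD h h5 (by linarith)]
      have k1 : 0 ≤ aC * (1 + ts / D) := mul_nonneg ha.le (by linarith [hx.1])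
      refine ⟨⟨mul_nonneg k1 (by linarith), ?_⟩, ?_⟩
      · rw [e2]
        exact mul_le_mul_of_nonneg_left (by linarith) k1
      · exact mul_le_mul (mul_le_mul_of_nonneg_left (by linarith) ha.le) (by linarith)
          (by linarith) k1

/-- the slopes -/
theorem slopeT (hD : 0 < D) (h : |ts| ≤ 9 / 16 * D) :
    |aC * (1 - ts / D)| + |aC * (1 + ts / D)| = 2 * aC := by
  have ha := aC_pos
  have hx := abs_le.1 (x_mem hD h)
  rw [abs_of_nonneg (mul_nonneg ha.le (by linarith [hx.2])),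
    abs_of_nonneg (mul_nonneg ha.le (by linarith [hx.1]))]
  ring

theorem tentT_bd (hD : 0 < D) (h : |ts| ≤ 9 / 16 * D) (t : ℝ) :
    0 ≤ tentT D ts t ∧ tentT D ts t ≤ aC * (D - ts ^ 2 / D) :=
  j3_mem (fun t => (l3T_bd hD h t).1) t

/-- lower bound of the tent -/
theorem tentT_ge (hD : 0 < D) (h : |ts| ≤ 9 / 16 * D) (t : ℝ) :
    aC * (1 - |ts| / D) * (D - |t|) - 4 * aC ≤ tentT D ts t := by
  have h1 := j3_sub D ts (aC * (1 - ts / D)) (aC * (1 + ts / D)) t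
  rw [slopeT hD h, abs_le] at h1
  have h2 := (l3T_bd hD h t).2
  unfold tentT
  linarith [h1.1]

/-- the value at the apex -/
theorem tentT_apex (hD : 0 < D) (h : |ts| ≤ 9 / 16 * D) :
    aC * (D - ts ^ 2 / D) - 4 * aC ≤ tentT D ts ts := by
  have h1 := j3_sub D ts (aC * (1 - ts / D)) (aC * (1 + ts / D)) ts
  rw [slopeT hD h, abs_le, l3T_left h (ts_mem h).1 le_rfl] at h1
  have e1 : aC * (D - ts ^ 2 / D) = aC * (1 - ts / D) * (D + ts) := by
    field_simp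
    ring
  rw [e1]
  unfold tentT
  linarith [h1.1]

theorem tentT_out (hD : 0 < D) (h : |ts| ≤ 9 / 16 * D) {t : ℝ} (ht : D + 1 ≤ |t|) :
    tentT D ts t = 0 := by
  have h3 := ts_mem h
  rcases le_abs.1 ht with h1 | h1
  · unfold tentT
    rw [j3_right h3.1 h3.2 h1]
    field_simp
    ring
  · unfold tentT
    rw [j3_left h3.1 h3.2 (by linarith)]

theorem tentT_cs (hD : 0 < D) (h : |ts| ≤ 9 / 16 * D) : HasCompactSupport (tentT D ts) := by
  apply HasCompactSupport.of_support_subset_isCompact (isCompact_Icc (a := -(D + 1)) (b := D + 1))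
  intro t ht
  rw [Function.mem_support] at ht
  rw [mem_Icc, ← abs_le]
  by_contra h1
  exact ht (tentT_out hD h (by linarith))

theorem tentT'_cs (h : |ts| ≤ 9 / 16 * D) : HasCompactSupport (tentT' D ts) :=
  d3_support (ts_mem h).1 (ts_mem h).2

/-- the slope is at most `25/16 aC` -/
theorem tentT'_abs (hD : 0 < D) (h : |ts| ≤ 9 / 16 * D) (t : ℝ) : |tentT' D ts t| ≤ 25 / 16 * aC := by
  have ha := aC_pos
  have h3 := ts_mem h
  have hx := abs_le.1 (x_mem hD h)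
  have m1 := Ph_mono (show t - ts ≤ t + D by linarith [h3.1])
  have m2 := Ph_mono (show t - D ≤ t - ts by linarith [h3.2])
  have m3 := Ph_le_one (t + D)
  have m4 := Ph_nonneg (t - D)
  have e : tentT' D ts t = aC * ((1 - ts / D) * (NUCR.Ph (t + D) - NUCR.Ph (t - ts)) -
      (1 + ts / D) * (NUCR.Ph (t - ts) - NUCR.Ph (t - D))) := by
    unfold tentT' d3
    ring
  rw [e, abs_mul, abs_of_pos ha, mul_comm (25 / 16 : ℝ) aC]
  refine mul_le_mul_of_nonneg_left ?_ ha.le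
  obtain ⟨X, hX⟩ : ∃ X, X = NUCR.Ph (t + D) - NUCR.Ph (t - ts) := ⟨_, rfl⟩
  obtain ⟨Y, hY⟩ : ∃ Y, Y = NUCR.Ph (t - ts) - NUCR.Ph (t - D) := ⟨_, rfl⟩
  rw [← hX, ← hY]
  have X0 : 0 ≤ X := by rw [hX]; linarith
  have Y0 : 0 ≤ Y := by rw [hY]; linarith
  have XY : X + Y ≤ 1 := by rw [hX, hY]; linarith
  rw [abs_le]
  have q1 : 0 ≤ (1 - ts / D) * X := mul_nonneg (by linarith [hx.2]) X0
  have q2 : 0 ≤ (1 + ts / D) * Y := mul_nonneg (by linarith [hx.1]) Y0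
  have q3 : (1 - ts / D) * X ≤ 25 / 16 * X := mul_le_mul_of_nonneg_right (by linarith [hx.1]) X0
  have q4 : (1 + ts / D) * Y ≤ 25 / 16 * Y := mul_le_mul_of_nonneg_right (by linarith [hx.2]) Y0
  constructor <;> linarith

theorem tentT_energy (hD : 0 < D) (h : |ts| ≤ 9 / 16 * D) :
    ∫ t, tentT' D ts t ^ 2 ≤ 2 * aC ^ 2 * (D - ts ^ 2 / D) := by
  have h1 := d3_energy (a := aC * (1 - ts / D)) (c := aC * (1 + ts / D)) (ts_mem h).1 (ts_mem h).2
  refine h1.trans (le_of_eq ?_)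
  field_simp
  ring

/-- energy of the tent: `kap0 ∫ h'² - 12 l h(ts) ≤ -(D - ts² / D) + 8` -/
theorem tentT_main (hD : 0 < D) (h : |ts| ≤ 9 / 16 * D) :
    9 * Real.pi ^ 2 / 32 * (∫ t, tentT' D ts t ^ 2) - 12 * (Real.pi / 8) * tentT D ts ts ≤
      -(D - ts ^ 2 / D) + 8 := by
  have h1 := tentT_energy hD h
  have h2 := tentT_apex hD h
  have hp := Real.pi_pos
  obtain ⟨y, hy⟩ : ∃ y, y = D - ts ^ 2 / D := ⟨_, rfl⟩
  rw [← hy] at h1 h2 ⊢
  have h3 : 9 * Real.pi ^ 2 / 32 * (∫ t, tentT' D ts t ^ 2) ≤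
      9 * Real.pi ^ 2 / 32 * (2 * aC ^ 2 * y) := mul_le_mul_of_nonneg_left h1 (by positivity)
  have h4 : 12 * (Real.pi / 8) * (aC * y - 4 * aC) ≤ 12 * (Real.pi / 8) * tentT D ts ts :=
    mul_le_mul_of_nonneg_left h2 (by positivity)
  have e1 : 9 * Real.pi ^ 2 / 32 * (2 * aC ^ 2 * y) = y := by
    unfold aC; field_simp; ring
  have e2 : 12 * (Real.pi / 8) * (aC * y - 4 * aC) = 2 * y - 8 := by
    unfold aC; field_simp; ring
  linarith

theorem tentT_smooth (D ts : ℝ) (n : ℕ) : ContDiff ℝ n (tentT D ts) := j3_smooth _ _ _ _ n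

/-! ### The current -/

variable {e1 J : ℝ} {m : ℕ}

theorem DC_pos (he1 : e1 ≤ 1 / 100) (hTb : 20 ≤ Tb (Real.log m)) :
    (89 / 100) * Tb (Real.log m) ≤ DC e1 m ∧ 2 ≤ DC e1 m := by
  have h1 : e1 * Tb (Real.log m) ≤ 1 / 100 * Tb (Real.log m) :=
    mul_le_mul_of_nonneg_right he1 (by linarith)
  unfold DC
  constructor <;> linarith

/-- the apex is admissible -/
theorem ts_le (he1 : e1 ≤ 1 / 100) (hTb : 20 ≤ Tb (Real.log m))
    (hts : |ts| ≤ 1 / 2 * Tb (Real.log m)) : |ts| ≤ 9 / 16 * DC e1 m := by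
  have h1 := (DC_pos he1 hTb).1
  linarith

/-- **the current with apex `ts`** -/
def hT (e1 J : ℝ) (m : ℕ) (ts t : ℝ) : ℝ :=
  tentT (DC e1 m) ts t + NUCUR.cur e1 (Tb (Real.log m)) J t

theorem hT_zero_top (e1 J : ℝ) (m : ℕ) : hT e1 J m 0 = hC e1 J m := by
  funext t
  unfold hT hC
  rw [tentT_zero]

theorem hT_contDiff (e1 J : ℝ) (m : ℕ) (ts : ℝ) (n : ℕ) : ContDiff ℝ n (hT e1 J m ts) :=
  (tentT_smooth _ _ n).add (NUCUR.cur_contDiff (n := (n : ℕ∞)))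

theorem hT_cont (e1 J : ℝ) (m : ℕ) (ts : ℝ) : Continuous (hT e1 J m ts) :=
  (hT_contDiff e1 J m ts 1).continuous

theorem hT_deriv (e1 J : ℝ) (m : ℕ) (ts t : ℝ) :
    HasDerivAt (hT e1 J m ts) (deriv (hT e1 J m ts) t) t :=
  (((hT_contDiff e1 J m ts 1).differentiable (by simp)) t).hasDerivAt

theorem deriv_hT (e1 J : ℝ) (m : ℕ) (ts : ℝ) : deriv (hT e1 J m ts) =
    fun t => tentT' (DC e1 m) ts t + deriv (NUCUR.cur e1 (Tb (Real.log m)) J) t := by
  funext t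
  have h1 : HasDerivAt (NUCUR.cur e1 (Tb (Real.log m)) J)
      (deriv (NUCUR.cur e1 (Tb (Real.log m)) J) t) t :=
    (((NUCUR.cur_contDiff (n := (1 : ℕ∞))).differentiable (by simp)) t).hasDerivAt
  exact ((tentT_deriv _ _ t).add h1).deriv

theorem hT_nonneg (he1 : e1 ≤ 1 / 100) (hJ : 0 ≤ J) (hTb : 20 ≤ Tb (Real.log m))
    (hts : |ts| ≤ 1 / 2 * Tb (Real.log m)) (t : ℝ) : 0 ≤ hT e1 J m ts t :=
  add_nonneg (tentT_bd (by linarith [(DC_pos he1 hTb).2]) (ts_le he1 hTb hts) t).1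
    (NUCUR.cur_nonneg hJ t)

/-- the current is at least the current of TARGET-A -/
theorem hT_cur_le (he1 : e1 ≤ 1 / 100) (hTb : 20 ≤ Tb (Real.log m))
    (hts : |ts| ≤ 1 / 2 * Tb (Real.log m)) (t : ℝ) :
    NUCUR.cur e1 (Tb (Real.log m)) J t ≤ hT e1 J m ts t := by
  have h1 := (tentT_bd (by linarith [(DC_pos he1 hTb).2]) (ts_le he1 hTb hts) t).1
  unfold hT
  linarith

theorem hT_eq (he : 0 < e1) (hTb : 20 ≤ Tb (Real.log m)) {t : ℝ}
    (ht : |t| ≤ (1 - 2 * e1) * Tb (Real.log m)) :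
    hT e1 J m ts t = tentT (DC e1 m) ts t + J := by
  unfold hT
  rw [NUCUR.cur_eq he (by linarith) ht]

theorem hT_ge (he : 0 < e1) (he1 : e1 ≤ 1 / 100) (hTb : 20 ≤ Tb (Real.log m))
    (hts : |ts| ≤ 1 / 2 * Tb (Real.log m)) {t : ℝ}
    (ht : |t| ≤ (1 - 2 * e1) * Tb (Real.log m)) : J ≤ hT e1 J m ts t := by
  have h1 := hT_cur_le (J := J) he1 hTb hts t
  rwa [NUCUR.cur_eq he (by linarith) ht] at h1

/-- support -/
theorem hT_zero (he : 0 < e1) (he1 : e1 ≤ 1 / 100) (hTb : 20 ≤ Tb (Real.log m))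
    (hts : |ts| ≤ 1 / 2 * Tb (Real.log m)) {t : ℝ}
    (ht : (1 - e1) * Tb (Real.log m) ≤ |t|) : hT e1 J m ts t = 0 := by
  unfold hT
  rw [tentT_out (by linarith [(DC_pos he1 hTb).2]) (ts_le he1 hTb hts) (by unfold DC; linarith),
    NUCUR.cur_zero he (by linarith) ht, add_zero]

theorem hT_cs (he : 0 < e1) (he1 : e1 ≤ 1 / 100) (hTb : 20 ≤ Tb (Real.log m))
    (hts : |ts| ≤ 1 / 2 * Tb (Real.log m)) : HasCompactSupport (hT e1 J m ts) :=
  (tentT_cs (by linarith [(DC_pos he1 hTb).2]) (ts_le he1 hTb hts)).add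
    (NUCUR.cur_supp he (by linarith))

theorem hT_zero' (he : 0 < e1) (he1 : e1 ≤ 1 / 100) (hTb : 20 ≤ Tb (Real.log m))
    (hts : |ts| ≤ 1 / 2 * Tb (Real.log m)) {t : ℝ}
    (ht : (1 - e1) * Tb (Real.log m) < |t|) : deriv (hT e1 J m ts) t = 0 := by
  have h := NUCUR.iter_zero_out (f := hT e1 J m ts) (fun t ht => hT_zero he he1 hTb hts ht) 1 t ht
  rwa [iteratedDeriv_one] at h

/-- the apex is on the plateau -/
theorem ts_plateau (he1 : e1 ≤ 1 / 100) (hTb : 20 ≤ Tb (Real.log m))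
    (hts : |ts| ≤ 1 / 2 * Tb (Real.log m)) : |ts| ≤ (1 - 2 * e1) * Tb (Real.log m) := by
  have h1 : e1 * Tb (Real.log m) ≤ 1 / 100 * Tb (Real.log m) :=
    mul_le_mul_of_nonneg_right he1 (by linarith)
  linarith

/-- **the value at the apex is the largest one up to `2`** -/
theorem hT_top (he : 0 < e1) (he1 : e1 ≤ 1 / 100) (hJ : 0 ≤ J) (hTb : 20 ≤ Tb (Real.log m))
    (hts : |ts| ≤ 1 / 2 * Tb (Real.log m)) (t : ℝ) : hT e1 J m ts t ≤ hT e1 J m ts ts + 2 := by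
  have hD : 0 < DC e1 m := by linarith [(DC_pos he1 hTb).2]
  have h1 := (tentT_bd hD (ts_le he1 hTb hts) t).2
  have h2 := tentT_apex hD (ts_le he1 hTb hts)
  have h3 := NUCUR.cur_le (e := e1) (T := Tb (Real.log m)) hJ t
  have h4 := aC_le
  rw [hT_eq he hTb (ts_plateau he1 hTb hts)]
  unfold hT
  linarith

/-- upper bound of the current -/
theorem hT_le (he : 0 < e1) (he1 : e1 ≤ 1 / 100) (hJ : 0 ≤ J) (hTb : 20 ≤ Tb (Real.log m))
    (hts : |ts| ≤ 1 / 2 * Tb (Real.log m)) (t : ℝ) :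
    hT e1 J m ts t ≤ 1 / 2 * Tb (Real.log m) + J := by
  have hD : 0 < DC e1 m := by linarith [(DC_pos he1 hTb).2]
  have h1 := (tentT_bd hD (ts_le he1 hTb hts) t).2
  have h2 := NUCUR.cur_le (e := e1) (T := Tb (Real.log m)) hJ t
  have h3 : aC * (DC e1 m - ts ^ 2 / DC e1 m) ≤ 1 / 2 * Tb (Real.log m) := by
    have h5 : DC e1 m - ts ^ 2 / DC e1 m ≤ Tb (Real.log m) := by
      have := DC_le (m := m) he.le
      have : 0 ≤ ts ^ 2 / DC e1 m := by positivity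
      linarith
    calc aC * (DC e1 m - ts ^ 2 / DC e1 m) ≤ aC * Tb (Real.log m) :=
          mul_le_mul_of_nonneg_left h5 aC_pos.le
      _ ≤ _ := mul_le_mul_of_nonneg_right aC_le (by linarith)
  unfold hT
  linarith

/-- lower bound on the plateau -/
theorem hT_low (he : 0 < e1) (he1 : e1 ≤ 1 / 100) (hTb : 20 ≤ Tb (Real.log m))
    (hts : |ts| ≤ 1 / 2 * Tb (Real.log m)) {t : ℝ}
    (ht : |t| ≤ (1 - 2 * e1) * Tb (Real.log m)) :
    aC * (1 - |ts| / DC e1 m) * (DC e1 m - |t|) - 2 + J ≤ hT e1 J m ts t := by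
  have hD : 0 < DC e1 m := by linarith [(DC_pos he1 hTb).2]
  have h1 := tentT_ge hD (ts_le he1 hTb hts) t
  have h4 := aC_le
  rw [hT_eq he hTb ht]
  linarith

/-- lower bound on the plateau, constants -/
theorem hT_low' (he : 0 < e1) (he1 : e1 ≤ 1 / 100) (hTb : 20 ≤ Tb (Real.log m))
    (hts : |ts| ≤ 1 / 2 * Tb (Real.log m)) {t : ℝ}
    (ht : |t| ≤ (1 - 2 * e1) * Tb (Real.log m)) :
    7 / 16 * aC * ((1 - e1) * Tb (Real.log m) - |t|) - 3 + J ≤ hT e1 J m ts t := by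
  have hD : 0 < DC e1 m := by linarith [(DC_pos he1 hTb).2]
  have h1 := hT_low (J := J) he he1 hTb hts ht
  have ha := aC_pos
  have h4 := aC_le
  have h5 : |ts| / DC e1 m ≤ 9 / 16 := by
    rw [div_le_iff₀ hD]
    exact ts_le he1 hTb hts
  have h6 : 7 / 16 * aC * (DC e1 m - |t|) ≤ aC * (1 - |ts| / DC e1 m) * (DC e1 m - |t|) ∨
      DC e1 m ≤ |t| := by
    rcases le_total |t| (DC e1 m) with h | h
    · left
      refine mul_le_mul_of_nonneg_right ?_ (by linarith)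
      nlinarith
    · exact Or.inr h
  have e0 : (1 - e1) * Tb (Real.log m) - |t| = DC e1 m - |t| + 2 := by
    unfold DC
    ring
  rw [e0]
  rcases h6 with h6 | h6
  · nlinarith
  · have h7 := hT_ge (J := J) he he1 hTb hts ht
    nlinarith

/-- derivatives of the current -/
theorem hT_iter (he : 0 < e1) : ∃ C : ℝ, 1 ≤ C ∧ ∀ J : ℝ, 0 ≤ J → ∀ m : ℕ, e1 ≤ 1 / 100 →
    20 ≤ Tb (Real.log m) → ∀ ts : ℝ, |ts| ≤ 1 / 2 * Tb (Real.log m) →
      (∀ k ≤ 4, ∀ t, |iteratedDeriv k (hT e1 J m ts) t| ≤ C * (1 + J) * Real.log m) ∧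
      (∀ k, 1 ≤ k → k ≤ 4 → ∀ t, |iteratedDeriv k (hT e1 J m ts) t| ≤ C * (1 + J)) := by
  obtain ⟨C1, hC1, H1⟩ := NUCUR.cur_bound4 he
  obtain ⟨C4, hC4, H4⟩ := j3_iter_le 4
  have ha := aC_pos
  have ha' := aC_le
  refine ⟨C1 + C4 + 1, by linarith, fun J hJ m he1 hTb ts hts => ?_⟩
  have hL : 1 ≤ Real.log m := by
    unfold Tb at hTb
    linarith
  have hD : 0 < DC e1 m := by linarith [(DC_pos he1 hTb).2]
  have key : ∀ k, 1 ≤ k → k ≤ 4 → ∀ t, |iteratedDeriv k (hT e1 J m ts) t| ≤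
      (C1 + C4 + 1) * (1 + J) := by
    intro k hk1 hk t
    have e : iteratedDeriv k (hT e1 J m ts) t = iteratedDeriv k (tentT (DC e1 m) ts) t +
        iteratedDeriv k (NUCUR.cur e1 (Tb (Real.log m)) J) t :=
      iteratedDeriv_add ((tentT_smooth _ _ k).contDiffAt)
        ((NUCUR.cur_contDiff (n := (k : ℕ∞))).contDiffAt)
    have h1 := H4 (DC e1 m) ts (aC * (1 - ts / DC e1 m)) (aC * (1 + ts / DC e1 m)) k hk1 hk t
    rw [slopeT hD (ts_le he1 hTb hts)] at h1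
    have h2 := H1 (Tb (Real.log m)) J (by linarith) hJ k hk t
    rw [e]
    refine (abs_add_le _ _).trans ?_
    have h3 : |iteratedDeriv k (tentT (DC e1 m) ts) t| ≤ C4 := by
      refine h1.trans ?_
      nlinarith
    nlinarith
  refine ⟨fun k hk t => ?_, key⟩
  rcases Nat.eq_zero_or_pos k with h0 | h0
  · subst h0
    rw [iteratedDeriv_zero, abs_of_nonneg (hT_nonneg he1 hJ hTb hts t)]
    have h1 := hT_le he he1 hJ hTb hts t
    have h2 : 1 / 2 * Tb (Real.log m) ≤ Real.log m := by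
      unfold Tb
      linarith
    have h3 : (1 + J) * Real.log m ≤ (C1 + C4 + 1) * (1 + J) * Real.log m := by
      rw [mul_assoc]
      refine le_mul_of_one_le_left (by positivity) (by linarith)
    have h4 : J ≤ J * Real.log m := le_mul_of_one_le_right hJ hL
    linarith
  · refine (key k h0 hk t).trans ?_
    refine le_mul_of_one_le_right (by positivity) hL

/-- slope of the current -/
theorem hT_slope (he : 0 < e1) : ∃ C : ℝ, 0 ≤ C ∧ ∀ J : ℝ, 0 ≤ J → ∀ m : ℕ, e1 ≤ 1 / 100 →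
    20 ≤ Tb (Real.log m) → ∀ ts : ℝ, |ts| ≤ 1 / 2 * Tb (Real.log m) →
      ∀ t, |deriv (hT e1 J m ts) t| ≤ 25 / 16 * aC + C * J / Tb (Real.log m) := by
  obtain ⟨C, hC, H⟩ := NUCUR.cur_bound (e := e1) he 1
  refine ⟨C, hC, fun J hJ m he1 hTb ts hts t => ?_⟩
  rw [deriv_hT]
  refine (abs_add_le _ _).trans ?_
  have h1 := tentT'_abs (by linarith [(DC_pos he1 hTb).2]) (ts_le he1 hTb hts) t
  have h2 := H (Tb (Real.log m)) J (by linarith) hJ t
  rw [iteratedDeriv_one, pow_one] at h2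
  exact add_le_add h1 h2

/-- Lipschitz bound of the current -/
theorem hT_lip (he : 0 < e1) : ∃ C : ℝ, 0 ≤ C ∧ ∀ J : ℝ, 0 ≤ J → ∀ m : ℕ, e1 ≤ 1 / 100 →
    20 ≤ Tb (Real.log m) → ∀ ts : ℝ, |ts| ≤ 1 / 2 * Tb (Real.log m) →
      ∀ t t', |hT e1 J m ts t - hT e1 J m ts t'| ≤
        (25 / 16 * aC + C * J / Tb (Real.log m)) * |t - t'| := by
  obtain ⟨C, hC0, H⟩ := hT_slope he
  refine ⟨C, hC0, fun J hJ m he1 hTb ts hts t t' => ?_⟩
  have h1 := Convex.norm_image_sub_le_of_norm_deriv_le (f := hT e1 J m ts)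
    (C := 25 / 16 * aC + C * J / Tb (Real.log m)) (s := univ) (x := t') (y := t)
    (fun u _ => (hT_deriv e1 J m ts u).differentiableAt)
    (fun u _ => H J hJ m he1 hTb ts hts u) convex_univ (mem_univ _) (mem_univ _)
  simpa [Real.norm_eq_abs] using h1

/-- **the slope is at most one for large `m`** -/
theorem slope_oneT (he : 0 < e1) (J : ℝ) (hJ : 0 ≤ J) : ∃ m0 : ℕ, ∀ m ≥ m0,
    e1 ≤ 1 / 100 → 20 ≤ Tb (Real.log m) → ∀ ts : ℝ, |ts| ≤ 1 / 2 * Tb (Real.log m) →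
      ∀ t t', |hT e1 J m ts t - hT e1 J m ts t'| ≤ |t - t'| := by
  obtain ⟨C, hC0, H⟩ := hT_lip he
  have h1 := (Real.tendsto_log_atTop.comp tendsto_natCast_atTop_atTop).eventually_ge_atTop
    (64 / 3 * (C * J))
  obtain ⟨m0, hm0⟩ := eventually_atTop.1 h1
  refine ⟨m0, fun m hm he1 hTb ts hts t t' => (H J hJ m he1 hTb ts hts t t').trans ?_⟩
  have a1 : 64 / 3 * (C * J) ≤ Real.log m := hm0 m hm
  have a2 : C * J / Tb (Real.log m) ≤ 1 / 8 := by
    rw [div_le_iff₀ (by linarith)]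
    unfold Tb
    linarith
  have a3 := aC_le
  calc (25 / 16 * aC + C * J / Tb (Real.log m)) * |t - t'| ≤ 1 * |t - t'| :=
        mul_le_mul_of_nonneg_right (by linarith) (abs_nonneg _)
    _ = |t - t'| := one_mul _

/-! ### The energy of the current -/

/-- `D - ts² / D` against `T - ts² / T` -/
theorem apex_num {T y e : ℝ} (hT : 20 ≤ T) (he : 0 < e) (he1 : e ≤ 1 / 100)
    (hy : |y| ≤ 1 / 2 * T) :
    -(((1 - e) * T - 2) - y ^ 2 / ((1 - e) * T - 2)) ≤ -((1 - 2 * e) * T - y ^ 2 / T) + 3 := by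
  have h1 : e * T ≤ 1 / 100 * T := mul_le_mul_of_nonneg_right he1 (by linarith)
  obtain ⟨D, hD⟩ : ∃ D, D = (1 - e) * T - 2 := ⟨_, rfl⟩
  have hD0 : 89 / 100 * T ≤ D := by rw [hD]; linarith
  have hDp : 0 < D := by linarith
  have hTp : 0 < T := by linarith
  rw [← hD]
  have h2 : y ^ 2 ≤ 1 / 4 * T ^ 2 := by
    have := pow_le_pow_left₀ (abs_nonneg y) hy 2
    rw [sq_abs] at this
    linarith
  have h3 : y ^ 2 / D - y ^ 2 / T ≤ e * T + 1 := by
    have e2 : y ^ 2 / D - y ^ 2 / T = y ^ 2 * (e * T + 2) / (D * T) := by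
      have : e * T + 2 = T - D := by rw [hD]; ring
      rw [this]
      field_simp
    rw [e2, div_le_iff₀ (by positivity)]
    have h4 : 0 ≤ e * T := by positivity
    have h5 : y ^ 2 * (e * T + 2) ≤ 1 / 4 * T ^ 2 * (e * T + 2) :=
      mul_le_mul_of_nonneg_right h2 (by linarith)
    have h6 : (e * T + 1) * (89 / 100 * T * T) ≤ (e * T + 1) * (D * T) :=
      mul_le_mul_of_nonneg_left (mul_le_mul_of_nonneg_right hD0 hTp.le) (by linarith)
    have h7 : 0 ≤ e * T * T ^ 2 := by positivity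
    nlinarith
  have e3 : -(D - y ^ 2 / D) = -((1 - e) * T) + 2 + y ^ 2 / D := by rw [hD]; ring
  rw [e3]
  linarith

/-- **the energy of the current**:
`kap0 ∫ h'² - 12 l h(ts) ≤ -((1 - 2 e1) T - ts² / T) + C (1 + J)²` -/
theorem energyT (he : 0 < e1) : ∃ C : ℝ, 0 ≤ C ∧ ∀ J : ℝ, 0 ≤ J → ∀ m : ℕ, e1 ≤ 1 / 100 →
    20 ≤ Tb (Real.log m) → ∀ ts : ℝ, |ts| ≤ 1 / 2 * Tb (Real.log m) →
      9 * Real.pi ^ 2 / 32 * (∫ t, deriv (hT e1 J m ts) t ^ 2) -
        12 * (Real.pi / 8) * hT e1 J m ts ts ≤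
        -((1 - 2 * e1) * Tb (Real.log m) - ts ^ 2 / Tb (Real.log m)) + C * (1 + J) ^ 2 := by
  obtain ⟨C, hC0, H⟩ := NUCUR.cur_bound (e := e1) he 1
  refine ⟨11 + 9 * Real.pi ^ 2 / 32 * (4 * C + 2 * C ^ 2), by positivity,
    fun J hJ m he1 hTb ts hts => ?_⟩
  set T := Tb (Real.log m) with hTd
  have ha := aC_pos
  have ha' := aC_le
  have hT0 : 0 < T := by linarith
  have hcur : ∀ t, |deriv (NUCUR.cur e1 T J) t| ≤ C * J / T := by
    intro t
    have := H T J hT0 hJ t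
    rwa [iteratedDeriv_one, pow_one] at this
  have hz : ∀ t, (1 - e1) * T < |t| → deriv (NUCUR.cur e1 T J) t = 0 := fun t ht =>
    NUCUR.deriv_zero he hT0 ht
  have hD : 0 < DC e1 m := by linarith [(DC_pos he1 hTb).2]
  have hts' := ts_le he1 hTb hts
  have c1 : Continuous (tentT' (DC e1 m) ts) := tentT'_cont _ _
  have c2 : Continuous (deriv (NUCUR.cur e1 T J)) := NUCUR.deriv_cont
  have s1 : HasCompactSupport (tentT' (DC e1 m) ts) := tentT'_cs hts'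
  have s2 : HasCompactSupport (deriv (NUCUR.cur e1 T J)) := (NUCUR.cur_supp he hT0).deriv
  have hCJ : 0 ≤ C * J / T := by positivity
  have hb0 : 0 ≤ (1 - e1) * T := by nlinarith
  have hbT : (1 - e1) * T ≤ T := by nlinarith
  -- the cross term
  have k1 : |∫ t, tentT' (DC e1 m) ts t * deriv (NUCUR.cur e1 T J) t| ≤ 2 * C * J := by
    have h1 := int_supp_le (f := fun t => tentT' (DC e1 m) ts t * deriv (NUCUR.cur e1 T J) t)
      (b := (1 - e1) * T) (K := 25 / 16 * aC * (C * J / T)) hb0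
      (fun t ht => by rw [hz t ht, mul_zero])
      (fun t => by
        rw [abs_mul]
        exact mul_le_mul (tentT'_abs hD hts' t) (hcur t) (abs_nonneg _) (by positivity))
    refine h1.trans ?_
    calc 2 * ((1 - e1) * T) * (25 / 16 * aC * (C * J / T)) ≤ 2 * T * (1 * (C * J / T)) := by
          gcongr
          linarith
      _ = 2 * C * J := by field_simp
  -- the energy of the plateau
  have k2 : ∫ t, deriv (NUCUR.cur e1 T J) t ^ 2 ≤ 2 * C ^ 2 * J ^ 2 := by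
    have h1 := int_supp_le (f := fun t => deriv (NUCUR.cur e1 T J) t ^ 2)
      (b := (1 - e1) * T) (K := (C * J / T) ^ 2) hb0
      (fun t ht => by rw [hz t ht]; norm_num)
      (fun t => by
        rw [abs_pow]
        exact pow_le_pow_left₀ (abs_nonneg _) (hcur t) 2)
    refine ((le_abs_self _).trans h1).trans ?_
    calc 2 * ((1 - e1) * T) * (C * J / T) ^ 2 ≤ 2 * T * (C * J / T) ^ 2 := by gcongr
      _ = 2 * (C ^ 2 * J ^ 2) / T := by field_simp
      _ ≤ 2 * (C ^ 2 * J ^ 2) := div_le_self (by positivity) (by linarith)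
      _ = _ := by ring
  -- the sum
  have i1 : Integrable fun t => tentT' (DC e1 m) ts t ^ 2 :=
    int_sq_cs c1 s1
  have i2 : Integrable fun t => tentT' (DC e1 m) ts t * deriv (NUCUR.cur e1 T J) t :=
    (c1.mul c2).integrable_of_hasCompactSupport s1.mul_right
  have i3 : Integrable fun t => deriv (NUCUR.cur e1 T J) t ^ 2 :=
    int_sq_cs c2 s2
  have e1' : ∫ t, deriv (hT e1 J m ts) t ^ 2 = (∫ t, tentT' (DC e1 m) ts t ^ 2) +
      2 * (∫ t, tentT' (DC e1 m) ts t * deriv (NUCUR.cur e1 T J) t) +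
      ∫ t, deriv (NUCUR.cur e1 T J) t ^ 2 := by
    rw [← integral_const_mul, ← integral_add i1 (i2.const_mul 2), ← integral_add _ i3]
    · rw [deriv_hT]
      refine integral_congr_ae (Eventually.of_forall fun t => ?_)
      simp only
      ring
    · exact i1.add (i2.const_mul 2)
  have h2 : hT e1 J m ts ts = tentT (DC e1 m) ts ts + J := hT_eq he hTb (ts_plateau he1 hTb hts)
  rw [h2]
  obtain ⟨Y, hY⟩ : ∃ Y, Y = (1 - 2 * e1) * T - ts ^ 2 / T := ⟨_, rfl⟩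
  rw [← hY]
  have k4 : 9 * Real.pi ^ 2 / 32 * (∫ t, tentT' (DC e1 m) ts t ^ 2) -
      12 * (Real.pi / 8) * tentT (DC e1 m) ts ts ≤ -(Y - 3) + 8 := by
    have q1 := tentT_main hD hts'
    have q2 := apex_num (e := e1) hTb he he1 hts
    have q3 : DC e1 m = (1 - e1) * T - 2 := rfl
    rw [← q3, ← hY] at q2
    linarith
  have k5 := energyC_num (T := Y - 1) hC0 hJ (show 0 < 9 * Real.pi ^ 2 / 32 by positivity)
    (show 0 ≤ 12 * (Real.pi / 8) by positivity) e1' ((le_abs_self _).trans k1) k2 k4 (by ring)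
  have k6 : (1 : ℝ) ≤ (1 + J) ^ 2 := by nlinarith
  have k7 : (11 + 9 * Real.pi ^ 2 / 32 * (4 * C + 2 * C ^ 2)) * (1 + J) ^ 2 =
      (10 + 9 * Real.pi ^ 2 / 32 * (4 * C + 2 * C ^ 2)) * (1 + J) ^ 2 + (1 + J) ^ 2 := by ring
  rw [k7]
  linarith

/-! ### The displacement -/

variable [NUSea.Sea]

/-- **the displacement with apex `ts`**, real row number `s` -/
def etaT (e1 J : ℝ) (m : ℕ) (ts s t : ℝ) : ℝ := hT e1 J m ts t / (s * NUSea.P t)

/-- its derivative -/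
def etaT' (e1 J : ℝ) (m : ℕ) (ts s t : ℝ) : ℝ := deriv (etaT e1 J m ts s) t

theorem etaT_zero_top (e1 J : ℝ) (m : ℕ) : etaT e1 J m 0 = etaC e1 J m := by
  funext s t
  unfold etaT etaC
  rw [hT_zero_top]

theorem etaT_contDiff (e1 J : ℝ) (m : ℕ) (ts s : ℝ) (n : ℕ) : ContDiff ℝ n (etaT e1 J m ts s) :=
  NUSea.CUR.eta_contDiff (N := (n : ℕ∞)) (hT_contDiff e1 J m ts n) s

theorem etaT_hasDeriv (e1 J : ℝ) (m : ℕ) (ts s t : ℝ) :
    HasDerivAt (etaT e1 J m ts s) (etaT' e1 J m ts s t) t :=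
  (((etaT_contDiff e1 J m ts s 1).differentiable (by simp)) t).hasDerivAt

theorem etaT'_cont (e1 J : ℝ) (m : ℕ) (ts s : ℝ) : Continuous (etaT' e1 J m ts s) :=
  (etaT_contDiff e1 J m ts s 1).continuous_deriv le_rfl

theorem etaT_nonneg (he1 : e1 ≤ 1 / 100) (hJ : 0 ≤ J) (hTb : 20 ≤ Tb (Real.log m))
    (hts : |ts| ≤ 1 / 2 * Tb (Real.log m)) {s : ℝ} (hs : 0 ≤ s) (t : ℝ) :
    0 ≤ etaT e1 J m ts s t :=
  div_nonneg (hT_nonneg he1 hJ hTb hts t) (mul_nonneg hs (NUSea.P_pos t).le)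

theorem etaT_zero (he : 0 < e1) (he1 : e1 ≤ 1 / 100) (hTb : 20 ≤ Tb (Real.log m))
    (hts : |ts| ≤ 1 / 2 * Tb (Real.log m)) {t : ℝ} (s : ℝ)
    (ht : (1 - e1) * Tb (Real.log m) ≤ |t|) : etaT e1 J m ts s t = 0 := by
  unfold etaT
  rw [hT_zero he he1 hTb hts ht, zero_div]

theorem etaT'_zero (he : 0 < e1) (he1 : e1 ≤ 1 / 100) (hTb : 20 ≤ Tb (Real.log m))
    (hts : |ts| ≤ 1 / 2 * Tb (Real.log m)) {t : ℝ} (s : ℝ)
    (ht : (1 - e1) * Tb (Real.log m) < |t|) : etaT' e1 J m ts s t = 0 := by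
  have h := NUCUR.iter_zero_out (f := etaT e1 J m ts s)
    (fun t ht => etaT_zero he he1 hTb hts s ht) 1 t ht
  rwa [iteratedDeriv_one] at h

/-- the current of the displacement -/
theorem mul_etaT {s : ℝ} (hs : 0 < s) (t : ℝ) :
    s * NUSea.P t * etaT e1 J m ts s t = hT e1 J m ts t := by
  unfold etaT
  have := NUSea.P_pos t
  field_simp

theorem cur_etaT {s : ℝ} (hs : 0 < s) :
    (fun t => s * NUSea.P t * etaT e1 J m ts s t) = hT e1 J m ts :=
  funext (mul_etaT hs)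

/-- its derivative -/
theorem hd_curT {s : ℝ} (hs : 0 < s) :
    NUSea.hd s (etaT e1 J m ts s) (etaT' e1 J m ts s) = deriv (hT e1 J m ts) := by
  funext t
  have h1 := NUSea.hasDerivAt_hd s (etaT_hasDeriv e1 J m ts s) t
  rw [cur_etaT hs] at h1
  exact h1.deriv.symm

/-- Lipschitz bound -/
theorem lip_curT (he : 0 < e1) : ∃ C : ℝ, 0 ≤ C ∧ ∀ J : ℝ, 0 ≤ J → ∀ m : ℕ, e1 ≤ 1 / 100 →
    20 ≤ Tb (Real.log m) → ∀ ts : ℝ, |ts| ≤ 1 / 2 * Tb (Real.log m) → ∀ s : ℝ, 0 < s →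
      ∀ t t', |s * NUSea.P t * etaT e1 J m ts s t - s * NUSea.P t' * etaT e1 J m ts s t'| ≤
        (25 / 16 * aC + C * J / Tb (Real.log m)) * |t - t'| := by
  obtain ⟨C, hC0, H⟩ := hT_lip he
  refine ⟨C, hC0, fun J hJ m he1 hTb ts hts s hs t t' => ?_⟩
  rw [mul_etaT hs, mul_etaT hs]
  exact H J hJ m he1 hTb ts hts t t'

/-- **the energy of the displacement** -/
theorem bil_curT (he : 0 < e1) : ∃ C : ℝ, 0 ≤ C ∧ ∀ J : ℝ, 0 ≤ J → ∀ m : ℕ, e1 ≤ 1 / 100 →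
    20 ≤ Tb (Real.log m) → ∀ ts : ℝ, |ts| ≤ 1 / 2 * Tb (Real.log m) → ∀ s : ℝ, 0 < s →
      NUCR.bil (NUSea.hd s (etaT e1 J m ts s) (etaT' e1 J m ts s))
        (NUSea.hd s (etaT e1 J m ts s) (etaT' e1 J m ts s)) ≤
        9 * Real.pi ^ 2 / 32 * (∫ t, deriv (hT e1 J m ts) t ^ 2) ∧
      NUCR.bil (NUSea.hd s (etaT e1 J m ts s) (etaT' e1 J m ts s))
        (NUSea.hd s (etaT e1 J m ts s) (etaT' e1 J m ts s)) -
          12 * (Real.pi / 8) * hT e1 J m ts ts ≤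
        -((1 - 2 * e1) * Tb (Real.log m) - ts ^ 2 / Tb (Real.log m)) + C * (1 + J) ^ 2 := by
  obtain ⟨C, hC0, H⟩ := energyT he
  obtain ⟨C1, hC1, H1⟩ := hT_slope he
  refine ⟨C, hC0, fun J hJ m he1 hTb ts hts s hs => ?_⟩
  rw [hd_curT hs]
  have hb : BI (25 / 16 * aC + C1 * J / Tb (Real.log m)) (deriv (hT e1 J m ts)) :=
    ⟨(((hT_contDiff e1 J m ts 1).continuous_deriv le_rfl)).integrable_of_hasCompactSupport
      (hT_cs he he1 hTb hts).deriv, H1 J hJ m he1 hTb ts hts⟩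
  have h1 := bil_self_le hb
  unfold kap0 at h1
  exact ⟨h1, by linarith [H J hJ m he1 hTb ts hts]⟩

/-- **the displacement is an admissible current**, uniformly in the apex -/
theorem exists_curT (he : 0 < e1) (he1 : e1 ≤ 1 / 100) (hJ : 0 ≤ J) {x : ℝ} (hx : 0 < x) :
    ∃ C : ℝ, 1 ≤ C ∧ ∃ m0 : ℕ, 1 ≤ m0 ∧ ∀ m ≥ m0, 20 ≤ Tb (Real.log m) ∧
      ∀ ts : ℝ, |ts| ≤ 1 / 2 * Tb (Real.log m) → ∀ s : ℝ, (m : ℝ) / 2 ≤ s →
        ∃ (ε : ℝ) (e : ℝ → ℝ),
          NUSea.Cur s ε (C * Real.log m) ((1 - e1) * Tb (Real.log m)) e (etaT e1 J m ts s) ∧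
            0 ≤ ε ∧ ε ≤ (m : ℝ) ^ (-(e1 / 2)) ∧ ε ≤ x := by
  obtain ⟨C0, hC0, H0⟩ := NUSea.exists_cur
  obtain ⟨C1, hC1, H1⟩ := hT_iter he
  obtain ⟨c, hc, hP⟩ := NUSea.le_P
  obtain ⟨Q, hQ⟩ : ∃ Q, Q = C0 * (C1 * (1 + J)) := ⟨_, rfl⟩
  have hQ1 : 1 ≤ Q := by
    rw [hQ]
    have h1 : 1 ≤ C1 * (1 + J) := by nlinarith
    nlinarith
  obtain ⟨m1, hm1⟩ := log_pow_small (Q * (2 / c)) (e1 / 2) (min 1 x) 1 (by linarith)
    (lt_min one_pos hx)
  have h3 := (Real.tendsto_log_atTop.comp tendsto_natCast_atTop_atTop).eventually_ge_atTop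
    (160 / 3 : ℝ)
  obtain ⟨m2, hm2⟩ := eventually_atTop.1 h3
  refine ⟨Q, hQ1, max (max m1 m2) 1, le_max_right _ _, fun m hm => ?_⟩
  have a1 := hm1 m ((le_max_left _ _).trans ((le_max_left _ _).trans hm))
  have a2 : (160 / 3 : ℝ) ≤ Real.log m := hm2 m ((le_max_right _ _).trans ((le_max_left _ _).trans hm))
  have hm1 : 1 ≤ m := (le_max_right _ _).trans hm
  have hmp : (0 : ℝ) < m := by exact_mod_cast hm1
  have hTb : 20 ≤ Tb (Real.log m) := by
    unfold Tb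
    linarith
  refine ⟨hTb, fun ts hts s hs => ?_⟩
  have hs0 : 0 < s := by
    have : 0 < (m : ℝ) / 2 := by positivity
    linarith
  have hb0 : 0 ≤ (1 - e1) * Tb (Real.log m) := by nlinarith
  obtain ⟨e, he'⟩ := H0 s (C1 * (1 + J) * Real.log m) ((1 - e1) * Tb (Real.log m)) hs0 hb0
    (hT e1 J m ts) (hT_contDiff e1 J m ts 4) (H1 J hJ m he1 hTb ts hts).1
    (fun t ht => hT_zero he he1 hTb hts ht)
  have e2 : C0 * (C1 * (1 + J) * Real.log m) = Q * Real.log m := by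
    rw [hQ]
    ring
  rw [e2] at he'
  have hPb := NUSea.P_pos ((1 - e1) * Tb (Real.log m))
  have hL : 0 ≤ Real.log m := by linarith
  -- the size of the displacement
  have h6 : 0 < (m : ℝ) ^ (-(e1 / 2)) := Real.rpow_pos_of_pos hmp _
  have key : Q * Real.log m / (s * NUSea.P ((1 - e1) * Tb (Real.log m))) ≤
      min 1 x * (m : ℝ) ^ (-(e1 / 2)) := by
    have h1 := hP ((1 - e1) * Tb (Real.log m))
    rw [abs_of_nonneg hb0] at h1
    have e1' : Real.exp (-(8 / 3) * ((1 - e1) * Tb (Real.log m))) = (m : ℝ)⁻¹ * (m : ℝ) ^ e1 := by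
      have e2 : (m : ℝ)⁻¹ = Real.exp (-Real.log m) := by rw [Real.exp_neg, Real.exp_log hmp]
      rw [Real.rpow_def_of_pos hmp, e2, ← Real.exp_add]
      congr 1
      unfold Tb
      ring
    rw [e1'] at h1
    have hme : 0 < (m : ℝ) ^ e1 := Real.rpow_pos_of_pos hmp _
    have h2 : c / 2 * (m : ℝ) ^ e1 ≤ s * NUSea.P ((1 - e1) * Tb (Real.log m)) := by
      calc c / 2 * (m : ℝ) ^ e1 = (m : ℝ) / 2 * (c * ((m : ℝ)⁻¹ * (m : ℝ) ^ e1)) := by
            field_simp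
        _ ≤ _ := mul_le_mul hs h1 (by positivity) hs0.le
    have e3 : (m : ℝ) ^ (-(e1 / 2)) * (m : ℝ) ^ (-(e1 / 2)) * (m : ℝ) ^ e1 = 1 := by
      rw [← Real.rpow_add hmp, ← Real.rpow_add hmp,
        show -(e1 / 2) + -(e1 / 2) + e1 = 0 by ring, Real.rpow_zero]
    rw [div_le_iff₀ (by positivity)]
    have h7 : Q * (2 / c) * Real.log m * (m : ℝ) ^ (-(e1 / 2)) ≤ min 1 x := by
      refine le_trans ?_ a1
      rw [pow_one]
      have : 0 ≤ Q * (2 / c) := by positivity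
      refine mul_le_mul_of_nonneg_right ?_ h6.le
      exact mul_le_mul_of_nonneg_left (by linarith) this
    calc Q * Real.log m = (Q * (2 / c) * Real.log m * (m : ℝ) ^ (-(e1 / 2))) *
          (m : ℝ) ^ (-(e1 / 2)) * (c / 2 * (m : ℝ) ^ e1) := by
          have : Q * (2 / c) * Real.log m * (m : ℝ) ^ (-(e1 / 2)) * (m : ℝ) ^ (-(e1 / 2)) *
              (c / 2 * (m : ℝ) ^ e1) = Q * Real.log m * ((2 / c) * (c / 2)) *
              ((m : ℝ) ^ (-(e1 / 2)) * (m : ℝ) ^ (-(e1 / 2)) * (m : ℝ) ^ e1) := by ring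
          rw [this, e3]
          field_simp
      _ ≤ min 1 x * (m : ℝ) ^ (-(e1 / 2)) * (s * NUSea.P ((1 - e1) * Tb (Real.log m))) := by
          have : 0 ≤ min 1 x := (lt_min one_pos hx).le
          gcongr
  have hm1' : (m : ℝ) ^ (-(e1 / 2)) ≤ 1 :=
    Real.rpow_le_one_of_one_le_of_nonpos (by exact_mod_cast hm1) (by linarith)
  refine ⟨_, e, he', by positivity, key.trans ?_, key.trans ?_⟩
  · calc min 1 x * (m : ℝ) ^ (-(e1 / 2)) ≤ 1 * (m : ℝ) ^ (-(e1 / 2)) :=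
        mul_le_mul_of_nonneg_right (min_le_left _ _) h6.le
      _ = _ := one_mul _
  · calc min 1 x * (m : ℝ) ^ (-(e1 / 2)) ≤ x * 1 :=
        mul_le_mul (min_le_right _ _) hm1' h6.le hx.le
      _ = x := mul_one x

/-- **the curve is admissible for the representation corollary** -/
theorem curOKT (he : 0 < e1) (he1 : e1 ≤ 1 / 100) (hJ : 0 ≤ J) {ep : ℝ} (hep : 0 < ep) :
    ∃ m0 : ℕ, 1 ≤ m0 ∧ ∀ m ≥ m0, ∀ ts : ℝ, |ts| ≤ 1 / 2 * Tb (Real.log m) → ∀ s : ℝ,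
      (m : ℝ) / 2 ≤ s → CurB ep (etaT e1 J m ts s) (etaT' e1 J m ts s) := by
  have hl := NUP1.l_pos
  obtain ⟨C, -, m0, hm0, H⟩ := exists_curT he he1 hJ (x := ep * NUP1.l / 4) (by positivity)
  refine ⟨m0, hm0, fun m hm ts hts s hs => ?_⟩
  obtain ⟨ε, e, h1, -, -, h2⟩ := (H m hm).2 ts hts s hs
  exact curB_of_curS h1 h2 (etaT_hasDeriv e1 J m ts s)

/-! ### The facts for the exponent -/

/-- **facts on the current** with apex `ts`: at least the current of TARGET-A, largest at `ts` up to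
`2`, slope at most one, energy -/
structure CuOkT (e1 J Cb : ℝ) (m : ℕ) (ts : ℝ) (h h' : ℝ → ℝ) : Prop where
  nn : ∀ t, 0 ≤ h t
  top : ∀ t, h t ≤ h ts + 2
  ge : ∀ t, NUCUR.cur e1 (Tb (Real.log m)) J t ≤ h t
  lip : ∀ t t', |h t - h t'| ≤ |t - t'|
  en : NUCR.bil h' h' - 12 * (Real.pi / 8) * h ts ≤
    -((1 - 2 * e1) * Tb (Real.log m) - ts ^ 2 / Tb (Real.log m)) + Cb

/-- **the current of the curve with apex `ts`** -/
theorem cuOkT (he : 0 < e1) (he1 : e1 ≤ 1 / 100) (hJ : 0 ≤ J) :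
    ∃ (Cb : ℝ) (m0 : ℕ), 0 ≤ Cb ∧ ∀ m ≥ m0, ∀ ts : ℝ, |ts| ≤ 1 / 2 * Tb (Real.log m) → ∀ s : ℝ,
      (m : ℝ) / 2 ≤ s →
      CuOkT e1 J Cb m ts (fun t => s * NUSea.P t * etaT e1 J m ts s t)
        (NUSea.hd s (etaT e1 J m ts s) (etaT' e1 J m ts s)) := by
  obtain ⟨m1, H1⟩ := slope_oneT he J hJ
  obtain ⟨Cb, hCb, H2⟩ := bil_curT he
  have h1 := (Real.tendsto_log_atTop.comp tendsto_natCast_atTop_atTop).eventually_ge_atTop
    (160 / 3 : ℝ)
  obtain ⟨m2, hm2⟩ := eventually_atTop.1 h1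
  refine ⟨Cb * (1 + J) ^ 2, max (max m1 m2) 1, by positivity, fun m hm ts hts s hs => ?_⟩
  have a1 : m1 ≤ m := (le_max_left _ _).trans ((le_max_left _ _).trans hm)
  have a2 : (160 / 3 : ℝ) ≤ Real.log m := hm2 m ((le_max_right _ _).trans ((le_max_left _ _).trans hm))
  have a3 : 1 ≤ m := (le_max_right _ _).trans hm
  have hmp : (0 : ℝ) < m := by exact_mod_cast a3
  have hs0 : 0 < s := by
    have : 0 < (m : ℝ) / 2 := by positivity
    linarith
  have hTb : 20 ≤ Tb (Real.log m) := by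
    unfold Tb
    linarith
  rw [cur_etaT hs0]
  exact ⟨hT_nonneg he1 hJ hTb hts, hT_top he he1 hJ hTb hts, hT_cur_le he1 hTb hts,
    H1 m a1 he1 hTb ts hts, (H2 J hJ m he1 hTb ts hts s hs0).2⟩

/-- **ends and groups against the current**: phase `12 l` at `ts`, total negative phase of the groups
at most `6 l` -/
theorem lin_curT {Cb : ℝ} {h h' : ℝ → ℝ} (hc : CuOkT e1 J Cb m ts h h')
    {δ : Type*} [Fintype δ] {φ τ : δ → ℝ} (hφ : ∑ d, max (-(φ d)) 0 ≤ 6 * NUMF.l) :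
    -(2 * (12 * NUMF.l * h ts + ∑ d, φ d * h (τ d))) + NUCR.bil h' h' ≤
      -((1 - 2 * e1) * Tb (Real.log m) - ts ^ 2 / Tb (Real.log m)) + (Cb + 24 * NUMF.l) := by
  have h0 := hc.nn ts
  have h1 : ∀ d, -(max (-(φ d)) 0 * (h ts + 2)) ≤ φ d * h (τ d) := by
    intro d
    have a1 := hc.nn (τ d)
    have a2 := hc.top (τ d)
    have a3 := le_max_left (-(φ d)) 0
    have a4 := le_max_right (-(φ d)) 0
    nlinarith
  have h2 : -(6 * NUMF.l * (h ts + 2)) ≤ ∑ d, φ d * h (τ d) := by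
    calc -(6 * NUMF.l * (h ts + 2)) ≤ -((∑ d, max (-(φ d)) 0) * (h ts + 2)) := by
          have := mul_le_mul_of_nonneg_right hφ (show 0 ≤ h ts + 2 by linarith)
          linarith
      _ = ∑ d, -(max (-(φ d)) 0 * (h ts + 2)) := by rw [Finset.sum_mul, Finset.sum_neg_distrib]
      _ ≤ _ := Finset.sum_le_sum fun d _ => h1 d
  have h3 := hc.en
  have hl : NUMF.l = Real.pi / 8 := rfl
  rw [← hl] at h3
  linarith

end

end PotH
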