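import Pool.Agent.PotH.CrvI
import Pool.Agent.PotH.CurT

/-!
# The curve with apex `ts` is an admissible curve, any sea, any number of rows

* **`exists_crvT`**: `CrvP e1 Cc m (etaT e1 J m ts m) (etaT' e1 J m ts m)` for every `m ≥ m0`,
  `|ts| ≤ Tb / 2`;
* `cur_factsT`: its current is `hT`, derivative at most one.
-/

set_option autoImplicit false
set_option linter.unusedSectionVars false

open MeasureTheory Set Filter Topology

namespace PotH

open NUO NUGC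

noncomputable section

variable [NUSea.Sea]

/-- **the curve with apex `ts` is admissible**, every number of rows `m ≥ m0` -/
theorem exists_crvT {e1 J : ℝ} (he : 0 < e1) (he1 : e1 ≤ 1 / 100) (hJ : 0 ≤ J) :
    ∃ Cc : ℝ, 1 ≤ Cc ∧ ∃ m0 : ℕ, 1 ≤ m0 ∧ ∀ m : ℕ, m0 ≤ m → 20 ≤ Tb (Real.log m) ∧
      ∀ ts : ℝ, |ts| ≤ 1 / 2 * Tb (Real.log m) →
      CrvP e1 Cc m (etaT e1 J m ts m) (etaT' e1 J m ts m) := by
  obtain ⟨C, hC, m1, hm1, H⟩ := exists_curT he he1 hJ (x := 1 / 100) (by norm_num)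
  obtain ⟨m2, H2⟩ := slope_oneT he J hJ
  refine ⟨C, hC, max m1 m2, hm1.trans (le_max_left _ _), fun m hm => ?_⟩
  have k1 : m1 ≤ m := (le_max_left _ _).trans hm
  have k2 : m2 ≤ m := (le_max_right _ _).trans hm
  obtain ⟨hT, Hs⟩ := H m k1
  have hmp : (0 : ℝ) < m := by
    have : 0 < m := lt_of_lt_of_le (by omega) (hm1.trans k1)
    exact_mod_cast this
  refine ⟨hT, fun ts hts => ?_⟩
  obtain ⟨ε, e, h1, h2, h3, h4⟩ := Hs ts hts m (by linarith)
  exact
    { cur := ⟨ε, e, h1, h2, h3, h4⟩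
      d := etaT_hasDeriv e1 J m ts m
      c := etaT'_cont e1 J m ts m
      nn := etaT_nonneg he1 hJ hT hts hmp.le
      lip := fun t t' => by
        rw [mul_etaT hmp, mul_etaT hmp]
        exact H2 m k2 he1 hT ts hts t t' }

/-- **facts on the current with apex `ts`**: it is `hT`, derivative at most one, `CuOkT` -/
theorem cur_factsT {e1 J : ℝ} (he : 0 < e1) (he1 : e1 ≤ 1 / 100) (hJ : 0 ≤ J) :
    ∃ (Cb : ℝ) (m0 : ℕ), 1 ≤ m0 ∧ ∀ m : ℕ, m0 ≤ m → ∀ ts : ℝ, |ts| ≤ 1 / 2 * Tb (Real.log m) →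
      (∀ t, (m : ℝ) * NUSea.P t * etaT e1 J m ts m t = hT e1 J m ts t) ∧
      (∀ t, |NUSea.hd m (etaT e1 J m ts m) (etaT' e1 J m ts m) t| ≤ 1) ∧
      CuOkT e1 J Cb m ts (fun t => (m : ℝ) * NUSea.P t * etaT e1 J m ts m t)
        (NUSea.hd m (etaT e1 J m ts m) (etaT' e1 J m ts m)) := by
  obtain ⟨Cb, m1, -, H⟩ := cuOkT he he1 hJ
  refine ⟨Cb, max m1 1, le_max_right _ _, fun m hm ts hts => ?_⟩
  have k1 : m1 ≤ m := (le_max_left _ _).trans hm
  have hmp : (0 : ℝ) < m := by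
    have : 1 ≤ m := (le_max_right _ _).trans hm
    exact_mod_cast this
  have h1 := H m k1 ts hts m (by linarith)
  refine ⟨mul_etaT hmp, fun t => ?_, h1⟩
  have h3 := NUSea.hasDerivAt_hd (m : ℝ) (etaT_hasDeriv e1 J m ts m) t
  rw [← h3.deriv]
  exact deriv_le_of_lip h1.lip t

end

end PotH
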