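import Pool.Agent.NUP1.Cutoff

/-!
# The cutoff of a list of rows `0^K ++ ex` outside the strip of `‖psi‖ ≤ 1`

* `den_wide`, `one_sub_psi_wide`, `norm_psi_wide`: `psi` on `|re z + l / 2| ≤ 9 l / 5`;
* `norm_prod_wide`, `one_sub_prod_wide`: products over the list `ex`;
* `phi_perm_K`: the cutoff of a list which is a permutation of `0^K ++ ex`.
-/

set_option autoImplicit false

noncomputable section

open Complex

namespace PotH

open NUP1

section wide
variable {β : ℝ} {z : ℂ}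

lemma clW_ge (h0 : 0 < β) (h1 : β ≤ 4 / 3) : √3 / 2 ≤ cl β := by
  have hl := l_pos
  have hpl : 8 * l = Real.pi := by unfold l; ring
  unfold cl
  rw [← Real.cos_pi_div_six]
  refine Real.cos_le_cos_of_nonneg_of_le_pi (by positivity) (by linarith) ?_
  nlinarith

lemma coslW (β : ℝ) : cos (β * l : ℂ) = ((cl β : ℝ) : ℂ) := by
  unfold cl
  push_cast
  rfl

/-- the denominator of `psi` on a wider strip -/
theorem den_wide (h0 : 0 < β) (h1 : β ≤ 4 / 3) (hz : |z.re + l / 2| ≤ 9 / 5 * l) :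
    2 / 5 * Real.cosh (2 * β * z.im) ≤ ‖cos (2 * β * z + β * l) + cos (β * l)‖ := by
  have hl := l_pos
  have hpi : 8 * l = Real.pi := by unfold l; ring
  have hpi4 := Real.pi_lt_d2
  have hc3 := clW_ge h0 h1
  have hc1 := cl_le_one β
  have s3 : 0 < √3 := Real.sqrt_pos.2 (by norm_num)
  have hc0 : 0 < cl β := lt_of_lt_of_le (by positivity) hc3
  have hcsq : 3 / 4 ≤ cl β ^ 2 := by
    have := pow_le_pow_left₀ (by positivity) hc3 2
    rwa [div_pow, Real.sq_sqrt (by norm_num), show (3 : ℝ) / 2 ^ 2 = 3 / 4 by norm_num] at this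
  obtain ⟨θ, hθ⟩ : ∃ θ : ℝ, θ = 2 * β * (z.re + l / 2) := ⟨_, rfl⟩
  obtain ⟨y, hy⟩ : ∃ y : ℝ, y = 2 * β * z.im := ⟨_, rfl⟩
  have hθ1 : |θ| ≤ 3 / 5 * Real.pi := by
    rw [hθ, abs_mul, abs_of_pos (by linarith : 0 < 2 * β)]
    calc 2 * β * |z.re + l / 2| ≤ 2 * (4 / 3) * (9 / 5 * l) := by gcongr
      _ = 3 / 5 * Real.pi := by rw [← hpi]; ring
  have hcos : -(1 / 3) ≤ Real.cos θ := by
    rw [← Real.cos_abs]
    refine le_trans ?_ (Real.cos_le_cos_of_nonneg_of_le_pi (abs_nonneg θ) (by linarith [Real.pi_pos]) hθ1)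
    rw [show 3 / 5 * Real.pi = Real.pi / 10 + Real.pi / 2 by ring, Real.cos_add_pi_div_two]
    have := Real.sin_le (x := Real.pi / 10) (by positivity)
    linarith
  have hch := Real.one_le_cosh y
  have hcf := cos_form β z
  rw [← hθ, ← hy] at hcf
  have hsc := Real.sin_sq_add_cos_sq θ
  have hsh := Real.cosh_sq y
  have hden : (2 / 5 * Real.cosh y) ^ 2 ≤ ‖cos (2 * β * z + β * l) + cos (β * l)‖ ^ 2 := by
    rw [hcf, coslW, ← Complex.normSq_eq_norm_sq, Complex.normSq_apply]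
    simp only [add_re, add_im, ofReal_re, ofReal_im, mul_re, mul_im, I_re, I_im, mul_zero, mul_one,
      sub_zero, add_zero, zero_add]
    have e : (Real.cos θ * Real.cosh y + cl β) * (Real.cos θ * Real.cosh y + cl β) +
        -(Real.sin θ * Real.sinh y) * -(Real.sin θ * Real.sinh y) =
        (Real.cosh y + cl β * Real.cos θ) ^ 2 - (1 - cl β ^ 2) * Real.sin θ ^ 2 := by
      have e1 : Real.sinh y ^ 2 = Real.cosh y ^ 2 - 1 := by linarith
      have e2 : Real.sin θ ^ 2 = 1 - Real.cos θ ^ 2 := by linarith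
      calc _ = (Real.cos θ * Real.cosh y + cl β) ^ 2 + Real.sin θ ^ 2 * Real.sinh y ^ 2 := by ring
        _ = _ := by
          rw [e1, e2]
          ring
    rw [e]
    have h5 : 2 / 3 * Real.cosh y ≤ Real.cosh y + cl β * Real.cos θ := by nlinarith
    have h6 : (2 / 3 * Real.cosh y) ^ 2 ≤ (Real.cosh y + cl β * Real.cos θ) ^ 2 :=
      pow_le_pow_left₀ (by positivity) h5 2
    have h7 : Real.sin θ ^ 2 ≤ 1 := Real.sin_sq_le_one θ
    have h8 : (1 - cl β ^ 2) * Real.sin θ ^ 2 ≤ 1 / 4 * 1 := by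
      refine mul_le_mul (by linarith) h7 (sq_nonneg _) (by norm_num)
    nlinarith
  rw [← hy]
  exact (sq_le_sq₀ (by positivity) (norm_nonneg _)).1 hden

lemma den_wide_ne (h0 : 0 < β) (h1 : β ≤ 4 / 3) (hz : |z.re + l / 2| ≤ 9 / 5 * l) :
    cos (2 * β * z + β * l) + cos (β * l) ≠ 0 := by
  have h2 := den_wide h0 h1 hz
  have h3 := Real.cosh_pos (2 * β * z.im)
  exact norm_pos_iff.1 (lt_of_lt_of_le (by positivity) h2)

theorem one_sub_psi_wide (h0 : 0 < β) (h1 : β ≤ 4 / 3) (hz : |z.re + l / 2| ≤ 9 / 5 * l) :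
    ‖1 - psi β z‖ ≤ 10 * Real.exp (-(2 * β) * |z.im|) := by
  have h2 := den_wide h0 h1 hz
  have hd := den_wide_ne h0 h1 hz
  have hp : 0 < ‖cos (2 * β * z + β * l) + cos (β * l)‖ := norm_pos_iff.2 hd
  have e : 1 - psi β z = 2 * cos (β * l) / (cos (2 * β * z + β * l) + cos (β * l)) := by
    unfold psi
    rw [eq_div_iff hd, sub_mul, div_mul_cancel₀ _ hd]
    ring
  have hn : ‖(2 : ℂ) * cos (β * l)‖ ≤ 2 := by
    rw [norm_mul, ← ofReal_mul, ← ofReal_cos, Complex.norm_real, Complex.norm_two]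
    have := Real.abs_cos_le_one (β * l)
    rw [Real.norm_eq_abs]
    linarith
  have h3 := cosh_ge (2 * β * z.im)
  rw [abs_mul, abs_of_pos (by linarith : 0 < 2 * β)] at h3
  rw [e, norm_div, div_le_iff₀ hp, neg_mul, Real.exp_neg]
  have hE := Real.exp_pos (2 * β * |z.im|)
  have h4 : (1 : ℝ) ≤ (Real.exp (2 * β * |z.im|))⁻¹ *
      (5 * ‖cos (2 * β * z + β * l) + cos (β * l)‖) := by
    rw [inv_mul_eq_div, le_div_iff₀ hE, one_mul]
    linarith
  nlinarith

theorem norm_psi_wide (h0 : 0 < β) (h1 : β ≤ 4 / 3) (hz : |z.re + l / 2| ≤ 9 / 5 * l) :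
    ‖psi β z‖ ≤ Real.exp (10 * Real.exp (-(2 * β) * |z.im|)) := by
  have h2 := one_sub_psi_wide h0 h1 hz
  have h3 : ‖psi β z‖ ≤ 1 + ‖1 - psi β z‖ := by
    have := norm_sub_le (1 : ℂ) (1 - psi β z)
    rwa [sub_sub_cancel, norm_one] at this
  have h4 := Real.add_one_le_exp (10 * Real.exp (-(2 * β) * |z.im|))
  linarith

theorem diff_psi_wide (h0 : 0 < β) (h1 : β ≤ 4 / 3) (hz : |z.re + l / 2| ≤ 9 / 5 * l) :
    DifferentiableAt ℂ (psi β) z := by
  unfold psi
  exact DifferentiableAt.div (by fun_prop) (by fun_prop) (den_wide_ne h0 h1 hz)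

end wide

/-! ### products over the list of the further points -/

section list
variable {β h0 : ℝ} {ex : List ℂ} {u : ℂ}

lemma exp_shift (hβ : 0 < β) {x : ℂ} (hx : |x.im| ≤ h0) :
    Real.exp (-(2 * β) * |(u - x).im|) ≤ Real.exp (2 * β * h0) * Real.exp (-(2 * β) * |u.im|) := by
  rw [← Real.exp_add]
  refine Real.exp_le_exp.2 ?_
  have h3 : |u.im| - |x.im| ≤ |(u - x).im| := by rw [sub_im]; exact abs_sub_abs_le_abs_sub _ _
  nlinarith

/-- the products over the list -/
theorem prod_wide (hβ : 0 < β) (hβ1 : β ≤ 4 / 3)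
    (hex : ∀ x ∈ ex, |(u - x).re + l / 2| ≤ 9 / 5 * l) (him : ∀ x ∈ ex, |x.im| ≤ h0) :
    ‖(ex.map fun x => psi β (u - x)).prod‖ ≤ Real.exp (10 * Real.exp (2 * β * h0) * ex.length *
      Real.exp (-(2 * β) * |u.im|)) ∧
    ‖1 - (ex.map fun x => psi β (u - x)).prod‖ ≤ Real.exp (10 * Real.exp (2 * β * h0) * ex.length *
      Real.exp (-(2 * β) * |u.im|)) - 1 := by
  induction ex with
  | nil => simp
  | cons x ex ih =>
    obtain ⟨i1, i2⟩ := ih (fun y hy => hex y (by simp [hy])) fun y hy => him y (by simp [hy])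
    have a1 := one_sub_psi_wide hβ hβ1 (hex x (by simp))
    have a2 := norm_psi_wide hβ hβ1 (hex x (by simp))
    have a3 := exp_shift (u := u) hβ (him x (by simp))
    obtain ⟨a, ha⟩ : ∃ a : ℝ, a = 10 * Real.exp (2 * β * h0) * Real.exp (-(2 * β) * |u.im|) := ⟨_, rfl⟩
    obtain ⟨A, hA⟩ : ∃ A : ℝ, A = 10 * Real.exp (2 * β * h0) * ex.length *
      Real.exp (-(2 * β) * |u.im|) := ⟨_, rfl⟩
    have e1 : 10 * Real.exp (2 * β * h0) * ((x :: ex).length : ℝ) * Real.exp (-(2 * β) * |u.im|) =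
        a + A := by
      rw [ha, hA, List.length_cons]
      push_cast
      ring
    have a4 : 10 * Real.exp (-(2 * β) * |(u - x).im|) ≤ a := by
      rw [ha]
      linarith
    have b1 : ‖1 - psi β (u - x)‖ ≤ a := a1.trans a4
    have b2 : ‖psi β (u - x)‖ ≤ Real.exp a := a2.trans (Real.exp_le_exp.2 a4)
    rw [← hA] at i1 i2
    rw [e1, List.map_cons, List.prod_cons, Real.exp_add]
    constructor
    · rw [norm_mul]
      exact mul_le_mul b2 i1 (norm_nonneg _) (Real.exp_pos _).le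
    · have e2 : 1 - psi β (u - x) * (ex.map fun x => psi β (u - x)).prod =
          (1 - psi β (u - x)) + psi β (u - x) * (1 - (ex.map fun x => psi β (u - x)).prod) := by
        ring
      rw [e2]
      refine (norm_add_le _ _).trans ?_
      rw [norm_mul]
      have b3 := Real.add_one_le_exp a
      have b4 : ‖psi β (u - x)‖ * ‖1 - (ex.map fun x => psi β (u - x)).prod‖ ≤
          Real.exp a * (Real.exp A - 1) := mul_le_mul b2 i2 (norm_nonneg _) (Real.exp_pos _).le
      nlinarith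

theorem diff_prod_wide (hβ : 0 < β) (hβ1 : β ≤ 4 / 3)
    (hex : ∀ x ∈ ex, |(u - x).re + l / 2| ≤ 9 / 5 * l) :
    DifferentiableAt ℂ (fun u => (ex.map fun x => psi β (u - x)).prod) u := by
  induction ex with
  | nil => simp
  | cons x ex ih =>
    have h2 : DifferentiableAt ℂ (fun u => psi β (u - x)) u := by
      have h3 := diff_psi_wide hβ hβ1 (hex x (by simp))
      exact DifferentiableAt.comp (g := psi β) (f := fun u : ℂ => u - x) u h3 (by fun_prop)
    have e : (fun u => ((x :: ex).map fun x => psi β (u - x)).prod) =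
        fun u => psi β (u - x) * (ex.map fun x => psi β (u - x)).prod :=
      funext fun u => by rw [List.map_cons, List.prod_cons]
    rw [e]
    exact h2.mul (ih fun y hy => hex y (by simp [hy]))

/-- the cutoff of a list which is a permutation of `0^K ++ ex` -/
theorem phi_perm_K {W : List ℂ} {K : ℕ} (hW : W.Perm (List.replicate K 0 ++ ex)) (u : ℂ) :
    phi β W u = 1 - psi β u ^ K * (ex.map fun x => psi β (u - x)).prod := by
  unfold phi
  rw [(hW.map fun x => psi β (u - x)).prod_eq, List.map_append, List.prod_append, List.map_replicate,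
    List.prod_replicate, sub_zero]

end list

end PotH

end
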