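import Pool.Agent.PotH.InH
import Pool.Agent.NUGC.ShlF
import Pool.Agent.NUS4.PhLog

/-!
# The cutoff of rows at the real part `0` is admissible

* `cfX β X η`: the cutoff `phi β X` of a list of rows on the curve;
* `exists_cutX`: its majorant; `phi_bulk`, `exists_logX`: its logarithm in the bulk;
* **`exists_cutR0`**: `CutR` for rows at the real part `0` and heights at most `h`, at least `m` and at most
  `3 m` of them; `exists_cutR0_ph`: the cutoff `1 - psi ^ n`, `m ≤ n ≤ 3 m`.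
-/

set_option autoImplicit false
set_option linter.unusedSectionVars false

open MeasureTheory Set Filter Topology

namespace PotH

open NUO (Xo ht Par Tb TW excS chgO)
open NUSea.H0 (Inp Gd TG BF hfar)
open NUGC (CcF CcF_one SC)

noncomputable section

variable [NUSea.Sea]

/-! ### the cutoff of a list of rows -/

/-- the cutoff of the rows `X` on the curve -/
def cfX (β : ℝ) (X : List ℂ) (η : ℝ → ℝ) (t : ℝ) : ℝ := ‖NUP1.phi β X (NUO.pA η t)‖

omit [NUSea.Sea] in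
lemma cfX_rep (β : ℝ) (n : ℕ) (η : ℝ → ℝ) (t : ℝ) :
    cfX β (List.replicate n 0) η t = ‖NUO.ph n β (NUO.pA η t)‖ := by
  unfold cfX NUO.ph
  rw [NUP1.phi_replicate, sub_zero]

omit [NUSea.Sea] in
theorem phi_meas (β : ℝ) (X : List ℂ) : Measurable (NUP1.phi β X) := by
  have h : Measurable fun u : ℂ => (X.map fun x => NUP1.psi β (u - x)).prod := by
    induction X with
    | nil => simp
    | cons x X ih =>
      simp only [List.map_cons, List.prod_cons]
      refine Measurable.mul ?_ ih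
      unfold NUP1.psi
      fun_prop
  exact measurable_const.sub h

omit [NUSea.Sea] in
theorem cfX_meas (β : ℝ) (X : List ℂ) {η : ℝ → ℝ} (hη : Continuous η) : Measurable (cfX β X η) := by
  have h1 : Measurable (NUO.pA η) := by
    unfold NUO.pA NUP1.vl
    fun_prop
  exact ((phi_meas β X).comp h1).norm

/-- rows at the real part `0`, heights at most `h` -/
def Row0 (h : ℝ) (X : List ℂ) : Prop := ∀ x ∈ X, x.re = 0 ∧ |x.im| ≤ h

omit [NUSea.Sea] in
lemma row0_rep {h : ℝ} (hh : 0 ≤ h) (n : ℕ) : Row0 h (List.replicate n 0) := fun x hx => by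
  rw [List.eq_of_mem_replicate hx]
  simpa using hh

omit [NUSea.Sea] in
/-- the sum over the rows -/
lemma sum_row0 {β h : ℝ} (hβ : 0 ≤ β) {X : List ℂ} (hX : Row0 h X) (u : ℂ) :
    X.length * (Real.exp (-(2 * β * h)) * Real.exp (-(2 * β) * |u.im|)) ≤
      (X.map fun x => Real.exp (-(2 * β) * |(u - x).im|)).sum := by
  induction X with
  | nil => simp
  | cons x X ih =>
    rw [List.map_cons, List.sum_cons, List.length_cons]
    have h1 := ih fun y hy => hX y (by simp [hy])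
    have h2 : Real.exp (-(2 * β * h)) * Real.exp (-(2 * β) * |u.im|) ≤
        Real.exp (-(2 * β) * |(u - x).im|) := by
      rw [← Real.exp_add]
      refine Real.exp_le_exp.2 ?_
      have h3 : |(u - x).im| ≤ |u.im| + |x.im| := by rw [Complex.sub_im]; exact abs_sub _ _
      have h4 := (hX x (by simp)).2
      nlinarith
    push_cast
    linarith

omit [NUSea.Sea] in
/-- size of the cutoff of rows at `0` -/
theorem cfX_bd {β s h1 : ℝ} (h : NUP1.Adm β s) {X : List ℂ} (hX : Row0 h1 X) {u : ℂ}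
    (hu : |u.re + NUP1.l / 2| ≤ s) :
    ‖NUP1.phi β X u - 1‖ ≤ Real.exp (-(NUP1.cl β * NUP1.kap β s / 2 * Real.exp (-(2 * β * h1)) *
      (X.length * Real.exp (-(2 * β) * |u.im|)))) ∧
    ‖NUP1.phi β X u‖ ≤ 4 / NUP1.kap β s * Real.exp (2 * β * h1) *
      (X.length * Real.exp (-(2 * β) * |u.im|)) ∧
    ‖NUP1.phi β X u‖ ≤ 2 := by
  have hk := h.kap_pos
  have hc := h.cl_pos
  have hu' : ∀ x ∈ X, |(u - x).re + NUP1.l / 2| ≤ s := fun x hx => by
    rw [Complex.sub_re, (hX x hx).1, sub_zero]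
    exact hu
  refine ⟨?_, ?_, NUP1.norm_phi_le_two h hu'⟩
  · refine (NUP1.norm_phi_sub_one h hu').trans (Real.exp_le_exp.2 (neg_le_neg ?_))
    have h2 := sum_row0 h.pos.le hX u
    calc NUP1.cl β * NUP1.kap β s / 2 * Real.exp (-(2 * β * h1)) *
          (X.length * Real.exp (-(2 * β) * |u.im|)) = NUP1.cl β * NUP1.kap β s / 2 *
          (X.length * (Real.exp (-(2 * β * h1)) * Real.exp (-(2 * β) * |u.im|))) := by ring
      _ ≤ _ := mul_le_mul_of_nonneg_left h2 (by positivity)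
  · refine (NUP1.norm_phi_le' h hu' (r := h1) fun x hx => (hX x hx).2).trans (le_of_eq ?_)
    ring

/-- **the majorant of the cutoff of rows at `0`** -/
theorem exists_cutX {ep : ℝ} (h0 : 0 < ep) (h1 : ep ≤ 1 / 100) (hh : ℝ) : ∃ C : ℝ, 1 ≤ C ∧
    ∀ n : ℕ, 1 ≤ n →
    ∃ B B' : ℝ → ℝ, ContDiff ℝ 4 B ∧ (∀ t, HasDerivAt B (B' t) t) ∧ (∀ t, 0 ≤ B t) ∧ (∀ t, B t ≤ 1) ∧
      (∀ t, |B' t| ≤ C) ∧
      Integrable (fun t => (n : ℝ) * NUSea.P t * B t) ∧ (∫ t, (n : ℝ) * NUSea.P t * B t) ≤ C ∧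
      Integrable (fun t => B t ^ 2 + B' t ^ 2) ∧ (∫ t, B t ^ 2 + B' t ^ 2) ≤ C ∧
      ∀ X : List ℂ, Row0 hh X → X.length = n → ∀ u : ℂ, |u.re + NUP1.l / 2| ≤ NUSea.H0.sEC ep →
        ‖NUP1.phi (4 / 3 * (1 - ep)) X u‖ ≤ Real.exp (B u.im) ∧
        ‖NUP1.phi (4 / 3 * (1 - ep)) X u‖ ≤ C * n * Real.exp (-(8 / 3 * (1 - ep)) * |u.im|) ∧
        ‖NUP1.phi (4 / 3 * (1 - ep)) X u‖ ≤ 2 := by
  have h := NUSea.H0.adm_sEC h0 h1
  have hk := h.kap_pos
  have hc := h.cl_pos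
  have e1 : (2 : ℝ) * (4 / 3 * (1 - ep)) = 8 / 3 * (1 - ep) := by ring
  obtain ⟨C, hC1, hC⟩ := NUSea.H0.exists_Bl (p := 8 / 3 * (1 - ep))
    (c := NUP1.cl (4 / 3 * (1 - ep)) * NUP1.kap (4 / 3 * (1 - ep)) (NUSea.H0.sEC ep) / 2 *
      Real.exp (-(8 / 3 * (1 - ep) * hh)))
    (C1 := 4 / NUP1.kap (4 / 3 * (1 - ep)) (NUSea.H0.sEC ep) * Real.exp (8 / 3 * (1 - ep) * hh))
    (by linarith) (by linarith) (by positivity) (by positivity)
  refine ⟨C, hC1, fun n hn => ?_⟩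
  obtain ⟨B, B', g1, g2, g3, g4, g5, g6, g7, g8, g9, g10, g11⟩ := hC n hn
  have hB' : B' = deriv B := funext fun t => (g2 t).deriv.symm
  refine ⟨B, B', g1, g2, g3, g4, fun t => ?_, g7, g8, g9, g10, fun X hX hXn u hu => ?_⟩
  · have h2 := g5 1 (by norm_num) t
    rw [iteratedDeriv_one, ← hB'] at h2
    exact h2
  · obtain ⟨k1, k2, k3⟩ := cfX_bd h hX hu
    rw [e1, hXn] at k1 k2
    obtain ⟨a1, a2⟩ := g11 u.im ‖NUP1.phi (4 / 3 * (1 - ep)) X u‖ (by
      have k4 : ‖NUP1.phi (4 / 3 * (1 - ep)) X u‖ ≤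
          ‖NUP1.phi (4 / 3 * (1 - ep)) X u - 1‖ + ‖(1 : ℂ)‖ := by
        have := norm_add_le (NUP1.phi (4 / 3 * (1 - ep)) X u - 1) 1
        rwa [sub_add_cancel] at this
      rw [norm_one] at k4
      linarith) k2
    exact ⟨a1, a2, k3⟩

omit [NUSea.Sea] in
/-- the cutoff of rows at `0` is `1` in the bulk up to a small error -/
theorem phi_bulk {ep e δ : ℝ} (hep : 0 < ep) (hep1 : ep < 1) (he : 0 < e) (_he1 : e ≤ 1) (hδ : 0 < δ)
    (hh : ℝ) : ∃ m0 : ℕ, 1 ≤ m0 ∧ ∀ m : ℕ, m0 ≤ m → ∀ X : List ℂ, Row0 hh X → m ≤ X.length → ∀ z : ℂ,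
      |z.re| ≤ NUS4.R1f e m + 5 → |z.im| ≤ ep / 2 →
      ‖NUP1.phi (4 / 3 * (1 - ep)) X (NUS4.uz z) - 1‖ ≤ δ := by
  have hA := NUP1.adm (ε := ep) (r := ep / 2) hep hep1 (by positivity) le_rfl
  set β := 4 / 3 * (1 - ep) with hβ
  set sa := 3 * NUP1.l / 2 + ep / 2 with hsa
  have hk := hA.kap_pos
  have hc := hA.cl_pos
  set c0 := NUP1.cl β * NUP1.kap β sa / 2 * Real.exp (-(2 * β * hh)) with hc0
  have hc00 : 0 < c0 := by positivity
  have h1 : Tendsto (fun m : ℕ => (m : ℝ) ^ e) atTop atTop :=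
    (tendsto_rpow_atTop he).comp tendsto_natCast_atTop_atTop
  obtain ⟨m1, hm1⟩ := eventually_atTop.1 (h1.eventually_ge_atTop (Real.exp 11 * (-Real.log δ) / c0))
  refine ⟨max 1 m1, le_max_left _ _, fun m hm X hX hXm z hz hz' => ?_⟩
  have hm0 : 1 ≤ m := (le_max_left _ _).trans hm
  have hmr : (1 : ℝ) ≤ m := by exact_mod_cast hm0
  have hmp : (0 : ℝ) < m := by linarith
  have hL := Real.log_nonneg hmr
  have hin : |(NUS4.uz z).re + NUP1.l / 2| ≤ sa := by
    rw [NUS4.uz_re, hsa, abs_le]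
    obtain ⟨a1, a2⟩ := abs_le.1 hz'
    have := NUP1.l_pos
    constructor <;> linarith
  obtain ⟨h2, -, -⟩ := cfX_bd hA hX hin
  rw [NUS4.uz_im] at h2
  refine h2.trans ?_
  have h3 : Real.exp (-11) * (m : ℝ) ^ (-(1 - e)) ≤ Real.exp (-(2 * β) * |z.re|) := by
    rw [Real.rpow_def_of_pos hmp, ← Real.exp_add]
    refine Real.exp_le_exp.2 ?_
    have h4 : 2 * β * |z.re| ≤ 8 / 3 * |z.re| := by
      refine mul_le_mul_of_nonneg_right ?_ (abs_nonneg _)
      rw [hβ]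
      linarith
    have h5 : 8 / 3 * |z.re| ≤ 8 / 3 * (NUS4.R1f e m + 5) := by linarith
    unfold NUS4.R1f at h5
    nlinarith
  have hXr : (m : ℝ) ≤ X.length := by exact_mod_cast hXm
  have h6 : c0 * (Real.exp (-11) * (m : ℝ) ^ e) ≤ c0 * (X.length * Real.exp (-(2 * β) * |z.re|)) := by
    refine mul_le_mul_of_nonneg_left ?_ hc00.le
    have h7 : (m : ℝ) ^ e = m * (m : ℝ) ^ (-(1 - e)) := by
      rw [← Real.rpow_one_add' hmp.le (by linarith)]
      congr 1
      ring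
    rw [h7]
    calc Real.exp (-11) * (m * (m : ℝ) ^ (-(1 - e))) = m * (Real.exp (-11) * (m : ℝ) ^ (-(1 - e))) := by
          ring
      _ ≤ X.length * Real.exp (-(2 * β) * |z.re|) := mul_le_mul hXr h3 (by positivity) (by positivity)
  have h8 := hm1 m ((le_max_right _ _).trans hm)
  have h9 : -Real.log δ ≤ c0 * (Real.exp (-11) * (m : ℝ) ^ e) := by
    have h11 : Real.exp (-11) * Real.exp 11 = 1 := by
      rw [← Real.exp_add]
      simp
    have h10 : c0 * (Real.exp (-11) * (Real.exp 11 * (-Real.log δ) / c0)) = -Real.log δ := by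
      calc c0 * (Real.exp (-11) * (Real.exp 11 * (-Real.log δ) / c0)) =
          (Real.exp (-11) * Real.exp 11) * (-Real.log δ) * (c0 / c0) := by ring
        _ = -Real.log δ := by rw [h11, div_self hc00.ne', one_mul, mul_one]
    rw [← h10]
    gcongr
  calc Real.exp (-(c0 * (X.length * Real.exp (-(2 * β) * |z.re|)))) ≤ Real.exp (Real.log δ) :=
        Real.exp_le_exp.2 (by linarith)
    _ = δ := Real.exp_log hδ

omit [NUSea.Sea] in
/-- **the logarithm of the cutoff of rows at `0` in the bulk** -/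
theorem exists_logX {ep e δ : ℝ} (hep : 0 < ep) (hep1 : ep < 1) (he : 0 < e) (he1 : e ≤ 1)
    (hδ : 0 < δ) (hh : ℝ) : ∃ m0 : ℕ, 1 ≤ m0 ∧ ∀ m : ℕ, m0 ≤ m → ∀ X : List ℂ, Row0 hh X →
      m ≤ X.length → ∀ z : ℂ, |z.re| ≤ NUS4.R1f e m + 5 → |z.im| ≤ ep / 2 →
      DifferentiableAt ℂ (fun z => Complex.log (NUP1.phi (4 / 3 * (1 - ep)) X (NUS4.uz z))) z ∧
      ‖Complex.log (NUP1.phi (4 / 3 * (1 - ep)) X (NUS4.uz z))‖ ≤ δ ∧
      ‖NUP1.phi (4 / 3 * (1 - ep)) X (NUS4.uz z)‖ =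
        Real.exp (Complex.log (NUP1.phi (4 / 3 * (1 - ep)) X (NUS4.uz z))).re := by
  obtain ⟨m0, h0, H⟩ := phi_bulk (δ := min (1 / 4) (2 / 3 * δ)) hep hep1 he he1
    (lt_min (by norm_num) (by linarith)) hh
  refine ⟨m0, h0, fun m hm X hX hXm z hz hz' => ?_⟩
  have h2' := H m hm X hX hXm z hz hz'
  have h2 := h2'.trans (min_le_left _ _)
  have h2d := h2'.trans (min_le_right _ _)
  obtain ⟨w, hw⟩ : ∃ w : ℂ, w = NUP1.phi (4 / 3 * (1 - ep)) X (NUS4.uz z) - 1 := ⟨_, rfl⟩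
  have hph : NUP1.phi (4 / 3 * (1 - ep)) X (NUS4.uz z) = 1 + w := by rw [hw]; ring
  rw [← hw] at h2 h2d
  have hsl : 1 + w ∈ Complex.slitPlane := Complex.mem_slitPlane_of_norm_lt_one (by linarith)
  have hne : (1 + w) ≠ 0 := Complex.slitPlane_ne_zero hsl
  refine ⟨?_, ?_, ?_⟩
  · have hA := NUP1.adm (ε := ep) (r := ep / 2) hep hep1 (by positivity) le_rfl
    have hin : ∀ x ∈ X, |(NUS4.uz z - x).re + NUP1.l / 2| ≤ 3 * NUP1.l / 2 + ep / 2 := by
      intro x hx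
      rw [Complex.sub_re, (hX x hx).1, sub_zero, NUS4.uz_re, abs_le]
      obtain ⟨a1, a2⟩ := abs_le.1 hz'
      have := NUP1.l_pos
      constructor <;> linarith
    have hd := NUP1.differentiableAt_phi hA hin
    have hu : DifferentiableAt ℂ NUS4.uz z := by
      unfold NUS4.uz
      fun_prop
    refine DifferentiableAt.clog (hd.comp z hu) ?_
    show NUP1.phi (4 / 3 * (1 - ep)) X (NUS4.uz z) ∈ Complex.slitPlane
    rw [hph]
    exact hsl
  · rw [hph]
    have h5 := Complex.norm_log_one_add_half_le_self (z := w) (by linarith)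
    linarith
  · rw [hph, ← Complex.norm_exp, Complex.exp_log hne]

/-- **the cutoff of rows at `0` is admissible**: at least `m`, at most `3 m` rows -/
theorem exists_cutR0 {ep e1 : ℝ} (h0 : 0 < ep) (h1 : ep ≤ 1 / 100) (he : 0 < e1) (he1 : e1 ≤ 1 / 100)
    (hh : ℝ) : ∃ C0 : ℝ, 1 ≤ C0 ∧ ∃ m0 : ℕ, 1 ≤ m0 ∧ ∀ m : ℕ, m0 ≤ m → ∀ (Cc : ℝ) (η η1 : ℝ → ℝ),
    CrvP e1 Cc m η η1 → ∀ X : List ℂ, Row0 hh X → m ≤ X.length → X.length ≤ 3 * m →
    ∃ Bc Bc' : ℝ → ℝ, CutR ep C0 ((1 - e1) * Tb (Real.log m)) m (cfX (4 / 3 * (1 - ep)) X η) Bc Bc' := by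
  obtain ⟨C, hC, HC⟩ := exists_cutX (ep := ep) h0 h1 hh
  obtain ⟨CE, hCE, HE⟩ := NUR2.ext_anal 4 (κ := ep / 2) (by positivity) (by linarith)
  have hδ : 0 < CE⁻¹ := by positivity
  obtain ⟨m1, hm1, HL⟩ := exists_logX (ep := ep) (e := e1) (δ := CE⁻¹) h0 (by linarith) he
    (by linarith) hδ hh
  have h2 : Filter.Tendsto (fun m : ℕ => (m : ℝ) ^ (-(e1 / 2))) Filter.atTop (nhds 0) :=
    (tendsto_rpow_neg_atTop (by positivity)).comp tendsto_natCast_atTop_atTop
  have h3 := h2.eventually_lt_const (u := ep / 4) (by positivity)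
  obtain ⟨m2, hm2⟩ := Filter.eventually_atTop.1 h3
  refine ⟨3 * C, by linarith, max m1 m2, hm1.trans (le_max_left _ _),
    fun m hm Cc η η1 hcv X hX hXm hX2 => ?_⟩
  have k1 : m1 ≤ m := (le_max_left _ _).trans hm
  have k2 := hm2 m ((le_max_right _ _).trans hm)
  have hm1' : (1 : ℝ) ≤ m := by exact_mod_cast hm1.trans k1
  obtain ⟨ε, e, hcur, hε0, hε, hε1⟩ := hcv.cur
  have hη : ∀ t, |η t| ≤ ε := fun t => hcur.O4.1 t
  have hη2 : ∀ t, |η t| < ep / 4 := fun t => (hη t).trans_lt (hε.trans_lt k2)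
  have hηc : Continuous η := continuous_iff_continuousAt.2 fun t => (hcv.d t).continuousAt
  have hl := NUP1.l_pos
  have hl2 : (1 : ℝ) / 100 < NUP1.l := by
    unfold NUP1.l
    linarith [Real.pi_gt_three]
  have hst : ∀ t, |(NUO.pA η t).re + NUP1.l / 2| ≤ NUSea.H0.sEC ep := fun t =>
    NUSea.H0.pA_strip h0 (by have := hcv.nn t; have : 0 ≤ 3 / 4 * NUP1.l * ep := by positivity
                             linarith)
      ((le_abs_self _).trans ((hη t).trans (by linarith)))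
  have hn1 : 1 ≤ X.length := (hm1.trans k1).trans hXm
  have hmn : (m : ℝ) ≤ X.length := by exact_mod_cast hXm
  have hnm : (X.length : ℝ) ≤ 3 * m := by exact_mod_cast hX2
  obtain ⟨B, B', g1, g2, g3, g4, g5, g7, g8, g9, g10, g11⟩ := HC X.length hn1
  have hb : ∀ t, cfX (4 / 3 * (1 - ep)) X η t ≤ Real.exp (B t) ∧
      cfX (4 / 3 * (1 - ep)) X η t ≤ C * X.length * Real.exp (-(8 / 3 * (1 - ep)) * |t|) ∧
      cfX (4 / 3 * (1 - ep)) X η t ≤ 2 := fun t => by
    have h4 := g11 X hX rfl (NUO.pA η t) (hst t)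
    rw [NUSea.H0.pA_im] at h4
    exact h4
  have hB' : B' = deriv B := funext fun t => (g2 t).deriv.symm
  have hPc : Continuous (NUSea.P : ℝ → ℝ) := NUSea.P_cont
  have hle : ∀ t, (m : ℝ) * NUSea.P t * B t ≤ X.length * NUSea.P t * B t := fun t =>
    mul_le_mul_of_nonneg_right (mul_le_mul_of_nonneg_right hmn (NUSea.P_pos t).le) (g3 t)
  have hI : Integrable fun t => (m : ℝ) * NUSea.P t * B t := by
    refine g7.mono' ((continuous_const.mul hPc).mul g1.continuous).aestronglyMeasurable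
      (ae_of_all _ fun t => ?_)
    rw [Real.norm_eq_abs, abs_of_nonneg (mul_nonneg (mul_nonneg (by linarith) (NUSea.P_pos t).le)
      (g3 t))]
    exact hle t
  refine ⟨B, B', ?_⟩
  exact
    { meas := cfX_meas _ X hηc
      nn := fun t => norm_nonneg _
      Bd := g2
      Bcc := by
        rw [hB']
        exact g1.continuous_deriv (by norm_num)
      B0 := g3
      B1 := g4
      PI := hI
      PC := ((integral_mono hI g7 hle).trans g8).trans (by linarith)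
      EI := g9
      EC := g10.trans (by linarith)
      le := fun t => (hb t).1
      le2 := fun t => (hb t).2.2
      dec := fun t => by
        refine (hb t).2.1.trans (mul_le_mul_of_nonneg_right ?_ (Real.exp_pos _).le)
        nlinarith
      ext := by
        have hbd : (1 - e1) * Tb (Real.log m) = NUS4.R1f e1 m + 1 := by
          unfold NUS4.R1f Tb
          ring
        have hO : NUOC.O 4 1 η := hcur.O4.mono (by linarith)
        have h5 := HE (b := (1 - e1) * Tb (Real.log m)) (A := CE⁻¹)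
          (F := fun z => Complex.log (NUP1.phi (4 / 3 * (1 - ep)) X (NUS4.uz z))) (η := η) hδ.le
          (fun z hz => ((HL m k1 X hX hXm z (by rw [hbd] at hz; linarith [hz.1]) hz.2.le).1
            ).differentiableWithinAt)
          (fun z hz hz' => (HL m k1 X hX hXm z (by rw [hbd] at hz; linarith) hz'.le).2.1) hO
          (fun x => by linarith [hη2 x])
        rw [mul_inv_cancel₀ (by positivity)] at h5
        refine ⟨_, h5, fun t ht => ?_⟩
        have hre : |((t : ℂ) + (η t : ℂ) * Complex.I).re| ≤ NUS4.R1f e1 m + 5 := by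
          have : ((t : ℂ) + (η t : ℂ) * Complex.I).re = t := by simp
          rw [this]
          rw [hbd] at ht
          linarith
        have him : |((t : ℂ) + (η t : ℂ) * Complex.I).im| ≤ ep / 2 := by
          have := hη2 t
          have e3 : ((t : ℂ) + (η t : ℂ) * Complex.I).im = η t := by simp
          rw [e3]
          linarith
        obtain ⟨-, -, d3⟩ := HL m k1 X hX hXm _ hre him
        rw [← d3, NUS4.uz_curve]
        rfl }

/-- the cutoff `1 - psi ^ n`, `m ≤ n ≤ 3 m` -/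
theorem exists_cutR0_ph {ep e1 : ℝ} (h0 : 0 < ep) (h1 : ep ≤ 1 / 100) (he : 0 < e1)
    (he1 : e1 ≤ 1 / 100) : ∃ C0 : ℝ, 1 ≤ C0 ∧ ∃ m0 : ℕ, 1 ≤ m0 ∧ ∀ m : ℕ, m0 ≤ m →
    ∀ (Cc : ℝ) (η η1 : ℝ → ℝ), CrvP e1 Cc m η η1 → ∀ n : ℕ, m ≤ n → n ≤ 3 * m →
    ∃ Bc Bc' : ℝ → ℝ, CutR ep C0 ((1 - e1) * Tb (Real.log m)) m
      (fun t => ‖NUO.ph n (4 / 3 * (1 - ep)) (NUO.pA η t)‖) Bc Bc' := by
  obtain ⟨C0, hC0, m0, hm0, H⟩ := exists_cutR0 h0 h1 he he1 0
  refine ⟨C0, hC0, m0, hm0, fun m hm Cc η η1 hcv n hn hn2 => ?_⟩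
  obtain ⟨Bc, Bc', h2⟩ := H m hm Cc η η1 hcv (List.replicate n 0) (row0_rep le_rfl n)
    (by rw [List.length_replicate]; exact hn) (by rw [List.length_replicate]; exact hn2)
  have e : cfX (4 / 3 * (1 - ep)) (List.replicate n 0) η =
      fun t => ‖NUO.ph n (4 / 3 * (1 - ep)) (NUO.pA η t)‖ := funext fun t => cfX_rep _ n η t
  rw [e] at h2
  exact ⟨Bc, Bc', h2⟩

end

end PotH
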