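import Pool.Agent.NUGC.InC

/-!
# TARGET-C with a real potential: the data (definitions)

Everything as in `NUGC.InC`, with an additional bounded real potential `H a t` (species `a`, height `t`)
in the one body factors, for an abstract curve `η`, an abstract cutoff of the rows `cr`, every number
of rows `m`.

* `HOk`: admissible potentials; `CrvP`: admissible curves; `CutR`: admissible cutoffs of the rows;
* `inH`, `raH`, `cfH`, `aCH`: extra data, real rest, cutoff, species factor;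
* `DatGH`: the data of every configuration.
-/

set_option autoImplicit false
set_option linter.unusedSectionVars false

noncomputable section

open MeasureTheory Finset Filter Topology

namespace PotH

open NUO (Xo ht Par Tb TW excS chgO)
open NUSea.H0 (Inp Gd TG BF cfP hfar aR datO DatC)
open NUGC (pE qE CcF SC chG gP muS tauS FamOk)

/-- **admissible potentials**: bounded by `B0`, energy on `[-T, T]` at most `N0 + th T`, on `|t| ≤ b`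
four derivatives bounded by `A` -/
structure HOk (B0 N0 th b A : ℝ) (H H' : Bool → ℝ → ℝ) : Prop where
  d : ∀ a t, HasDerivAt (H a) (H' a t) t
  c : ∀ a, Continuous (H' a)
  le : ∀ a t, |H a t| ≤ B0
  en : ∀ a T, 0 ≤ T → ∫ t in (-T)..T, (H a t ^ 2 + H' a t ^ 2) ≤ N0 + th * T
  ext : ∀ a, NUR2.Ext 4 b A (H a)

variable [NUSea.Sea]

/-- **admissible curves**: `m` rows, window `(1 - e1) Tb`; the current `m P η` is Lipschitz -/
structure CrvP (e1 Cc : ℝ) (m : ℕ) (η η1 : ℝ → ℝ) : Prop where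
  cur : ∃ (ε : ℝ) (e : ℝ → ℝ),
    NUSea.Cur m ε (Cc * Real.log m) ((1 - e1) * Tb (Real.log m)) e η ∧ 0 ≤ ε ∧
      ε ≤ (m : ℝ) ^ (-(e1 / 2)) ∧ ε ≤ 1 / 100
  d : ∀ t, HasDerivAt η (η1 t) t
  c : Continuous η1
  nn : ∀ t, 0 ≤ η t
  lip : ∀ t t', |(m : ℝ) * NUSea.P t * η t - (m : ℝ) * NUSea.P t' * η t'| ≤ |t - t'|

/-- **admissible cutoffs of the rows** on the curve: `cr` the cutoff, `Bc` its majorant; in the bulk
`|t| ≤ b` its logarithm is smooth -/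
structure CutR (ep C0 b : ℝ) (m : ℕ) (cr Bc Bc' : ℝ → ℝ) : Prop where
  meas : Measurable cr
  nn : ∀ t, 0 ≤ cr t
  Bd : ∀ t, HasDerivAt Bc (Bc' t) t
  Bcc : Continuous Bc'
  B0 : ∀ t, 0 ≤ Bc t
  B1 : ∀ t, Bc t ≤ 1
  PI : Integrable (fun t => (m : ℝ) * NUSea.P t * Bc t)
  PC : ∫ t, (m : ℝ) * NUSea.P t * Bc t ≤ C0
  EI : Integrable (fun t => Bc t ^ 2 + Bc' t ^ 2)
  EC : ∫ t, Bc t ^ 2 + Bc' t ^ 2 ≤ C0
  le : ∀ t, cr t ≤ Real.exp (Bc t)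
  le2 : ∀ t, cr t ≤ 2
  dec : ∀ t, cr t ≤ C0 * m * Real.exp (-(8 / 3 * (1 - ep)) * |t|)
  ext : ∃ Ec : ℝ → ℝ, NUR2.Ext 4 b 1 Ec ∧ ∀ t, |t| ≤ b → cr t = Real.exp (Ec t)

/-- **the extra data**: row number `m`, curve `η`, groups at the pinned heights, `B1` the majorant of
the cutoff, `H` the potential, `b'` the tilt -/
def inH (η η1 : ℝ → ℝ) (m : ℕ) (T1 b' : ℝ) {G : ℕ} (g : Fin G → Gd) (B1 : ℝ → ℝ)
    (H : Bool → ℝ → ℝ) : Inp where
  s := m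
  η := η
  η1 := η1
  A a z := NUSp.DD pE qE (List.ofFn fun i => (gP T1 g i).G) a z
  B a t := B1 t + BF T1 g η a t + H a t - b' / 2
  ν := muS (TG (gP T1 g))
  τD := tauS (TG (gP T1 g))

/-- the real rest of the one body factor -/
def raH (η : ℝ → ℝ) (T1 b' : ℝ) {G : ℕ} (g : Fin G → Gd) (H : Bool → ℝ → ℝ) (a : Bool) (t : ℝ) : ℝ :=
  BF T1 g η a t + H a t - b' / 2

/-- the cutoff factor: cutoff of the rows `cr`, far factor of the groups -/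
def cfH (cr : ℝ → ℝ) (G : ℕ) (T1 x : ℝ) (t : ℝ) : ℝ := cr t * hfar (CcF G) T1 x t

/-- the species factor of the one body factors of a configuration -/
def aCH (η η1 : ℝ → ℝ) (m : ℕ) (T1 b' : ℝ) {G : ℕ} (g : Fin G → Gd) (B1 : ℝ → ℝ)
    (H : Bool → ℝ → ℝ) {r : ℕ} (O : Fin r → Xo) (a : Bool) (t : ℝ) : ℝ :=
  aR (datO (inH η η1 m T1 b' g B1 H) (NUSea.O.par0 m) O) (raH η T1 b' g H) a t

/-- **the data of every configuration, with a potential.**  `W` is absolute; the cutoff is bounded at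
the end of the window `TW` for every excess `x`; groups and objects at heights at most `(log m)²`: the
one body factors in the bulk. -/
def DatGH : Prop :=
  ∀ G : ℕ, ∃ W : ℝ, 0 ≤ W ∧ ∀ ep : ℝ, 0 < ep → ep ≤ 1 / 100 → ∀ e1 : ℝ, 0 < e1 → e1 ≤ 1 / 100 →
    ∀ Cc C0 : ℝ, 1 ≤ Cc → 1 ≤ C0 → ∀ B0 N0 : ℝ, 0 ≤ B0 → 0 ≤ N0 →
    ∃ (k : ℕ) (κ CB w C : ℝ), 0 < κ ∧ 0 ≤ CB ∧ 0 < w ∧ w ≤ 1 / 10 ∧ 0 ≤ C ∧
    ∀ ϑ : ℝ, 0 < ϑ → ∃ d : ℝ, 0 < d ∧ ∃ m0 : ℕ, ∀ m : ℕ, m0 ≤ m →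
    ∀ η η1 : ℝ → ℝ, CrvP e1 Cc m η η1 →
    ∀ cr Bc Bc' : ℝ → ℝ, CutR ep C0 ((1 - e1) * Tb (Real.log m)) m cr Bc Bc' →
    ∀ b' : ℝ, |b'| ≤ d → ∀ (T1 x : ℝ) (g : Fin G → Gd), TW ep e1 m ≤ T1 → FamOk T1 x g →
    ∃ B1 : ℝ → ℝ, ContDiff ℝ 1 B1 ∧ (∀ t, 0 ≤ B1 t) ∧ (∀ t, B1 t ≤ W) ∧
      Integrable (fun t => (m : ℝ) * NUSea.P t * B1 t) ∧ (∫ t, (m : ℝ) * NUSea.P t * B1 t) ≤ C ∧
    ∀ H H' : Bool → ℝ → ℝ, HOk B0 N0 d ((1 - e1) * Tb (Real.log m)) (Real.log m ^ 3) H H' →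
    ∀ nX nY : ℕ, nX ≤ 8 * m → nY ≤ 8 * m → (nX : ℝ) - nY = -chG g →
    ∀ r : ℕ, r ≤ 8 * m → ∀ O : Fin r → Xo, chgO O true ≤ nX → chgO O false ≤ nY →
      TW ep e1 m + excS (TW ep e1 m) O ≤ T1 →
    ∃ D : ℝ, DatC ep e1 κ CB ϑ k m (inH η η1 m T1 b' g B1 H) (NUSea.O.par0 m) O
        (fun i => (gP T1 g i).τ) (nX - chgO O true) (nY - chgO O false)
        (aCH η η1 m T1 b' g B1 H O true) (aCH η η1 m T1 b' g B1 H O false)
        (cfH cr G T1 x) B1 T1 D (49 / 20) (SC G x) ∧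
      D * Real.exp (-(49 / 20 * TW ep e1 m)) ≤ SC G x ∧
      ((∀ i, |(g i).τ| ≤ Real.log m ^ 2) → (r : ℝ) + G ≤ Real.log m →
        (∀ i, |ht (O i)| ≤ Real.log m ^ 2) →
        NUS4C.GD m k κ e1 w m (2 * Real.log m ^ 2) ((1 - e1) * Tb (Real.log m)) η η1 η η1
          (fun t => aCH η η1 m T1 b' g B1 H O true t * cfH cr G T1 x t)
          (fun t => aCH η η1 m T1 b' g B1 H O false t * cfH cr G T1 x t))

end PotH

end
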