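import Pool.Agent.NUGC.ExpS
import Pool.Agent.NUGC.LinT
import Pool.Agent.PotH.InH

/-!
# The exponent of a configuration with groups and a real potential, general sea

The linear term of the ends and of the groups, the energy of the current and the full current on the
objects are kept exactly.

* `exists_enD`: `NUGC.exists_enC` with the exact linear term, ends at any height;
* `exists_enSX`: families `g : Fin n → Gd`, `n ≤ 2`;
* `crH`, `phG`, `linH`: current, phase of a group, exact linear term;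
* `seaLin_abs`: sea terms of the pinned groups and remainders against the true heights;
* **`exists_enH`**: the exponent of the data `inH`.
-/

set_option autoImplicit false
set_option linter.unusedSectionVars false

noncomputable section

open MeasureTheory Finset Filter Topology

namespace PotH

open NUGC
open NUO (Kind Xo kd ht sp Par PG wK cons slkK rr Tb TW)
open NUStabP (enC)
open NUDispW (win)
open NUMF (l l_pos)
open NUSea (Cur P hd)
open NUSea.H0 (Inp IOk datO wO Gd TG SpI BF BF1 gS)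

variable [NUSea.Sea]

/-- **the exponent of a configuration with ends and groups**, exact linear term and energy of the
current -/
theorem exists_enD {W : ℝ} (hW : 0 ≤ W) : ∃ K0 : ℝ, 0 ≤ K0 ∧ ∀ kap : ℝ, 0 < kap → ∀ κ CB : ℝ, 0 < κ →
    0 ≤ CB → ∀ k : ℕ, ∀ δ0 N : ℝ, 1 / 10 < δ0 → δ0 ≤ 1 → 2 ≤ N → ∀ n : ℕ,
    ∃ (Cc : ℝ) (m0 : ℕ), ∀ m ≥ m0, ∀ e1 : ℝ, 0 < e1 → e1 ≤ 1 / 100 →
    ∀ (I : Inp) (Q : Par) (r : ℕ) (O : Fin r → Xo) (ι : Type) [Fintype ι] (T : ι → Sr),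
    EnOk e1 κ W CB k m I Q O T → (∀ t t', |curI I t - curI I t'| ≤ |t - t'|) →
    ∀ (p q : ℂ) (G : Fin n → NUSp.Grp) (τ : Fin n → ℝ),
      NUO.Away δ0 p → NUO.Away δ0 q → q.im = p.im → |p.re| < l → |q.re| < l →
      (∀ i, (G i).Ok δ0 (τ i)) → (∀ i, NUSp.gn (G i) ≤ N) →
      (∀ a z, |z.im| < l / 10 → I.A a z = ∑ i, NUSea.H0.fD p q G i a z) →
      (datO I Q O).En ≤ (∑ i, oneH I Q O (curI I) i) + enC O +
        (∑ i, ∑ d, ES (obSr Q.jL Q.e (O i)) (T d)) + 1 / 2 * (∑ d, ∑ d', ES (T d) (T d')) +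
        (∫ t : ℝ, I.s * P t * (I.A true t + I.A false t).re) + (∑ a, ∫ t, I.s * P t * I.B a t) -
        2 * (12 * l * curI I p.im + ∑ i, (NUSp.gph true (G i) + NUSp.gph false (G i)) *
          curI I (τ i)) + NUCR.bil (hd I.s I.η I.η1) (hd I.s I.η I.η1) +
        K0 * r + kap * win univ (fun i => ht (O i)) + Cc := by
  obtain ⟨K0, hK0, H⟩ := exists_enG hW
  refine ⟨K0, hK0, ?_⟩
  intro kap hkap κ CB hκ hCB k δ0 N hδ hδ1 hN n
  have hsz := szD_nonneg hδ hδ1 (by linarith : 0 ≤ N) n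
  obtain ⟨Cc, m0, H⟩ := H kap hkap κ (max CB (szD δ0 N n)) hκ (hCB.trans (le_max_left _ _)) k
  refine ⟨Cc, m0, ?_⟩
  intro m hm e1 he1 he1' I Q r O ι _ T hE hL p q G τ hp hq him hpl hql hG hn hA
  have hE' : EnOk e1 κ W (max CB (szD δ0 N n)) k m I Q O T :=
    { hE with mass := fun a => (hE.mass a).trans (le_max_left _ _) }
  have hgr := grOk_D hδ hδ1 hp hq him hG hN hn hA
  have hgr' : GrOk (max CB (szD δ0 N n)) I (kD δ0 (l / 10) G) (fun _ => 0) (φD p q G)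
      (NUSea.H0.hD p τ) (ΨD p q G) :=
    { hgr with size := hgr.size.trans (le_max_right _ _) }
  have h1 := H m hm e1 he1 he1' I Q r O ι T hE' hL _ _ _ _ _ _ hgr'
  have e1' : (∑ d, φD p q G d * curI I (NUSea.H0.hD p τ d)) =
      12 * l * curI I p.im + ∑ i, (NUSp.gph true (G i) + NUSp.gph false (G i)) * curI I (τ i) := by
    rw [Fintype.sum_option, φD_none hpl hql]
    rfl
  rw [e1'] at h1
  exact h1

/-- **the exponent of a configuration with at most two groups of spectators**, exact linear term -/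
theorem exists_enSX {WB : ℝ} (hWB : 0 ≤ WB) : ∃ K0 : ℝ, 0 ≤ K0 ∧ ∀ kap : ℝ, 0 < kap →
    ∀ κ : ℝ, 0 < κ → ∀ k : ℕ, ∃ (Cc : ℝ) (m0 : ℕ), ∀ m ≥ m0, ∀ e1 : ℝ, 0 < e1 → e1 ≤ 1 / 100 →
    ∀ n : ℕ, n ≤ 2 → ∀ (g : Fin n → Gd) (p q : ℂ) (I : Inp) (B' : Bool → ℝ → ℝ),
    SpI p q g I B' → (∀ a t, |I.B a t| ≤ WB) → (∀ t t', |curI I t - curI I t'| ≤ |t - t'|) →
    ∀ (Q : Par) (r : ℕ) (O : Fin r → Xo), Q.jL = 9 / 4 → Q.e = 1 / 4 → ∑ i, rr Q O i ≤ 1 →
    (∃ (dl ε M : ℝ) (e : ℝ → ℝ), IOk dl ε M ((1 - e1) * Tb (Real.log m)) e I Q r ∧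
      ε ≤ (m : ℝ) ^ (-κ) ∧ M ≤ Real.log m ^ k ∧
      dl ≤ 1 / (6000 * ((r : ℝ) + 1) ^ 2) + 3 * (m : ℝ) ^ (-κ)) →
      (datO I Q O).En ≤ (∑ i, oneH I Q O (curI I) i) + enC O +
        (∑ i, ∑ d, ES (obSr Q.jL Q.e (O i)) (TG g d)) +
        1 / 2 * (∑ d, ∑ d', ES (TG g d) (TG g d')) +
        (∑ i, seaG I.s (g i)) + (∑ a, ∫ t, I.s * P t * I.B a t) -
        2 * (12 * l * curI I p.im + ∑ i, (NUSp.gph true (g i).G + NUSp.gph false (g i).G) *
          curI I (g i).τ) + NUCR.bil (hd I.s I.η I.η1) (hd I.s I.η I.η1) +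
        K0 * r + kap * win univ (fun i => ht (O i)) + Cc := by
  obtain ⟨K0, hK0, H⟩ := exists_enD (W := WB + 1) (by linarith)
  obtain ⟨K, hK, HS⟩ := NUSea.H0.exists_spG
  refine ⟨K0, hK0, ?_⟩
  intro kap hkap κ hκ k
  have H := fun n => H kap hkap κ (2 * K) hκ (by linarith) k (1 / 4) 15 (by norm_num) (by norm_num)
    (by norm_num) n
  choose Cc m0 H using H
  obtain ⟨m1, hm1⟩ := polylogC (3 * K) 0 hκ one_pos
  refine ⟨|Cc 0| + |Cc 1| + |Cc 2|, max m1 (max (m0 0) (max (m0 1) (m0 2))), ?_⟩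
  intro m hm e1 he1 he1' n hn g p q I B' hS hB hL Q r O hj he hrr hok
  simp only [ge_iff_le, max_le_iff] at hm
  obtain ⟨g1, g2, g3, g4⟩ := hm
  have hmn : m0 n ≤ m := by interval_cases n <;> assumption
  have hCn : Cc n ≤ |Cc 0| + |Cc 1| + |Cc 2| := by
    have a0 := abs_nonneg (Cc 0)
    have a1 := abs_nonneg (Cc 1)
    have a2 := abs_nonneg (Cc 2)
    have b0 := le_abs_self (Cc 0)
    have b1 := le_abs_self (Cc 1)
    have b2 := le_abs_self (Cc 2)
    interval_cases n <;> linarith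
  have hmk := hm1 m g1
  rw [pow_zero, mul_one] at hmk
  obtain ⟨dl, ε, M, e, hI, hε, hM, hdl⟩ := hok
  obtain ⟨w0, -, -, -, w4, -⟩ := HS n g p q I B' hS ε M ((1 - e1) * Tb (Real.log m)) e hI.cur
    hI.der hI.ε1
  have hn2 : (n : ℝ) ≤ 2 := by exact_mod_cast hn
  have hn0 : (0 : ℝ) ≤ n := Nat.cast_nonneg n
  have hε0 : 0 ≤ ε := hI.cur.ε0
  have hwO : ∀ a t, |wO I a t| ≤ WB + 1 := by
    intro a t
    refine (w0 a t).trans (add_le_add (hB a t) ?_)
    calc K * (n + 1) * ε ≤ K * (2 + 1) * (m : ℝ) ^ (-κ) := by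
          have hK0' : 0 ≤ K := by linarith
          gcongr
      _ = 3 * K * (m : ℝ) ^ (-κ) := by ring
      _ ≤ 1 := hmk
  have hAd : NUC43.Adm Q.jL Q.e := by
    rw [hj, he]
    exact NUC43.adm0
  have hE : EnOk e1 κ (WB + 1) (2 * K) k m I Q O (TG g) :=
    { jL := hj
      e := he
      rr1 := hrr
      ok := ⟨dl, ε, M, e, hI, hε, hM, hdl⟩
      Tok := NUSea.H0.TG_ok g
      sy := fun i d => NUSea.H0.TG_sym g hAd O i d
      nu := fun a => by rw [hS.ν]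
      tau := hS.τ
      mass := fun a => (w4 a).trans (by nlinarith)
      w0 := hwO }
  have hl := l_pos
  have h1 := H n m hmn e1 he1 he1' I Q r O _ (TG g) hE hL p q (fun i => (g i).G)
    (fun i => (g i).τ) (NUSea.H0.away_p hS.hp) (NUSea.H0.away_q hS.hq) hS.him
    (by rw [hS.hp, abs_neg, abs_of_pos (by positivity)]; linarith)
    (by rw [hS.hq, abs_of_pos (by positivity)]; linarith)
    (fun i => (g i).ok) (fun i => NUSp.gn_grp _ _ _)
    (fun a z _ => by rw [hS.A, NUSea.H0.sum_fD])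
  rw [sea_fam hS] at h1
  linarith

/-! ### the exact linear term -/

/-- the current of a curve -/
def crH (η : ℝ → ℝ) (m : ℕ) (t : ℝ) : ℝ := (m : ℝ) * P t * η t

/-- the phase of a group, both species -/
def phG (g : Gd) : ℝ := NUSp.gph true g.G + NUSp.gph false g.G

/-- the phase does not depend on the height -/
theorem phG_pin (T : ℝ) (g : Gd) : phG (g.pin T) = phG g := by
  have hre : (g.pin T).w.re = g.w.re := by
    show (NUSp.wG g.c g.rt (NUSp.pin T g.τ)).re = (NUSp.wG g.c g.rt g.τ).re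
    unfold NUSp.wG NUP1.vl
    simp
  have hyw : ∀ (k : ℤ) (w w' : ℂ), w.re = w'.re → NUO.yw w k = NUO.yw w' k := by
    intro k w w' h
    unfold NUO.yw
    rw [h]
  have hwph : ∀ (L : List (ℤ × ℝ)) (w w' : ℂ), w.re = w'.re → NUSp.wph L w = NUSp.wph L w' := by
    intro L w w' h
    unfold NUSp.wph
    congr 1
    refine List.map_congr_left fun x _ => ?_
    rw [hyw x.1 w w' h]
  have h : ∀ s : Bool, NUSp.gph s (g.pin T).G = NUSp.gph s g.G := by
    intro s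
    show NUSp.gph s (NUSp.grp g.c g.σ (g.pin T).w) = NUSp.gph s (NUSp.grp g.c g.σ g.w)
    unfold NUSp.gph NUSp.grp
    cases g.c <;> simp [hwph _ _ _ hre, hwph _ ((g.pin T).w + 3 * (l : ℂ)) (g.w + 3 * (l : ℂ))
      (by simp [hre]), hwph _ ((g.pin T).w - 2 * (l : ℂ)) (g.w - 2 * (l : ℂ)) (by simp [hre])]
  unfold phG
  rw [h, h]

/-- **the exact linear term**: energy of the current, ends at height `0`, groups pinned at `T1`,
potentials against the sea -/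
def linH (η η1 : ℝ → ℝ) (m : ℕ) {n : ℕ} (g : Fin n → Gd) (T1 : ℝ) (H : Bool → ℝ → ℝ) : ℝ :=
  NUCR.bil (hd m η η1) (hd m η η1) - 24 * l * crH η m 0 -
    2 * (∑ i, phG (g i) * crH η m (NUSp.pin T1 (g i).τ)) +
    ∑ a, ∫ t, (m : ℝ) * P t * H a t

/-! ### the sea terms of the groups -/

/-- the sea term as an integral -/
theorem seaG_gS (s : ℝ) (g : Gd) : seaG s g = ∫ t : ℝ, s * P t * gS g.G t := by
  unfold seaG
  rw [← integral_const_mul]
  refine integral_congr_ae (ae_of_all _ fun t => ?_)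
  show s * (P t * _) = s * P t * _
  unfold NUSea.H0.gS
  ring

/-- sea term of a family -/
theorem sum_seaG (s : ℝ) {n : ℕ} (g : Fin n → Gd) :
    ∫ t : ℝ, s * P t * ∑ i, gS (g i).G t = ∑ i, seaG s (g i) := by
  have hi : ∀ i, Integrable fun t : ℝ => s * P t * gS (g i).G t := by
    intro i
    refine ((sea_int (g i)).const_mul s).congr (ae_of_all _ fun t => ?_)
    show s * (P t * _) = s * P t * _
    unfold NUSea.H0.gS
    ring
  rw [Finset.sum_congr rfl fun i _ => seaG_gS s (g i), ← integral_finsetSum _ fun i _ => hi i]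
  refine integral_congr_ae (ae_of_all _ fun t => ?_)
  simp only
  rw [Finset.mul_sum]

/-- **pinned heights with the remainders against the true heights**, general curve -/
theorem seaLin_abs {ep : ℝ} (h0 : 0 < ep) {e1 : ℝ} (he : 0 < e1) (he' : e1 ≤ 1 / 100) {Cc : ℝ}
    (hCc : 0 ≤ Cc) :
    ∃ (C : ℝ) (m0 : ℕ), 0 ≤ C ∧ ∀ m : ℕ, m0 ≤ m → ∀ η η1 : ℝ → ℝ, CrvP e1 Cc m η η1 →
      ∀ n : ℕ, n ≤ 2 → ∀ (g : Fin n → Gd) (T1 : ℝ), TW ep e1 m ≤ T1 →
      |(∑ i, seaG m (gP T1 g i)) + (∑ a, ∫ t, (m : ℝ) * P t * BF T1 g η a t) -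
        ∑ i, seaG m (g i)| ≤ C := by
  obtain ⟨K, hK, H⟩ := NUSea.H0.exists_linT
  have hl := l_pos
  refine ⟨K * 2 * (Cc * (1 / e1) + 1), 3, by positivity, fun m hm η η1 hc n hn g T1 hT1 => ?_⟩
  have hm1 : 1 ≤ m := by omega
  have hmp : (0 : ℝ) < m := by exact_mod_cast hm1
  obtain ⟨ε, e, hcur, hε0, -, hεx⟩ := hc.cur
  obtain ⟨L, hL⟩ : ∃ L, L = Real.log m := ⟨_, rfl⟩
  have hL1 : 1 ≤ L := by
    rw [hL, Real.le_log_iff_exp_le hmp]
    have h3 : (3 : ℝ) ≤ m := by exact_mod_cast hm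
    have := Real.exp_one_lt_d9
    linarith
  obtain ⟨T, hTd⟩ : ∃ T, T = Tb (Real.log m) := ⟨_, rfl⟩
  have hTL : T = 3 / 8 * L := by rw [hTd, hL]; rfl
  have hTW : TW ep e1 m = (1 + 2 * e1 + 2 * ep) * T := by
    rw [hTd]
    rfl
  rw [← hTd, ← hL] at hcur
  rw [hTW] at hT1
  have hT0 : 0 < T := by rw [hTL]; linarith
  have hb : (1 - e1) * T ≤ T1 := by nlinarith
  have hT10 : 0 ≤ T1 := by nlinarith
  have hgap : 3 * e1 * T ≤ T1 - (1 - e1) * T := by nlinarith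
  have hηle : ∀ t, |η t| ≤ e t := fun t => by
    have h1 := hcur.oc.le t
    have h2 : ‖NUKer.iD η t‖ = |η t| := by
      unfold NUKer.iD
      simp
    rwa [h2] at h1
  have hη : ∀ t, |η t| < l / 5 := by
    intro t
    have h5 := (hηle t).trans ((hcur.le t).trans hεx)
    have : (1 : ℝ) / 100 < l / 5 := by
      have := Real.pi_gt_three
      show (1 : ℝ) / 100 < Real.pi / 8 / 5
      linarith
    linarith
  have hHm0 : 0 ≤ Cc * L := by positivity
  have hH : ∀ t, (m : ℝ) * P t * |η t| ≤ Cc * L := by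
    intro t
    have h5 : 0 ≤ (m : ℝ) * P t := mul_nonneg hmp.le (NUSea.P_pos t).le
    exact (mul_le_mul_of_nonneg_left (hηle t) h5).trans (hcur.mass t)
  have hz : ∀ t, (1 - e1) * T < |t| → η t = 0 := by
    intro t ht
    have h5 := hηle t
    rw [hcur.supp t ht] at h5
    exact abs_nonpos_iff.1 h5
  have h := H n g T1 ((1 - e1) * T) m (Cc * L) η η1 hT10 hb hmp.le hHm0 hη hc.d hz hH
  rw [sum_seaG (m : ℝ) (fun i => (g i).pin T1), sum_seaG (m : ℝ) g] at h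
  refine h.trans ?_
  have k1 : Cc * L * Real.exp (-(T1 - (1 - e1) * T)) ≤ Cc * (1 / e1) := by
    have a1 : Real.exp (-(T1 - (1 - e1) * T)) ≤ Real.exp (-(3 * e1 * T)) :=
      Real.exp_le_exp.2 (by linarith)
    have b1 := Real.add_one_le_exp (3 * e1 * T)
    have b2 : Real.exp (-(3 * e1 * T)) * Real.exp (3 * e1 * T) = 1 := by
      rw [← Real.exp_add]
      simp
    have b3 := Real.exp_pos (-(3 * e1 * T))
    have b4 : 3 * e1 * T * Real.exp (-(3 * e1 * T)) ≤ 1 := by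
      have : 3 * e1 * T * Real.exp (-(3 * e1 * T)) ≤
          Real.exp (3 * e1 * T) * Real.exp (-(3 * e1 * T)) :=
        mul_le_mul_of_nonneg_right (by linarith) b3.le
      linarith
    have b5 : L * Real.exp (-(3 * e1 * T)) ≤ 1 / e1 := by
      rw [le_div_iff₀ he]
      have h9 : 3 * e1 * T = 9 / 8 * (e1 * L) := by rw [hTL]; ring
      rw [h9] at b4 ⊢
      nlinarith [Real.exp_pos (-(9 / 8 * (e1 * L))), mul_pos he (by linarith : 0 < L)]
    calc Cc * L * Real.exp (-(T1 - (1 - e1) * T)) ≤ Cc * L * Real.exp (-(3 * e1 * T)) :=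
          mul_le_mul_of_nonneg_left a1 hHm0
      _ = Cc * (L * Real.exp (-(3 * e1 * T))) := by ring
      _ ≤ Cc * (1 / e1) := mul_le_mul_of_nonneg_left b5 hCc
  have k2 : (m : ℝ) * Real.exp (-(8 / 3 * T1)) ≤ 1 := by
    have a1 : Real.log m ≤ 8 / 3 * T1 := by
      have b1 : 8 / 3 * T = Real.log m := by
        rw [hTd]
        unfold NUO.Tb
        ring
      nlinarith
    have a2 : Real.exp (-(8 / 3 * T1)) ≤ Real.exp (-Real.log m) := Real.exp_le_exp.2 (by linarith)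
    rw [Real.exp_neg (Real.log m), Real.exp_log hmp] at a2
    calc (m : ℝ) * Real.exp (-(8 / 3 * T1)) ≤ (m : ℝ) * (m : ℝ)⁻¹ :=
          mul_le_mul_of_nonneg_left a2 hmp.le
      _ = 1 := mul_inv_cancel₀ hmp.ne'
  have hn2 : (n : ℝ) ≤ 2 := by exact_mod_cast hn
  have k3 : 0 ≤ Cc * L * Real.exp (-(T1 - (1 - e1) * T)) +
      (m : ℝ) * Real.exp (-(8 / 3 * T1)) := by positivity
  calc K * n * (Cc * L * Real.exp (-(T1 - (1 - e1) * T)) +
        (m : ℝ) * Real.exp (-(8 / 3 * T1))) ≤ K * 2 * (Cc * L *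
        Real.exp (-(T1 - (1 - e1) * T)) + (m : ℝ) * Real.exp (-(8 / 3 * T1))) :=
        mul_le_mul_of_nonneg_right (mul_le_mul_of_nonneg_left hn2 hK) k3
    _ ≤ K * 2 * (Cc * (1 / e1) + 1) := by
        refine mul_le_mul_of_nonneg_left ?_ (by positivity)
        linarith

/-! ### the data `inH` -/

/-- size of an admissible curve -/
theorem CrvP.small {e1 Cc : ℝ} {m : ℕ} {η η1 : ℝ → ℝ} (hc : CrvP e1 Cc m η η1) :
    (∀ t, |η t| ≤ 1 / 100) ∧ (∀ t, |η1 t| ≤ 1 / 100) := by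
  obtain ⟨ε, e, hcur, hε0, -, hεx⟩ := hc.cur
  constructor
  · intro t
    have h1 := hcur.oc.le t
    have h2 : ‖NUKer.iD η t‖ = |η t| := by
      unfold NUKer.iD
      simp
    rw [h2] at h1
    exact h1.trans ((hcur.le t).trans hεx)
  · intro t
    have h1 := (hcur.oc1 hc.d).le t
    have h2 : ‖NUKer.iD η1 t‖ = |η1 t| := by
      unfold NUKer.iD
      simp
    rw [h2] at h1
    exact h1.trans ((hcur.le t).trans hεx)

/-- a twentieth of the width of the strip -/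
lemma small_l : (1 : ℝ) / 100 < l / 5 := by
  have := Real.pi_gt_three
  show (1 : ℝ) / 100 < Real.pi / 8 / 5
  linarith

/-- the data with the groups and the potential -/
theorem spI_inH {η η1 : ℝ → ℝ} {m : ℕ} {T1 b' : ℝ} {n : ℕ} (g : Fin n → Gd) {B1 : ℝ → ℝ}
    {H H' : Bool → ℝ → ℝ} (hB : ContDiff ℝ 1 B1) (hη : ∀ t, |η t| < l / 5)
    (hd : ∀ t, HasDerivAt η (η1 t) t) (hc : Continuous η1) (hH : ∀ a t, HasDerivAt (H a) (H' a t) t)
    (hH' : ∀ a, Continuous (H' a)) :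
    SpI pE qE (gP T1 g) (inH η η1 m T1 b' g B1 H) fun a t =>
      deriv B1 t + BF1 T1 g η η1 a t + H' a t where
  hp := by simp [pE]
  hq := by simp [qE]
  him := by simp [pE, qE]
  A _ _ := rfl
  ν := rfl
  τ := rfl
  dB a t := by
    have h1 := (hB.differentiable one_ne_zero t).hasDerivAt
    have h2 := NUSea.H0.hasDerivAt_BF g T1 a (hη t) (hd t)
    exact ((h1.add h2).add (hH a t)).sub_const (b' / 2)
  cB a := ((hB.continuous_deriv le_rfl).add (NUSea.H0.cont_BF1 g T1 a hη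
    (continuous_iff_continuousAt.2 fun t => (hd t).continuousAt) hc)).add (hH' a)

/-- the real potentials against the sea -/
theorem int_B_inH {η η1 : ℝ → ℝ} {m : ℕ} {T1 b' : ℝ} {n : ℕ} (g : Fin n → Gd) {B1 : ℝ → ℝ}
    {H : Bool → ℝ → ℝ} {KB B0 : ℝ} (hη : ∀ t, |η t| < l / 5) (hd : ∀ t, HasDerivAt η (η1 t) t)
    (hBi : Integrable fun t => (m : ℝ) * P t * B1 t)
    (hK : ∀ (a : Bool) (t : ℝ), |BF T1 g η a t| ≤ KB) (hHc : ∀ a, Continuous (H a))
    (hH : ∀ a t, |H a t| ≤ B0) :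
    (∑ a, ∫ t, (inH η η1 m T1 b' g B1 H).s * P t * (inH η η1 m T1 b' g B1 H).B a t) =
      2 * (∫ t, (m : ℝ) * P t * B1 t) + (∑ a, ∫ t, (m : ℝ) * P t * BF T1 g η a t) +
        (∑ a, ∫ t, (m : ℝ) * P t * H a t) - b' * m := by
  have hc : ∀ a, Continuous (BF T1 g η a) := fun a =>
    continuous_iff_continuousAt.2 fun t =>
      (NUSea.H0.hasDerivAt_BF g T1 a (hη t) (hd t)).continuousAt
  have hi : ∀ a, Integrable fun t => (m : ℝ) * P t * BF T1 g η a t := by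
    intro a
    refine ((NUSea.H0.P_B_int (hc a) (hK a)).const_mul (m : ℝ)).congr (Eventually.of_forall fun t => ?_)
    simp only
    ring
  have hj : ∀ a, Integrable fun t => (m : ℝ) * P t * H a t := by
    intro a
    refine ((NUSea.H0.P_B_int (hHc a) (hH a)).const_mul (m : ℝ)).congr
      (Eventually.of_forall fun t => ?_)
    simp only
    ring
  have h1 : ∀ a, (∫ t, (inH η η1 m T1 b' g B1 H).s * P t * (inH η η1 m T1 b' g B1 H).B a t) =
      (∫ t, (m : ℝ) * P t * B1 t) + (∫ t, (m : ℝ) * P t * BF T1 g η a t) +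
        (∫ t, (m : ℝ) * P t * H a t) - b' / 2 * m := by
    intro a
    have h2 : ∀ t, (inH η η1 m T1 b' g B1 H).s * P t * (inH η η1 m T1 b' g B1 H).B a t =
        ((m : ℝ) * P t * B1 t + (m : ℝ) * P t * BF T1 g η a t + (m : ℝ) * P t * H a t) -
          (b' / 2 * m) * P t := by
      intro t
      show (m : ℝ) * P t * (B1 t + BF T1 g η a t + H a t - b' / 2) = _
      ring
    simp_rw [h2]
    have h3 : Integrable fun t => (m : ℝ) * P t * B1 t + (m : ℝ) * P t * BF T1 g η a t :=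
      hBi.add (hi a)
    have h4 : Integrable fun t => (m : ℝ) * P t * B1 t + (m : ℝ) * P t * BF T1 g η a t +
        (m : ℝ) * P t * H a t := h3.add (hj a)
    rw [integral_sub h4 (NUSea.P_int.const_mul _), integral_add h3 (hj a), integral_add hBi (hi a),
      integral_const_mul, NUSea.P_mass, mul_one]
  rw [Fintype.sum_bool, h1, h1, Fintype.sum_bool, Fintype.sum_bool]
  ring

/-- **the exponent `En` of the data with groups and a potential**: exact linear term `linH`, full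
current on the objects, sea terms of the groups at their true heights -/
theorem exists_enH {W B0 : ℝ} (hW : 0 ≤ W) (hB0 : 0 ≤ B0) : ∃ K0 : ℝ, 0 ≤ K0 ∧
    ∀ kap : ℝ, 0 < kap → ∀ ep : ℝ, 0 < ep → ep ≤ 1 / 100 → ∀ e1 : ℝ, 0 < e1 → e1 ≤ 1 / 100 →
    ∀ Cc : ℝ, 0 ≤ Cc → ∀ (k : ℕ) (κ C : ℝ), 0 < κ → ∃ (C1 : ℝ) (m0 : ℕ), ∀ m ≥ m0,
    ∀ η η1 : ℝ → ℝ, CrvP e1 Cc m η η1 → (∀ t t', |crH η m t - crH η m t'| ≤ |t - t'|) →
    ∀ b' : ℝ, |b'| ≤ 1 → ∀ n : ℕ, n ≤ 2 → ∀ (g : Fin n → Gd) (T1 : ℝ), TW ep e1 m ≤ T1 →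
    ∀ B1 : ℝ → ℝ, ContDiff ℝ 1 B1 → (∀ t, 0 ≤ B1 t) → (∀ t, B1 t ≤ W) →
    Integrable (fun t => (m : ℝ) * P t * B1 t) → (∫ t, (m : ℝ) * P t * B1 t) ≤ C →
    ∀ H H' : Bool → ℝ → ℝ, (∀ a t, HasDerivAt (H a) (H' a t) t) → (∀ a, Continuous (H' a)) →
    (∀ a t, |H a t| ≤ B0) →
    ∀ (r : ℕ) (O : Fin r → Xo), ∑ i, NUO.rr (NUSea.O.par0 m) O i ≤ 1 →
    (∃ (dl ε M : ℝ) (e : ℝ → ℝ), NUSea.H0.IOk dl ε M ((1 - e1) * Tb (Real.log m)) e
      (inH η η1 m T1 b' g B1 H) (NUSea.O.par0 m) r ∧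
      ε ≤ (m : ℝ) ^ (-κ) ∧ M ≤ Real.log m ^ k ∧
      dl ≤ 1 / (6000 * ((r : ℝ) + 1) ^ 2) + 3 * (m : ℝ) ^ (-κ)) →
      (datO (inH η η1 m T1 b' g B1 H) (NUSea.O.par0 m) O).En ≤
        (∑ i, oneH (inH η η1 m T1 b' g B1 H) (NUSea.O.par0 m) O (crH η m) i) + enC O +
        (∑ i, ∑ d, ES (obSr (NUSea.O.par0 m).jL (NUSea.O.par0 m).e (O i)) (TG (gP T1 g) d)) +
        1 / 2 * (∑ d, ∑ d', ES (TG (gP T1 g) d) (TG (gP T1 g) d')) +
        (∑ i, seaG m (g i)) - b' * m + linH η η1 m g T1 H +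
        K0 * r + kap * win univ (fun i => ht (O i)) + C1 := by
  obtain ⟨KB, hKB, HBF⟩ := NUSea.H0.exists_BF
  obtain ⟨K0, hK0, H⟩ := exists_enSX (WB := W + KB * 2 + 1 / 2 + B0) (by positivity)
  refine ⟨K0, hK0, ?_⟩
  intro kap hkap ep hep hep1 e1 he he1 Cc hCc k κ C hκ
  obtain ⟨C1, m1, H⟩ := H kap hkap κ hκ k
  obtain ⟨CS, m3, hCS, HS⟩ := seaLin_abs hep he he1 hCc
  refine ⟨C1 + CS + 2 * C, max m1 (max m3 3), ?_⟩
  intro m hm η η1 hc hL b' hb' n hn g T1 hT1 B1 hB hB0' hB1 hBi hBC Hp Hp' hHd hHc hHb r O hrr hok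
  have hm1 : m1 ≤ m := (le_max_left _ _).trans hm
  have hm3 : m3 ≤ m := ((le_max_left _ _).trans (le_max_right _ _)).trans hm
  have hm4 : 3 ≤ m := ((le_max_right _ _).trans (le_max_right _ _)).trans hm
  have hm0 : (0 : ℝ) ≤ m := Nat.cast_nonneg m
  obtain ⟨n1, n2⟩ := hc.small
  have n3 : ∀ t, |η t| < l / 5 := fun t => (n1 t).trans_lt small_l
  have hlog : 0 ≤ Real.log m := Real.log_nonneg (by exact_mod_cast (by omega : 1 ≤ m))
  have hTW0 : 0 ≤ TW ep e1 m := by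
    unfold TW Tb
    have : 0 ≤ 1 + 2 * e1 + 2 * ep := by linarith
    exact mul_nonneg this (by linarith)
  have hT0 : 0 ≤ T1 := hTW0.trans hT1
  obtain ⟨-, -, hBF, -⟩ := HBF n g T1 η η1 hT0 (fun t => (n1 t).trans (by norm_num))
    (fun t => (n2 t).trans (by norm_num)) hc.d hc.c
  have hBF2 : ∀ (a : Bool) (t : ℝ), |BF T1 g η a t| ≤ KB * 2 := by
    intro a t
    refine (hBF a t).trans (mul_le_mul_of_nonneg_left ?_ (by linarith))
    have h1 : ∑ i, Real.exp (-2 * |t - NUSp.pin T1 (g i).τ|) ≤ ∑ _i : Fin n, (1 : ℝ) :=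
      Finset.sum_le_sum fun i _ => Real.exp_le_one_iff.2 (by
        have := abs_nonneg (t - NUSp.pin T1 (g i).τ)
        linarith)
    refine h1.trans ?_
    rw [Finset.sum_const, card_univ, Fintype.card_fin, nsmul_eq_mul, mul_one]
    exact_mod_cast hn
  have hS := spI_inH (m := m) (T1 := T1) (b' := b') g hB n3 hc.d hc.c hHd hHc
  have hBb : ∀ a t, |(inH η η1 m T1 b' g B1 Hp).B a t| ≤ W + KB * 2 + 1 / 2 + B0 := by
    intro a t
    show |B1 t + BF T1 g η a t + Hp a t - b' / 2| ≤ _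
    have h1 := hB0' t
    have h2 := hB1 t
    have h3 := abs_le.1 (hBF2 a t)
    have h4 := abs_le.1 hb'
    have h5 := abs_le.1 (hHb a t)
    rw [abs_le]
    constructor <;> linarith [h3.1, h3.2, h4.1, h4.2, h5.1, h5.2]
  have hcur : curI (inH η η1 m T1 b' g B1 Hp) = crH η m := rfl
  have h1 := H m hm1 e1 he he1 n hn (gP T1 g) pE qE (inH η η1 m T1 b' g B1 Hp) _ hS
    hBb (by rw [hcur]; exact hL) (NUSea.O.par0 m) r O rfl rfl hrr hok
  have hHc' : ∀ a, Continuous (Hp a) := fun a =>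
    continuous_iff_continuousAt.2 fun t => (hHd a t).continuousAt
  rw [int_B_inH g n3 hc.d hBi hBF2 hHc' hHb, hcur] at h1
  have h2 := (abs_le.1 (HS m hm3 η η1 hc n hn g T1 hT1)).2
  have h4 : (∑ i, seaG (inH η η1 m T1 b' g B1 Hp).s (gP T1 g i)) = ∑ i, seaG m (gP T1 g i) := rfl
  have h5 : (pE : ℂ).im = 0 := by simp [pE]
  have h6 : (∑ i, (NUSp.gph true (gP T1 g i).G + NUSp.gph false (gP T1 g i).G) *
      crH η m (gP T1 g i).τ) = ∑ i, phG (g i) * crH η m (NUSp.pin T1 (g i).τ) :=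
    Finset.sum_congr rfl fun i _ => by
      show phG ((g i).pin T1) * _ = _
      rw [phG_pin]
      rfl
  have h7 : hd (inH η η1 m T1 b' g B1 Hp).s (inH η η1 m T1 b' g B1 Hp).η
      (inH η η1 m T1 b' g B1 Hp).η1 = hd m η η1 := rfl
  rw [h4, h5, h6, h7] at h1
  unfold linH
  linarith

end PotH

end
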