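import Pool.Agent.NUO.ActInt

/-!
# The marked activity integral (module U4 of plan B)

`actIntD`: `NUO.actInt` with its explicit window constants `D = 2 (k + 3) / b`, `k' = k + 3`
(and every larger pair, `ActIntD.mono`).
`markInt`: for an object pinned near the centre (weight `exp (-2 |t|)`) and a current which is
at least the centred tent on the plateau, the tilted integral of weight times activity is at most
`exp ((δ + 3 e1 - 3 / 4) L)`, `L = log m`, i.e. `m ^ (-3/4)` up to small powers.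
`markIntC`: the same with the weight `exp (-q |t|)`, `0 ≤ q ≤ 2`.
-/

open MeasureTheory Finset Filter

noncomputable section

namespace NUO

/-- the statement `ActInt` with the window constants `D` and `k'` as arguments -/
def ActIntD (C C' c b : ℝ) (k : ℕ) (D k' : ℝ) : Prop :=
  0 < D ∧ 0 < k' ∧ ∃ B L0 : ℝ, 0 ≤ B ∧ 1 ≤ L0 ∧ ∀ L ≥ L0, ∀ ep : ℝ, 0 ≤ ep → ep ≤ 1 / 4 →
    ∀ e1 : ℝ, 0 < e1 → e1 ≤ 1 / 4 → ∀ J : ℝ, 0 ≤ J → ∀ r : ℕ, (r : ℝ) ≤ Real.exp (2 * L) →
      Integrable (fun t => act C C' c b k L ep e1 J r t *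
        Real.exp (-tilt (WZ D L r) (lamZ k' L r) t)) ∧
      ∫ t, act C C' c b k L ep e1 J r t * Real.exp (-tilt (WZ D L r) (lamZ k' L r) t) ≤
        C * (Real.exp (-(2 * Real.pi * J)) + 3 * e1 + 3 * ep) * L + B

lemma ActIntD.actInt {C C' c b : ℝ} {k : ℕ} {D k' : ℝ} (h : ActIntD C C' c b k D k') :
    ActInt C C' c b k := by
  obtain ⟨hD, hk', B, L0, hB, _, h⟩ := h
  exact ⟨D, k', B, L0, hD, hk', hB, h⟩

/-- **(A1) with explicit windows** -/
theorem actIntD {C C' c b : ℝ} (hC : 0 ≤ C) (hC' : 0 ≤ C') (hc : 0 < c) (hb : 0 < b) (k : ℕ) :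
    ActIntD C C' c b k (2 * ((k : ℝ) + 3) / b) ((k : ℝ) + 3) := by
  set D : ℝ := 2 * ((k : ℝ) + 3) / b with hD
  have hk : (0 : ℝ) ≤ k := Nat.cast_nonneg k
  have hD0 : 0 < D := by positivity
  refine ⟨hD0, by positivity, C * (2 * C' / b + (1 + 2 * (1 + D) + C' * (1 + 4 / b))),
    max 1 ((3 * k + 1) / c), by positivity, le_max_left _ _, ?_⟩
  intro L hL ep hep0 hep e1 he1 he1' J hJ r hr
  have hL1 : 1 ≤ L := (le_max_left _ _).trans hL
  have hL0 : 0 < L := by linarith
  have hLc : (3 * k + 1) / c ≤ L := (le_max_right _ _).trans hL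
  have hr0 : (0 : ℝ) ≤ r := Nat.cast_nonneg r
  set R : ℝ := (r : ℝ) + L with hR
  have hLR : L ≤ R := by linarith
  have hR1 : 1 ≤ R := hL1.trans hLR
  have hR0 : 0 < R := by linarith
  have hΛ : 0 ≤ Real.log R := Real.log_nonneg hR1
  have hlogR : Real.log R ≤ R := (Real.log_le_sub_one_of_pos hR0).trans (by linarith)
  -- `R ≤ exp (3 L)`
  have hR3 : Real.log R ≤ 3 * L := by
    rw [← Real.log_exp (3 * L)]
    refine Real.log_le_log hR0 ?_
    have e1 : Real.exp (3 * L) = Real.exp (2 * L) * Real.exp L := by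
      rw [← Real.exp_add]; congr 1; ring
    have e2 : L + 1 ≤ Real.exp L := Real.add_one_le_exp L
    have e3 : 1 ≤ Real.exp (2 * L) := Real.one_le_exp (by linarith)
    rw [e1]
    nlinarith
  have hT : Tb L = 3 / 8 * L := rfl
  set T := Tb L with hTdef
  have hT0 : 0 ≤ T := by rw [hT]; positivity
  have h1ep : 0 < 1 - ep := by linarith
  set Te := T / (1 - ep) with hTe
  have hTTe : T ≤ Te := by
    rw [hTe, le_div_iff₀ h1ep]; nlinarith
  have hTe0 : 0 ≤ Te := hT0.trans hTTe
  have hTe2 : Te ≤ T + T * (4 / 3 * ep) := by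
    rw [hTe, div_le_iff₀ h1ep]
    nlinarith [mul_nonneg hT0 hep0, mul_nonneg hep0 (by linarith : 0 ≤ 1 / 4 - ep),
      mul_nonneg (mul_nonneg hT0 hep0) (by linarith : 0 ≤ 1 / 4 - ep)]
  set a := (1 - 3 * e1) * T with ha
  have ha0 : 0 ≤ a := mul_nonneg (by linarith) hT0
  have haT : a ≤ T := by rw [ha]; nlinarith
  set x := Real.exp (-(2 * Real.pi * J)) with hx
  have hx0 : 0 ≤ x := (Real.exp_pos _).le
  have hx1 : x ≤ 1 := by
    rw [hx, Real.exp_le_one_iff]
    have := Real.pi_pos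
    have : 0 ≤ 2 * Real.pi * J := by positivity
    linarith
  have hW : WZ D L r = Wz (T - Real.log L) (T + D * Real.log R) := rfl
  have hlam : lamZ ((k : ℝ) + 3) L r = fun _ => ((k : ℝ) + 3) * Real.log R := rfl
  have hκ : 0 ≤ ((k : ℝ) + 3) * Real.log R := by positivity
  set th : ℝ → ℝ := fun t => Real.exp (-tilt (WZ D L r) (lamZ ((k : ℝ) + 3) L r) t) with hth
  have hth0 : ∀ t, 0 < th t := fun t => Real.exp_pos _
  have hth1 : ∀ t, th t ≤ 1 := by
    intro t
    simp only [hth, hlam]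
    exact exp_neg_tilt_le_one hκ t
  have hthm : Measurable th := by
    simp only [hth]
    exact (Real.measurable_exp.comp (tilt_measurable _ _).neg)
  -- the dominating function
  set g : ℝ → ℝ := fun t =>
    C * (x * (if |t| ≤ a then (1 : ℝ) else 0) +
        ((if |t| ≤ Te then (1 : ℝ) else 0) - (if |t| ≤ a then (1 : ℝ) else 0)) +
        C' * (Real.exp (-(b * max (|t| - Te) 0)) - (if |t| ≤ Te then (1 : ℝ) else 0)) +
      (Real.exp (k * Real.log R - c * L ^ (8 / 3 : ℝ)) * (if |t| ≤ T then (1 : ℝ) else 0) +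
        Real.exp (-(3 * Real.log R)) * (if |t| ≤ T + D * Real.log R then (1 : ℝ) else 0) +
        C' * (Real.exp (-(3 * Real.log R)) * Real.exp (-(b / 2 * max (|t| - T) 0))))) with hg
  have hle : ∀ t, act C C' c b k L ep e1 J r t * th t ≤ g t := by
    intro t
    have f1 := flat_le (C' := C') (b := b) (a := a) (Te := Te) (x := x) hC' hx0
      (haT.trans hTTe) t
    have f2 := susp_le (C' := C') (c := c) (b := b) (k := k) hC' hc hb hk (T := T) (L := L)
      (Te := T) (R := R) hL1 hLR (Ψ := Phi C' b T) (fun t => Phi_nonneg hC')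
      (fun t => Phi_le_one _ _ _ t) (fun t => Phi_le_exp _ _ _ t) t
    have f3 : 0 ≤ Phi C' b Te t * (if |t| ≤ a then x else 1) := by
      refine mul_nonneg (Phi_nonneg hC') ?_
      split_ifs
      · exact hx0
      · exact zero_le_one
    have hpow : R ^ k = Real.exp (k * Real.log R) := by
      rw [Real.exp_nat_mul, Real.exp_log hR0]
    have hact : act C C' c b k L ep e1 J r t * th t =
        C * (Phi C' b Te t * (if |t| ≤ a then x else 1) * th t +
          Phi C' b T t * Real.exp (k * Real.log R) *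
            Real.exp (-(c * Real.exp (8 / 3 * (T - |t|)))) * th t) := by
      unfold act
      rw [← hR, hpow]
      ring
    rw [hact]
    simp only [hg]
    refine mul_le_mul_of_nonneg_left (add_le_add ?_ ?_) hC
    · exact (mul_le_of_le_one_right f3 (hth1 t)).trans f1
    · simp only [hth, hW, hlam]
      exact f2
  have hge : ∀ t, 0 ≤ act C C' c b k L ep e1 J r t * th t := fun t =>
    mul_nonneg (act_nonneg hC hC' hL0.le) (hth0 t).le
  -- integral of `g`
  have i1 := ind_abs a ha0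
  have i2 := ind_abs Te hTe0
  have i3 := ind_abs T hT0
  have i4 := ind_abs (T + D * Real.log R) (by positivity)
  have i5 := int_tail (a := Te) (b := b) hTe0 hb
  have i6 := int_tail (a := T) (b := b / 2) hT0 (by positivity)
  have gi : Integrable g := by
    simp only [hg]
    refine Integrable.const_mul ?_ C
    refine Integrable.add ?_ ?_
    · exact ((i1.1.const_mul x).add (i2.1.sub i1.1)).add ((i5.1.sub i2.1).const_mul C')
    · exact ((i3.1.const_mul _).add (i4.1.const_mul _)).add ((i6.1.const_mul _).const_mul C')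
  have gint : ∫ t, g t = C * (x * (2 * a) + (2 * Te - 2 * a) + C' * (2 * Te + 2 / b - 2 * Te) +
      (Real.exp (k * Real.log R - c * L ^ (8 / 3 : ℝ)) * (2 * T) +
        Real.exp (-(3 * Real.log R)) * (2 * (T + D * Real.log R)) +
        C' * (Real.exp (-(3 * Real.log R)) * (2 * T + 2 / (b / 2))))) := by
    simp only [hg]
    rw [integral_const_mul, integral_add, integral_add, integral_add, integral_const_mul,
      integral_sub i2.1 i1.1, integral_const_mul, integral_sub i5.1 i2.1, integral_add,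
      integral_add, integral_const_mul, integral_const_mul, integral_const_mul,
      integral_const_mul, i1.2, i2.2, i3.2, i4.2, i5.2, i6.2]
    · exact i3.1.const_mul _
    · exact i4.1.const_mul _
    · exact (i3.1.const_mul _).add (i4.1.const_mul _)
    · exact (i6.1.const_mul _).const_mul C'
    · exact i1.1.const_mul x
    · exact i2.1.sub i1.1
    · exact (i1.1.const_mul x).add (i2.1.sub i1.1)
    · exact (i5.1.sub i2.1).const_mul C'
    · exact ((i1.1.const_mul x).add (i2.1.sub i1.1)).add ((i5.1.sub i2.1).const_mul C')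
    · exact ((i3.1.const_mul _).add (i4.1.const_mul _)).add ((i6.1.const_mul _).const_mul C')
  have hmeas : AEStronglyMeasurable (fun t => act C C' c b k L ep e1 J r t * th t) volume := by
    have m1 : Measurable (fun t : ℝ => if |t| ≤ (1 - 3 * e1) * Tb L then
        Real.exp (-(2 * Real.pi * J)) else 1) :=
      Measurable.ite (measurableSet_le (by fun_prop) measurable_const) measurable_const
        measurable_const
    have m2 := Phi_measurable C' b (Tb L / (1 - ep))
    have m3 := Phi_measurable C' b (Tb L)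
    have m4 : Measurable (act C C' c b k L ep e1 J r) := by
      unfold act
      fun_prop
    exact (m4.mul hthm).aestronglyMeasurable
  have hint : Integrable (fun t => act C C' c b k L ep e1 J r t * th t) := by
    refine gi.mono' hmeas (Eventually.of_forall fun t => ?_)
    rw [Real.norm_eq_abs, abs_of_nonneg (hge t)]
    exact hle t
  refine ⟨hint, (integral_mono hint gi hle).trans ?_⟩
  rw [gint]
  -- the three small terms
  have s1 : Real.exp (k * Real.log R - c * L ^ (8 / 3 : ℝ)) * (2 * T) ≤ 1 := by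
    have a1 : L ^ (2 : ℝ) ≤ L ^ (8 / 3 : ℝ) :=
      Real.rpow_le_rpow_of_exponent_le hL1 (by norm_num)
    rw [Real.rpow_two] at a1
    have a2 : (3 * (k : ℝ) + 1) * L ≤ c * L ^ 2 := by
      have : (3 * (k : ℝ) + 1) ≤ c * L := by
        rw [div_le_iff₀ hc] at hLc; linarith
      nlinarith
    have a3 : (k : ℝ) * Real.log R ≤ 3 * k * L := by
      have := mul_le_mul_of_nonneg_left hR3 hk
      linarith
    have a4 : (k : ℝ) * Real.log R - c * L ^ (8 / 3 : ℝ) ≤ -L := by
      have := mul_le_mul_of_nonneg_left a1 hc.le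
      nlinarith
    have a5 : 2 * T ≤ Real.exp L := by
      have := Real.add_one_le_exp L
      rw [hT]; linarith
    calc Real.exp (k * Real.log R - c * L ^ (8 / 3 : ℝ)) * (2 * T)
        ≤ Real.exp (-L) * Real.exp L :=
          mul_le_mul (Real.exp_le_exp.mpr a4) a5 (by positivity) (Real.exp_pos _).le
      _ = 1 := by rw [← Real.exp_add]; simp
  have hR3' : Real.exp (-(3 * Real.log R)) ≤ R⁻¹ := by
    rw [← Real.exp_log (inv_pos.mpr hR0), Real.log_inv, Real.exp_le_exp]
    linarith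
  have hTR : T ≤ R := by rw [hT]; linarith
  have hRi : R⁻¹ * R = 1 := inv_mul_cancel₀ hR0.ne'
  have hRi0 : 0 ≤ R⁻¹ := by positivity
  have hRi1 : R⁻¹ ≤ 1 := inv_le_one_of_one_le₀ hR1
  have s2 : Real.exp (-(3 * Real.log R)) * (2 * (T + D * Real.log R)) ≤ 2 * (1 + D) := by
    calc Real.exp (-(3 * Real.log R)) * (2 * (T + D * Real.log R))
        ≤ R⁻¹ * (2 * (R + D * R)) := by
          refine mul_le_mul hR3' ?_ (by positivity) hRi0
          have := mul_le_mul_of_nonneg_left hlogR hD0.le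
          linarith
      _ = R⁻¹ * R * (2 * (1 + D)) := by ring
      _ = _ := by rw [hRi, one_mul]
  have s3 : Real.exp (-(3 * Real.log R)) * (2 * T + 2 / (b / 2)) ≤ 1 + 4 / b := by
    have e4 : 2 / (b / 2) = 4 / b := by field_simp; norm_num
    have hb4 : 0 ≤ 4 / b := by positivity
    have hT2 : 2 * T ≤ R := by rw [hT]; linarith
    rw [e4]
    calc Real.exp (-(3 * Real.log R)) * (2 * T + 4 / b) ≤ R⁻¹ * (R + 4 / b) :=
          mul_le_mul hR3' (by linarith) (by positivity) hRi0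
      _ = R⁻¹ * R + R⁻¹ * (4 / b) := by ring
      _ ≤ 1 + 1 * (4 / b) := by
          rw [hRi]
          have := mul_le_mul_of_nonneg_right hRi1 hb4
          linarith
      _ = _ := by ring
  have s4 : x * (2 * a) + (2 * Te - 2 * a) ≤ (x + 3 * e1 + 3 * ep) * L := by
    have b1 : x * (2 * a) ≤ x * L := by
      refine mul_le_mul_of_nonneg_left ?_ hx0
      have : a ≤ 3 / 8 * L := by rw [← hT]; exact haT
      linarith
    have b2 : 2 * Te - 2 * a ≤ (3 * e1 + 3 * ep) * L := by
      have : 2 * Te - 2 * a ≤ 2 * T * (4 / 3 * ep) + 2 * (3 * e1) * T := by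
        rw [ha]; linarith
      have h7 : 2 * T * (4 / 3 * ep) + 2 * (3 * e1) * T = (ep + 9 / 4 * e1) * L := by
        rw [hT]; ring
      have h8 : (ep + 9 / 4 * e1) * L ≤ (3 * e1 + 3 * ep) * L :=
        mul_le_mul_of_nonneg_right (by linarith) hL0.le
      linarith
    calc x * (2 * a) + (2 * Te - 2 * a) ≤ x * L + (3 * e1 + 3 * ep) * L := add_le_add b1 b2
      _ = _ := by ring
  have s5 : C' * (2 * Te + 2 / b - 2 * Te) = 2 * C' / b := by ring
  have s6 := mul_le_mul_of_nonneg_left s3 hC'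
  have : x * (2 * a) + (2 * Te - 2 * a) + C' * (2 * Te + 2 / b - 2 * Te) +
      (Real.exp (k * Real.log R - c * L ^ (8 / 3 : ℝ)) * (2 * T) +
        Real.exp (-(3 * Real.log R)) * (2 * (T + D * Real.log R)) +
        C' * (Real.exp (-(3 * Real.log R)) * (2 * T + 2 / (b / 2)))) ≤
      (x + 3 * e1 + 3 * ep) * L + (2 * C' / b + (1 + 2 * (1 + D) + C' * (1 + 4 / b))) := by
    linarith
  calc _ ≤ C * ((x + 3 * e1 + 3 * ep) * L +
        (2 * C' / b + (1 + 2 * (1 + D) + C' * (1 + 4 / b)))) := mul_le_mul_of_nonneg_left this hC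
    _ = _ := by ring



lemma actH_measurable (C C' c b : ℝ) (k : ℕ) (L ep e1 : ℝ) (r : ℕ) {h : ℝ → ℝ}
    (hh : Measurable h) : Measurable fun t => act C C' c b k L ep e1 (h t) r t := by
  have m1 : Measurable (fun t : ℝ => if |t| ≤ (1 - 3 * e1) * Tb L then
      Real.exp (-(2 * Real.pi * h t)) else 1) :=
    Measurable.ite (measurableSet_le (by fun_prop) measurable_const) (by fun_prop)
      measurable_const
  have m2 := Phi_measurable C' b (Tb L / (1 - ep))
  have m3 := Phi_measurable C' b (Tb L)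
  unfold act
  fun_prop

lemma WZ_mono {D D1 L : ℝ} {r : ℕ} (hD : D ≤ D1) (hR : 1 ≤ (r : ℝ) + L) :
    WZ D L r ⊆ WZ D1 L r := by
  intro w hw
  have hlog : 0 ≤ Real.log ((r : ℝ) + L) := Real.log_nonneg hR
  have h1 : ⌈Tb L + D * Real.log (r + L)⌉ ≤ ⌈Tb L + D1 * Real.log (r + L)⌉ := by
    apply Int.ceil_le_ceil
    have := mul_le_mul_of_nonneg_right hD hlog
    linarith
  unfold WZ at hw ⊢
  rw [Finset.mem_filter, Finset.mem_Icc] at hw ⊢
  refine ⟨⟨?_, ?_⟩, hw.2⟩ <;> omega

lemma tilt_WZ_mono {D D1 k' k1 L : ℝ} {r : ℕ} (hD : D ≤ D1) (hk : k' ≤ k1) (hk1 : 0 ≤ k1)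
    (hR : 1 ≤ (r : ℝ) + L) (t : ℝ) :
    tilt (WZ D L r) (lamZ k' L r) t ≤ tilt (WZ D1 L r) (lamZ k1 L r) t := by
  have hlog : 0 ≤ Real.log ((r : ℝ) + L) := Real.log_nonneg hR
  unfold tilt lamZ
  by_cases h : ⌊t⌋ ∈ WZ D L r
  · rw [if_pos h, if_pos (WZ_mono hD hR h)]
    exact mul_le_mul_of_nonneg_right hk hlog
  · rw [if_neg h]
    split_ifs
    · exact mul_nonneg hk1 hlog
    · exact le_rfl

/-- larger windows and a larger tilt keep the statement -/
lemma ActIntD.mono {C C' c b : ℝ} {k : ℕ} {D D1 k' k1 : ℝ} (hC : 0 ≤ C) (hC' : 0 ≤ C')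
    (h : ActIntD C C' c b k D k') (hD : D ≤ D1) (hk : k' ≤ k1) :
    ActIntD C C' c b k D1 k1 := by
  obtain ⟨hD0, hk0, B, L0, hB, hL0, h⟩ := h
  refine ⟨hD0.trans_le hD, hk0.trans_le hk, B, L0, hB, hL0, ?_⟩
  intro L hL ep hep0 hep e1 he1 he1' J hJ r hr
  obtain ⟨hi, hb⟩ := h L hL ep hep0 hep e1 he1 he1' J hJ r hr
  have hL1 : 1 ≤ L := hL0.trans hL
  have hr0 : (0 : ℝ) ≤ r := Nat.cast_nonneg r
  have hR : 1 ≤ (r : ℝ) + L := by linarith
  have hle : ∀ t, act C C' c b k L ep e1 J r t * Real.exp (-tilt (WZ D1 L r) (lamZ k1 L r) t) ≤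
      act C C' c b k L ep e1 J r t * Real.exp (-tilt (WZ D L r) (lamZ k' L r) t) := by
    intro t
    refine mul_le_mul_of_nonneg_left ?_ (act_nonneg hC hC' (by linarith))
    rw [Real.exp_le_exp]
    have := tilt_WZ_mono hD hk (hk0.le.trans hk) hR t
    linarith
  have hm : AEStronglyMeasurable (fun t => act C C' c b k L ep e1 J r t *
      Real.exp (-tilt (WZ D1 L r) (lamZ k1 L r) t)) volume :=
    ((actH_measurable C C' c b k L ep e1 r (measurable_const (a := J))).mul
      (Real.measurable_exp.comp (tilt_measurable _ _).neg)).aestronglyMeasurable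
  have hi1 : Integrable (fun t => act C C' c b k L ep e1 J r t *
      Real.exp (-tilt (WZ D1 L r) (lamZ k1 L r) t)) := by
    refine hi.mono' hm (Eventually.of_forall fun t => ?_)
    rw [Real.norm_eq_abs, abs_of_nonneg (mul_nonneg (act_nonneg hC hC' (by linarith))
      (Real.exp_pos _).le)]
    exact hle t
  exact ⟨hi1, (integral_mono hi1 hi hle).trans hb⟩

/-- the pointwise bound of the marked activity -/
lemma mark_le {C C' c b : ℝ} {k : ℕ} (hC : 0 ≤ C) (hC' : 0 ≤ C') (hc : 0 < c) {c0 : ℝ}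
    (hc0 : 0 ≤ c0) {L ep e1 : ℝ} (hL1 : 1 ≤ L) (hLc : (3 * (k : ℝ) + 1) / c ≤ L)
    (he1 : 0 < e1) {q : ℝ} (hq0 : 0 ≤ q) (hq : q ≤ 2) {w h : ℝ → ℝ}
    (hw0 : ∀ t, 0 ≤ w t) (hw : ∀ t, w t ≤ Real.exp (-(q * |t|)))
    (hh : ∀ t, |t| ≤ (1 - 3 * e1) * Tb L →
      2 * ((1 - e1) * Tb L - c0 - |t|) ≤ 2 * Real.pi * h t)
    {r : ℕ} (hr : (r : ℝ) ≤ Real.exp (2 * L)) {θ : ℝ} (hθ0 : 0 ≤ θ) (hθ1 : θ ≤ 1) (t : ℝ) :
    w t * act C C' c b k L ep e1 (h t) r t * θ ≤
      Real.exp (2 * c0) * L ^ 2 * Real.exp (-(3 / 8 * q * (1 - 3 * e1) * L)) *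
        (act C C' c b k L ep e1 0 r t * θ) +
      C * Real.exp (-L) * (if |t| ≤ Tb L then (1 : ℝ) else 0) := by
  have hL0 : 0 < L := by linarith
  have hr0 : (0 : ℝ) ≤ r := Nat.cast_nonneg r
  set R : ℝ := (r : ℝ) + L with hR
  have hLR : L ≤ R := by linarith
  have hR1 : 1 ≤ R := hL1.trans hLR
  have hR0 : 0 < R := by linarith
  have hk : (0 : ℝ) ≤ k := Nat.cast_nonneg k
  have hΛ : 0 ≤ Real.log R := Real.log_nonneg hR1
  have hlL : 0 ≤ Real.log L := Real.log_nonneg hL1
  have hR3 : Real.log R ≤ 3 * L := by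
    rw [← Real.log_exp (3 * L)]
    refine Real.log_le_log hR0 ?_
    have e1 : Real.exp (3 * L) = Real.exp (2 * L) * Real.exp L := by
      rw [← Real.exp_add]; congr 1; ring
    have e2 : L + 1 ≤ Real.exp L := Real.add_one_le_exp L
    have e3 : 1 ≤ Real.exp (2 * L) := Real.one_le_exp (by linarith)
    rw [e1]
    nlinarith
  have hT : Tb L = 3 / 8 * L := rfl
  have hT0 : 0 ≤ Tb L := by rw [hT]; positivity
  set E : ℝ := Real.exp (-(3 / 8 * q * (1 - 3 * e1) * L)) with hE
  have hE0 : 0 < E := Real.exp_pos _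
  have hc1 : 1 ≤ Real.exp (2 * c0) := Real.one_le_exp (by linarith)
  have hL2 : 1 ≤ L ^ 2 := by nlinarith
  have hwt0 := hw0 t
  have hwt := hw t
  have hwt1 : w t ≤ 1 := by
    refine hwt.trans ?_
    rw [Real.exp_le_one_iff]
    have := mul_nonneg hq0 (abs_nonneg t)
    linarith
  set P1 := Phi C' b (Tb L / (1 - ep)) t with hP1
  set P2 := Phi C' b (Tb L) t with hP2
  have hP10 : 0 ≤ P1 := Phi_nonneg hC'
  have hP20 : 0 ≤ P2 := Phi_nonneg hC'
  have hP21 : P2 ≤ 1 := Phi_le_one _ _ _ _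
  -- the flat part
  have f1 : w t * (if |t| ≤ (1 - 3 * e1) * Tb L then Real.exp (-(2 * Real.pi * h t)) else 1) ≤
      Real.exp (2 * c0) * E := by
    split_ifs with ht
    · calc w t * Real.exp (-(2 * Real.pi * h t))
          ≤ Real.exp (-(q * |t|)) * Real.exp (-(2 * ((1 - e1) * Tb L - c0 - |t|))) := by
            refine mul_le_mul hwt ?_ (Real.exp_pos _).le (Real.exp_pos _).le
            rw [Real.exp_le_exp]
            have := hh t ht
            linarith
        _ ≤ Real.exp (2 * c0) * E := by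
            rw [hE, ← Real.exp_add, ← Real.exp_add, Real.exp_le_exp]
            have h1 : (2 - q) * |t| ≤ (2 - q) * ((1 - 3 * e1) * Tb L) :=
              mul_le_mul_of_nonneg_left ht (by linarith)
            have h2 : 0 ≤ e1 * Tb L := mul_nonneg he1.le hT0
            rw [hT] at h1 h2 ⊢
            nlinarith
    · rw [mul_one]
      have ht' := (not_le.mp ht).le
      calc w t ≤ 1 * E := by
            rw [one_mul]
            refine hwt.trans ?_
            rw [hE, Real.exp_le_exp]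
            have := mul_le_mul_of_nonneg_left ht' hq0
            rw [hT] at this
            nlinarith
        _ ≤ Real.exp (2 * c0) * E := mul_le_mul_of_nonneg_right hc1 hE0.le
  have f2 : (if |t| ≤ (1 - 3 * e1) * Tb L then Real.exp (-(2 * Real.pi * (0 : ℝ))) else 1) =
      (1 : ℝ) := by
    split_ifs <;> simp
  -- the suppressed part
  have f3 : w t * (R ^ k * P2 * Real.exp (-(c * Real.exp (8 / 3 * (Tb L - |t|))))) * θ ≤
      Real.exp (2 * c0) * L ^ 2 * E *
        (R ^ k * P2 * Real.exp (-(c * Real.exp (8 / 3 * (Tb L - |t|)))) * θ) +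
      Real.exp (-L) * (if |t| ≤ Tb L then (1 : ℝ) else 0) := by
    have hS0 : 0 ≤ R ^ k * P2 * Real.exp (-(c * Real.exp (8 / 3 * (Tb L - |t|)))) := by
      positivity
    rcases le_or_gt (|t|) (Tb L - Real.log L) with ht | ht
    · rw [if_pos (by linarith : |t| ≤ Tb L)]
      have h3 : L ^ (8 / 3 : ℝ) ≤ Real.exp (8 / 3 * (Tb L - |t|)) := by
        rw [Real.rpow_def_of_pos hL0, Real.exp_le_exp]
        nlinarith
      have a1 : L ^ (2 : ℝ) ≤ L ^ (8 / 3 : ℝ) :=
        Real.rpow_le_rpow_of_exponent_le hL1 (by norm_num)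
      rw [Real.rpow_two] at a1
      have a2 : (3 * (k : ℝ) + 1) * L ≤ c * L ^ 2 := by
        have : (3 * (k : ℝ) + 1) ≤ c * L := by
          rw [div_le_iff₀ hc] at hLc; linarith
        nlinarith
      have a3 : (k : ℝ) * Real.log R ≤ 3 * k * L := by
        have := mul_le_mul_of_nonneg_left hR3 hk
        linarith
      have a4 : (k : ℝ) * Real.log R - c * Real.exp (8 / 3 * (Tb L - |t|)) ≤ -L := by
        have := mul_le_mul_of_nonneg_left (a1.trans h3) hc.le
        nlinarith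
      have hpow : R ^ k = Real.exp (k * Real.log R) := by
        rw [Real.exp_nat_mul, Real.exp_log hR0]
      have a5 : R ^ k * P2 * Real.exp (-(c * Real.exp (8 / 3 * (Tb L - |t|)))) ≤
          Real.exp (-L) := by
        calc R ^ k * P2 * Real.exp (-(c * Real.exp (8 / 3 * (Tb L - |t|))))
            ≤ R ^ k * 1 * Real.exp (-(c * Real.exp (8 / 3 * (Tb L - |t|)))) := by
              refine mul_le_mul_of_nonneg_right ?_ (Real.exp_pos _).le
              exact mul_le_mul_of_nonneg_left hP21 (by positivity)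
          _ = Real.exp (k * Real.log R - c * Real.exp (8 / 3 * (Tb L - |t|))) := by
              rw [mul_one, hpow, ← Real.exp_add]
              congr 1
          _ ≤ _ := Real.exp_le_exp.mpr a4
      have a6 : w t * (R ^ k * P2 * Real.exp (-(c * Real.exp (8 / 3 * (Tb L - |t|))))) * θ ≤
          1 * Real.exp (-L) * 1 := by
        refine mul_le_mul ?_ hθ1 hθ0 (by positivity)
        exact mul_le_mul hwt1 a5 hS0 zero_le_one
      have a7 : 0 ≤ Real.exp (2 * c0) * L ^ 2 * E *
        (R ^ k * P2 * Real.exp (-(c * Real.exp (8 / 3 * (Tb L - |t|)))) * θ) := by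
        positivity
      linarith
    · have b1 : w t ≤ Real.exp (2 * c0) * L ^ 2 * E := by
        calc w t ≤ 1 * L ^ 2 * E := by
              refine hwt.trans ?_
              have e3 : L ^ 2 = Real.exp (2 * Real.log L) := by
                rw [show (2 : ℝ) * Real.log L = ((2 : ℕ) : ℝ) * Real.log L by norm_num,
                  Real.exp_nat_mul, Real.exp_log hL0]
              rw [one_mul, e3, hE, ← Real.exp_add, Real.exp_le_exp]
              have h1 := mul_le_mul_of_nonneg_left ht.le hq0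
              have h2 : q * Real.log L ≤ 2 * Real.log L := mul_le_mul_of_nonneg_right hq hlL
              have h3 : 0 ≤ q * (e1 * L) := by positivity
              rw [hT] at h1
              nlinarith
          _ ≤ Real.exp (2 * c0) * L ^ 2 * E := by
              refine mul_le_mul_of_nonneg_right ?_ hE0.le
              exact mul_le_mul_of_nonneg_right hc1 (by positivity)
      have b2 : w t * (R ^ k * P2 * Real.exp (-(c * Real.exp (8 / 3 * (Tb L - |t|))))) * θ ≤
          Real.exp (2 * c0) * L ^ 2 * E *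
            (R ^ k * P2 * Real.exp (-(c * Real.exp (8 / 3 * (Tb L - |t|))))) * θ := by
        refine mul_le_mul_of_nonneg_right ?_ hθ0
        exact mul_le_mul_of_nonneg_right b1 hS0
      have b3 : 0 ≤ Real.exp (-L) * (if |t| ≤ Tb L then (1 : ℝ) else 0) := by
        refine mul_nonneg (Real.exp_pos _).le ?_
        split_ifs <;> norm_num
      have b4 : Real.exp (2 * c0) * L ^ 2 * E *
            (R ^ k * P2 * Real.exp (-(c * Real.exp (8 / 3 * (Tb L - |t|))))) * θ =
          Real.exp (2 * c0) * L ^ 2 * E *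
            (R ^ k * P2 * Real.exp (-(c * Real.exp (8 / 3 * (Tb L - |t|)))) * θ) := by ring
      linarith
  have f4 : w t * (P1 * (if |t| ≤ (1 - 3 * e1) * Tb L then
      Real.exp (-(2 * Real.pi * h t)) else 1)) * θ ≤
      Real.exp (2 * c0) * L ^ 2 * E * (P1 * θ) := by
    have h1 : w t * (P1 * (if |t| ≤ (1 - 3 * e1) * Tb L then
        Real.exp (-(2 * Real.pi * h t)) else 1)) * θ =
        w t * (if |t| ≤ (1 - 3 * e1) * Tb L then
        Real.exp (-(2 * Real.pi * h t)) else 1) * (P1 * θ) := by ring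
    rw [h1]
    refine mul_le_mul_of_nonneg_right (f1.trans ?_) (mul_nonneg hP10 hθ0)
    refine mul_le_mul_of_nonneg_right ?_ hE0.le
    have := mul_le_mul_of_nonneg_left hL2 (Real.exp_pos (2 * c0)).le
    linarith
  have hact : w t * act C C' c b k L ep e1 (h t) r t * θ =
      C * (w t * (P1 * (if |t| ≤ (1 - 3 * e1) * Tb L then
        Real.exp (-(2 * Real.pi * h t)) else 1)) * θ +
        w t * (R ^ k * P2 * Real.exp (-(c * Real.exp (8 / 3 * (Tb L - |t|))))) * θ) := by
    unfold act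
    rw [← hR, ← hP1, ← hP2]
    ring
  have hact0 : act C C' c b k L ep e1 0 r t * θ =
      C * (P1 * θ + R ^ k * P2 * Real.exp (-(c * Real.exp (8 / 3 * (Tb L - |t|)))) * θ) := by
    unfold act
    rw [← hR, ← hP1, ← hP2, f2]
    ring
  rw [hact, hact0]
  have := mul_le_mul_of_nonneg_left (add_le_add f4 f3) hC
  refine this.trans (le_of_eq ?_)
  ring

/-- **the marked activity integral**, weight at most `exp (-q |t|)`, current at least the centred
tent (slope 2, height `(1 - e1) T - c0`) on the plateau -/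
theorem markIntC {C C' c b : ℝ} (hC : 0 ≤ C) (hC' : 0 ≤ C') (hc : 0 < c) {k : ℕ} {D k' : ℝ}
    (hAct : ActIntD C C' c b k D k') {c0 : ℝ} (hc0 : 0 ≤ c0) :
    ∀ δ : ℝ, 0 < δ → ∃ L0 : ℝ, 1 ≤ L0 ∧ ∀ L ≥ L0, ∀ ep : ℝ, 0 ≤ ep → ep ≤ 1 / 4 →
    ∀ e1 : ℝ, 0 < e1 → e1 ≤ 1 / 4 → ∀ q : ℝ, 0 ≤ q → q ≤ 2 →
    ∀ w : ℝ → ℝ, Measurable w → (∀ t, 0 ≤ w t) → (∀ t, w t ≤ Real.exp (-(q * |t|))) →
    ∀ h : ℝ → ℝ, Measurable h →
    (∀ t, |t| ≤ (1 - 3 * e1) * Tb L →
      2 * ((1 - e1) * Tb L - c0 - |t|) ≤ 2 * Real.pi * h t) →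
    ∀ r : ℕ, (r : ℝ) ≤ Real.exp (2 * L) →
      Integrable (fun t => w t * act C C' c b k L ep e1 (h t) r t *
        Real.exp (-tilt (WZ D L r) (lamZ k' L r) t)) ∧
      ∫ t, w t * act C C' c b k L ep e1 (h t) r t *
        Real.exp (-tilt (WZ D L r) (lamZ k' L r) t) ≤
        Real.exp ((δ - 3 / 8 * q * (1 - 3 * e1)) * L) := by
  intro δ hδ
  obtain ⟨hD0, hk0, B, L1, hB, hL1, hA⟩ := hAct
  set K : ℝ := Real.exp (2 * c0) * (5 / 2 * C + B) + C with hK
  have hK0 : 0 ≤ K := by positivity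
  refine ⟨max L1 (max ((3 * (k : ℝ) + 1) / c) (24 * K / δ ^ 4)), hL1.trans (le_max_left _ _), ?_⟩
  intro L hL ep hep0 hep e1 he1 he1' q hq0 hq w hwm hw0 hw h hhm hh r hr
  have hLL1 : L1 ≤ L := (le_max_left _ _).trans hL
  have hLc : (3 * (k : ℝ) + 1) / c ≤ L := (le_max_left _ _).trans ((le_max_right _ _).trans hL)
  have hLK : 24 * K / δ ^ 4 ≤ L := (le_max_right _ _).trans ((le_max_right _ _).trans hL)
  have h1L : 1 ≤ L := hL1.trans hLL1
  have hL0 : 0 < L := by linarith
  have hr0 : (0 : ℝ) ≤ r := Nat.cast_nonneg r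
  have hR1 : 1 ≤ (r : ℝ) + L := by linarith
  obtain ⟨i1, b1⟩ := hA L hLL1 ep hep0 hep e1 he1 he1' 0 le_rfl r hr
  have hκ : 0 ≤ k' * Real.log ((r : ℝ) + L) := mul_nonneg hk0.le (Real.log_nonneg hR1)
  set θ : ℝ → ℝ := fun t => Real.exp (-tilt (WZ D L r) (lamZ k' L r) t) with hθ
  have hθ0 : ∀ t, 0 < θ t := fun t => Real.exp_pos _
  have hθ1 : ∀ t, θ t ≤ 1 := fun t => exp_neg_tilt_le_one hκ t
  have hT : Tb L = 3 / 8 * L := rfl
  have hT0 : 0 ≤ Tb L := by rw [hT]; positivity
  have i2 := ind_abs (Tb L) hT0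
  set E : ℝ := Real.exp (-(3 / 8 * q * (1 - 3 * e1) * L)) with hE
  have hE0 : 0 < E := Real.exp_pos _
  set g : ℝ → ℝ := fun t => Real.exp (2 * c0) * L ^ 2 * E *
        (act C C' c b k L ep e1 0 r t * θ t) +
      C * Real.exp (-L) * (if |t| ≤ Tb L then (1 : ℝ) else 0) with hg
  have hle : ∀ t, w t * act C C' c b k L ep e1 (h t) r t * θ t ≤ g t := fun t =>
    mark_le hC hC' hc hc0 h1L hLc he1 hq0 hq hw0 hw hh hr (hθ0 t).le (hθ1 t) t
  have hge : ∀ t, 0 ≤ w t * act C C' c b k L ep e1 (h t) r t * θ t := fun t =>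
    mul_nonneg (mul_nonneg (hw0 t) (act_nonneg hC hC' hL0.le)) (hθ0 t).le
  have ig : Integrable g := (i1.const_mul _).add (i2.1.const_mul _)
  have hm : AEStronglyMeasurable (fun t => w t * act C C' c b k L ep e1 (h t) r t * θ t)
      volume :=
    ((hwm.mul (actH_measurable C C' c b k L ep e1 r hhm)).mul
      (Real.measurable_exp.comp (tilt_measurable _ _).neg)).aestronglyMeasurable
  have hi : Integrable (fun t => w t * act C C' c b k L ep e1 (h t) r t * θ t) := by
    refine ig.mono' hm (Eventually.of_forall fun t => ?_)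
    rw [Real.norm_eq_abs, abs_of_nonneg (hge t)]
    exact hle t
  refine ⟨hi, (integral_mono hi ig hle).trans ?_⟩
  have gint : ∫ t, g t = Real.exp (2 * c0) * L ^ 2 * E *
      (∫ t, act C C' c b k L ep e1 0 r t * θ t) + C * Real.exp (-L) * (2 * Tb L) := by
    simp only [hg]
    rw [integral_add (i1.const_mul _) (i2.1.const_mul _), integral_const_mul,
      integral_const_mul, i2.2]
  rw [gint]
  have b2 : ∫ t, act C C' c b k L ep e1 0 r t * θ t ≤ (5 / 2 * C + B) * L := by
    refine b1.trans ?_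
    have e0 : Real.exp (-(2 * Real.pi * (0 : ℝ))) = 1 := by simp
    rw [e0]
    have h1 : C * (1 + 3 * e1 + 3 * ep) * L ≤ C * (5 / 2) * L := by
      refine mul_le_mul_of_nonneg_right (mul_le_mul_of_nonneg_left ?_ hC) hL0.le
      linarith
    have h2 : B ≤ B * L := le_mul_of_one_le_right hB h1L
    linarith
  have b3 : Real.exp (-L) ≤ E := by
    rw [hE, Real.exp_le_exp]
    have h1 : q * (1 - 3 * e1) ≤ 2 * 1 :=
      mul_le_mul hq (by linarith) (by linarith) (by norm_num)
    have h2 := mul_le_mul_of_nonneg_right h1 hL0.le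
    linarith
  have hL3 : L ≤ L ^ 3 := by nlinarith [mul_nonneg hL0.le (by nlinarith : 0 ≤ L ^ 2 - 1)]
  calc Real.exp (2 * c0) * L ^ 2 * E * (∫ t, act C C' c b k L ep e1 0 r t * θ t) +
        C * Real.exp (-L) * (2 * Tb L)
      ≤ Real.exp (2 * c0) * L ^ 2 * E * ((5 / 2 * C + B) * L) + C * E * L := by
        refine add_le_add (mul_le_mul_of_nonneg_left b2 (by positivity)) ?_
        refine mul_le_mul (mul_le_mul_of_nonneg_left b3 hC) ?_ (by linarith) (by positivity)
        rw [hT]; linarith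
    _ = E * (Real.exp (2 * c0) * (5 / 2 * C + B) * L ^ 3 + C * L) := by ring
    _ ≤ E * (K * L ^ 3) := by
        refine mul_le_mul_of_nonneg_left ?_ hE0.le
        have := mul_le_mul_of_nonneg_left hL3 hC
        rw [hK]; linarith
    _ ≤ E * Real.exp (δ * L) := by
        refine mul_le_mul_of_nonneg_left ?_ hE0.le
        have h1 := Real.pow_div_factorial_le_exp (δ * L) (by positivity) 4
        have h2 : (Nat.factorial 4 : ℝ) = 24 := by norm_num [Nat.factorial]
        rw [h2] at h1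
        refine le_trans ?_ h1
        rw [le_div_iff₀ (by norm_num : (0 : ℝ) < 24)]
        rw [div_le_iff₀ (by positivity)] at hLK
        calc K * L ^ 3 * 24 = 24 * K * L ^ 3 := by ring
          _ ≤ L * δ ^ 4 * L ^ 3 := mul_le_mul_of_nonneg_right hLK (by positivity)
          _ = (δ * L) ^ 4 := by ring
    _ = Real.exp ((δ - 3 / 8 * q * (1 - 3 * e1)) * L) := by
        rw [hE, ← Real.exp_add]
        congr 1
        ring

/-- **the marked activity integral for the weight `exp (-2 |t|)`**: `m ^ (-3/4)` up to small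
powers; the windows are those of `actIntD` -/
theorem markInt {C C' c b : ℝ} (hC : 0 ≤ C) (hC' : 0 ≤ C') (hc : 0 < c) (hb : 0 < b) (k : ℕ)
    {D k' : ℝ} (hD : 2 * ((k : ℝ) + 3) / b ≤ D) (hk' : (k : ℝ) + 3 ≤ k') :
    ∀ δ : ℝ, 0 < δ → ∃ L0 : ℝ, 1 ≤ L0 ∧ ∀ L ≥ L0, ∀ ep : ℝ, 0 ≤ ep → ep ≤ 1 / 4 →
    ∀ e1 : ℝ, 0 < e1 → e1 ≤ 1 / 4 →
    ∀ h : ℝ → ℝ, Measurable h →
    (∀ t, |t| ≤ (1 - 3 * e1) * Tb L →
      2 * ((1 - e1) * Tb L - 2 - |t|) ≤ 2 * Real.pi * h t) →
    ∀ r : ℕ, (r : ℝ) ≤ Real.exp (2 * L) →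
      Integrable (fun t => Real.exp (-(2 * |t|)) * act C C' c b k L ep e1 (h t) r t *
        Real.exp (-tilt (WZ D L r) (lamZ k' L r) t)) ∧
      ∫ t, Real.exp (-(2 * |t|)) * act C C' c b k L ep e1 (h t) r t *
        Real.exp (-tilt (WZ D L r) (lamZ k' L r) t) ≤
        Real.exp ((δ + 3 * e1 - 3 / 4) * L) := by
  intro δ hδ
  obtain ⟨L0, hL0, H⟩ := markIntC hC hC' hc
    ((actIntD hC hC' hc hb k).mono hC hC' hD hk') (c0 := 2) (by norm_num) δ hδ
  refine ⟨L0, hL0, ?_⟩
  intro L hL ep hep0 hep e1 he1 he1' h hhm hh r hr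
  obtain ⟨i1, b1⟩ := H L hL ep hep0 hep e1 he1 he1' 2 (by norm_num) le_rfl
    (fun t => Real.exp (-(2 * |t|))) (by fun_prop) (fun t => (Real.exp_pos _).le)
    (fun t => le_rfl) h hhm hh r hr
  refine ⟨i1, b1.trans ?_⟩
  rw [Real.exp_le_exp]
  refine mul_le_mul_of_nonneg_right ?_ (by linarith)
  linarith

end NUO
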