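import Pool.Agent.NUO.LSum

/-!
# Plan B: the sum over the configurations of objects with one marked object

`xo_sum_mark`: as `NUO.xo_sum_of`, the integrand is at most
`M_r * (∑ i, mk r (ht (O i)) * ∏ j ≠ i, act (ht (O j))) * exp (- c1 ∑ cnt ^ 2)`; the sum over the number
of objects is at most `M * B * exp (δ L)` if `10 ∫ mk r ≤ B` for all `r`.
-/

open MeasureTheory Finset Filter
open scoped ENNReal

noncomputable section

namespace NUO

/-- `r` objects, one of them marked -/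
theorem lint_leXm {X : Type*} [MeasurableSpace X] {ν : Measure X} [SigmaFinite ν] (h : X → ℝ)
    (z m : X → ℝ) (W : Finset ℤ) (lam : ℤ → ℝ) {c M : ℝ} (hc : 0 < c) (hM : 0 ≤ M)
    (hz0 : ∀ y, 0 ≤ z y) (hm0 : ∀ y, 0 ≤ m y)
    (hz : Integrable (fun y => z y * Real.exp (-tilt W lam (h y))) ν)
    (hm : Integrable (fun y => m y * Real.exp (-tilt W lam (h y))) ν) (r : ℕ)
    (F : (Fin r → X) → ℝ≥0∞)
    (hF : ∀ O, F O ≤ ENNReal.ofReal (M * (∑ i, m (O i) * ∏ j ∈ univ.erase i, z (O j)) *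
      Real.exp (-(c * ∑ w ∈ W, (cnt (fun i => h (O i)) w : ℝ) ^ 2)))) :
    ∫⁻ O, F O ∂(Measure.pi fun _ : Fin r => ν) ≤
      ENNReal.ofReal (M * Real.exp ((∑ w ∈ W, lam w ^ 2) / (4 * c)) *
        (r * ((∫ y, m y * Real.exp (-tilt W lam (h y)) ∂ν) *
          (∫ y, z y * Real.exp (-tilt W lam (h y)) ∂ν) ^ (r - 1)))) := by
  classical
  set K : ℝ := M * Real.exp ((∑ w ∈ W, lam w ^ 2) / (4 * c)) with hK
  have hK0 : 0 ≤ K := by positivity
  set f : Fin r → Fin r → X → ℝ := fun i j y => (if j = i then m y else z y) *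
    Real.exp (-tilt W lam (h y)) with hf
  have hf0 : ∀ i j y, 0 ≤ f i j y := by
    intro i j y
    simp only [hf]
    split_ifs
    · exact mul_nonneg (hm0 y) (Real.exp_pos _).le
    · exact mul_nonneg (hz0 y) (Real.exp_pos _).le
  have hfi : ∀ i j, Integrable (f i j) ν := by
    intro i j
    simp only [hf]
    split_ifs
    · exact hm
    · exact hz
  have hprod : ∀ (O : Fin r → X) (i : Fin r), ∏ j, f i j (O j) =
      (m (O i) * ∏ j ∈ univ.erase i, z (O j)) * ∏ j, Real.exp (-tilt W lam (h (O j))) := by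
    intro O i
    simp only [hf]
    rw [Finset.prod_mul_distrib]
    congr 1
    rw [← Finset.mul_prod_erase univ _ (Finset.mem_univ i), if_pos rfl]
    congr 1
    refine Finset.prod_congr rfl fun j hj => ?_
    rw [if_neg (Finset.ne_of_mem_erase hj)]
  have h1 : ∀ O, F O ≤ ENNReal.ofReal (∑ i, K * ∏ j, f i j (O j)) := by
    intro O
    refine (hF O).trans (ENNReal.ofReal_le_ofReal ?_)
    have h2 := energy_le W lam hc (fun i => h (O i))
    have h3 : 0 ≤ M * (∑ i, m (O i) * ∏ j ∈ univ.erase i, z (O j)) :=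
      mul_nonneg hM (Finset.sum_nonneg fun i _ => mul_nonneg (hm0 _)
        (Finset.prod_nonneg fun j _ => hz0 _))
    calc M * (∑ i, m (O i) * ∏ j ∈ univ.erase i, z (O j)) *
          Real.exp (-(c * ∑ w ∈ W, (cnt (fun i => h (O i)) w : ℝ) ^ 2))
        ≤ M * (∑ i, m (O i) * ∏ j ∈ univ.erase i, z (O j)) *
          (Real.exp ((∑ w ∈ W, lam w ^ 2) / (4 * c)) *
          ∏ i, Real.exp (-tilt W lam (h (O i)))) := mul_le_mul_of_nonneg_left h2 h3
      _ = _ := by
          simp only [hprod]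
          rw [← Finset.mul_sum, ← Finset.sum_mul, hK]
          ring
  have hint : Integrable (fun O : Fin r → X => ∑ i, K * ∏ j, f i j (O j))
      (Measure.pi fun _ : Fin r => ν) :=
    integrable_finsetSum _ fun i _ => (Integrable.fintype_prod (f := f i) (hfi i)).const_mul _
  refine (lintegral_mono h1).trans (le_of_eq ?_)
  rw [← ofReal_integral_eq_lintegral_ofReal hint (Eventually.of_forall fun O => by
    exact Finset.sum_nonneg fun i _ => mul_nonneg hK0 (Finset.prod_nonneg fun j _ => hf0 _ _ _))]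
  congr 1
  rw [integral_finsetSum _ fun i _ => (Integrable.fintype_prod (f := f i) (hfi i)).const_mul _]
  have h4 : ∀ i : Fin r, ∫ O : Fin r → X, K * ∏ j, f i j (O j) ∂(Measure.pi fun _ : Fin r => ν) =
      K * ((∫ y, m y * Real.exp (-tilt W lam (h y)) ∂ν) *
          (∫ y, z y * Real.exp (-tilt W lam (h y)) ∂ν) ^ (r - 1)) := by
    intro i
    rw [integral_const_mul, integral_fintype_prod_eq_prod (fun (j : Fin r) y => f i j y),
      ← Finset.mul_prod_erase univ _ (Finset.mem_univ i)]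
    congr 1
    congr 1
    · simp only [hf, if_true]
    · rw [Finset.prod_congr rfl (g := fun _ => ∫ y, z y * Real.exp (-tilt W lam (h y)) ∂ν)
        (fun j hj => by
          simp only [hf, if_neg (Finset.ne_of_mem_erase hj)]), Finset.prod_const,
        Finset.card_erase_of_mem (Finset.mem_univ i), Finset.card_univ, Fintype.card_fin]
  rw [Finset.sum_congr rfl fun i _ => h4 i, Finset.sum_const, Finset.card_univ, Fintype.card_fin,
    nsmul_eq_mul]
  ring

lemma tilt_nonneg67 {W : Finset ℤ} {lam : ℤ → ℝ} (hl : ∀ w, 0 ≤ lam w) (t : ℝ) :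
    0 ≤ tilt W lam t := by
  unfold tilt
  split_ifs
  · exact hl _
  · exact le_rfl

lemma int_tilt_le {W : Finset ℤ} {lam : ℤ → ℝ} (hl : ∀ w, 0 ≤ lam w) {f : ℝ → ℝ}
    (hf : ∀ t, 0 ≤ f t) (hi : Integrable f) :
    Integrable (fun t => f t * Real.exp (-tilt W lam t)) ∧
      ∫ t, f t * Real.exp (-tilt W lam t) ≤ ∫ t, f t := by
  have h1 : ∀ t, Real.exp (-tilt W lam t) ≤ 1 := fun t => by
    rw [Real.exp_le_one_iff]
    linarith [tilt_nonneg67 (W := W) hl t]
  have h2 : Integrable (fun t => f t * Real.exp (-tilt W lam t)) := by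
    refine hi.mul_bdd (c := 1) ?_ (Eventually.of_forall fun t => ?_)
    · exact ((Real.continuous_exp.measurable.comp (tilt_measurable W lam).neg)).aestronglyMeasurable
    · rw [Real.norm_eq_abs, abs_of_pos (Real.exp_pos _)]
      exact h1 t
  refine ⟨h2, integral_mono h2 hi fun t => ?_⟩
  exact mul_le_of_le_one_right (hf t) (h1 t)

/-- `act_sum` with the sign of `k'` -/
theorem act_sum' {C C' c b c1 : ℝ} {k : ℕ} (hC : 0 < C) (hC' : 0 ≤ C') (hc1 : 0 < c1)
    {a0 δ : ℝ} (ha0 : 0 < a0) (hδ : 0 < δ) (NK : ℕ) (hAct : ActInt C C' c b k) :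
    ∃ D k' C3 L0 : ℝ, 0 < D ∧ 0 < k' ∧ 0 ≤ C3 ∧ ∀ L ≥ L0, ∀ ep : ℝ, 0 ≤ ep → ep ≤ 1 / 4 →
      ∀ e1 : ℝ, 0 < e1 → e1 ≤ 1 / 4 → ∀ J : ℝ, 0 ≤ J →
      NK * C * (Real.exp (-(2 * Real.pi * J)) + 3 * e1 + 3 * ep) ≤ a0 / 2 →
      ∀ r : ℕ, (r : ℝ) ≤ Real.exp (2 * L) →
        Integrable (fun t => act C C' c b k L ep e1 J r t *
          Real.exp (-tilt (WZ D L r) (lamZ k' L r) t)) ∧
        0 ≤ ∫ t, act C C' c b k L ep e1 J r t * Real.exp (-tilt (WZ D L r) (lamZ k' L r) t) ∧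
        NK * ∫ t, act C C' c b k L ep e1 J r t * Real.exp (-tilt (WZ D L r) (lamZ k' L r) t) ≤
          a0 * L ∧
        ((r : ℝ) ≤ L ^ 2 → cost D k' c1 L r ≤ δ * L) ∧
        (L ^ 2 ≤ (r : ℝ) → cost D k' c1 L r ≤ C3 * Real.log r ^ 2 * L) := by
  obtain ⟨D, k', B, LA, hD, hk', hB0, hA⟩ := hAct
  obtain ⟨LB, hB⟩ := cost_small (k' := k') hD.le hc1 hδ
  obtain ⟨C3, LC, hC3, hCc⟩ := cost_large (k' := k') hD.le hc1
  refine ⟨D, k', C3, max (max LA LB) (max LC (max 1 (2 * NK * B / a0))), hD, hk', hC3,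
    fun L hL ep hep hep' e1 he1 he1' J hJ hsm r hr => ?_⟩
  have l1 : LA ≤ L := ((le_max_left _ _).trans (le_max_left _ _)).trans hL
  have l2 : LB ≤ L := ((le_max_right _ _).trans (le_max_left _ _)).trans hL
  have l3 : LC ≤ L := ((le_max_left _ _).trans (le_max_right _ _)).trans hL
  have l4 : 1 ≤ L := ((le_max_left _ _).trans
    ((le_max_right _ _).trans (le_max_right _ _))).trans hL
  have l5 : 2 * NK * B / a0 ≤ L := ((le_max_right _ _).trans
    ((le_max_right _ _).trans (le_max_right _ _))).trans hL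
  obtain ⟨hi, hb⟩ := hA L l1 ep hep hep' e1 he1 he1' J hJ r hr
  have hLpos : 0 ≤ L := by linarith
  refine ⟨hi, integral_nonneg fun t => mul_nonneg (act_nonneg hC.le hC' hLpos)
    (Real.exp_pos _).le, ?_, fun h => hB L l2 r h, fun h => hCc L l3 r h hr⟩
  calc NK * ∫ t, act C C' c b k L ep e1 J r t * Real.exp (-tilt (WZ D L r) (lamZ k' L r) t)
      ≤ NK * (C * (Real.exp (-(2 * Real.pi * J)) + 3 * e1 + 3 * ep) * L + B) :=
        mul_le_mul_of_nonneg_left hb (Nat.cast_nonneg _)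
    _ = NK * C * (Real.exp (-(2 * Real.pi * J)) + 3 * e1 + 3 * ep) * L + NK * B := by ring
    _ ≤ a0 / 2 * L + a0 / 2 * L := by
        have h1 : NK * B ≤ a0 / 2 * L := by
          rw [div_le_iff₀ ha0] at l5
          linarith
        exact add_le_add (mul_le_mul_of_nonneg_right hsm hLpos) h1
    _ = a0 * L := by ring

/-- **the sum over the configurations with one marked object** -/
theorem xo_sum_mark {C c b c1 c' : ℝ} {k : ℕ} (hC : 0 < C) (hc1 : 0 < c1) (hc' : 0 ≤ c')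
    {δ : ℝ} (hδ : 0 < δ) :
    ∃ a0 : ℝ, 0 < a0 ∧ ∀ C' : ℝ, 0 ≤ C' → ActInt C C' c b k → ∃ D L0 : ℝ, 0 < D ∧
      ∀ L ≥ L0, ∀ ep : ℝ, 0 ≤ ep → ep ≤ 1 / 4 →
      ∀ e1 : ℝ, 0 < e1 → e1 ≤ 1 / 4 → ∀ J : ℝ, 0 ≤ J →
      Real.exp (-(2 * Real.pi * J)) + 3 * e1 + 3 * ep ≤ a0 →
      ∀ M : ℝ, 0 ≤ M → ∀ B : ℝ, 0 ≤ B → ∀ R : ℕ, (R : ℝ) ≤ Real.exp (2 * L) →
      ∀ mk : ℕ → ℝ → ℝ, (∀ r < R, ∀ t, 0 ≤ mk r t) → (∀ r < R, Integrable (mk r)) →
      (∀ r < R, 10 * ∫ t, mk r t ≤ B) →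
      ∀ F : (r : ℕ) → (Fin r → Xo) → ℝ≥0∞,
      (∀ r < R, ∀ O, F r O ≤ ENNReal.ofReal ((if (r : ℝ) ≤ L then M else M * Real.exp (c' * L)) *
          (∑ i, mk r (ht (O i)) * ∏ j ∈ univ.erase i, act C C' c b k L ep e1 J r (ht (O j))) *
          Real.exp (-(c1 * ∑ w ∈ WZ D L r, (cnt (fun i => ht (O i)) w : ℝ) ^ 2)))) →
      ∑ r ∈ range R, ((r.factorial : ℝ≥0∞))⁻¹ * ∫⁻ O, F r O ∂(Measure.pi fun _ : Fin r => nu) ≤
        ENNReal.ofReal (M * B * Real.exp (δ * L)) := by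
  obtain ⟨a, ha, hcore⟩ := sum_core hc' hδ
  refine ⟨a / 2 / (10 * C), by positivity, fun C' hC' hAct => ?_⟩
  obtain ⟨D, k', C3, LA, hD, hk', hC3, hA⟩ := act_sum' hC hC' hc1 ha
    (show 0 < δ / 4 by linarith) 10 hAct
  obtain ⟨LS, hS⟩ := hcore (C3 + 1) (by linarith)
  -- logarithms are small
  have hlog : ∃ LG : ℝ, ∀ L ≥ LG, 2 ≤ L ∧ 1 ≤ a * L ∧ Real.log (L ^ 2) ≤ δ / 4 * L := by
    have h1 : Tendsto (fun L : ℝ => Real.log L / L) atTop (nhds 0) := by
      have := Real.tendsto_pow_log_div_mul_add_atTop 1 0 1 one_ne_zero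
      simpa using this
    have h2 := h1.eventually_le_const (show (0 : ℝ) < δ / 8 by linarith)
    obtain ⟨L1, hL1⟩ := eventually_atTop.mp h2
    refine ⟨max (max L1 2) (1 / a), fun L hL => ?_⟩
    have g1 : L1 ≤ L := ((le_max_left _ _).trans (le_max_left _ _)).trans hL
    have g2 : 2 ≤ L := ((le_max_right _ _).trans (le_max_left _ _)).trans hL
    have g3 : 1 / a ≤ L := (le_max_right _ _).trans hL
    have g4 := hL1 L g1
    rw [div_le_iff₀ (by linarith)] at g4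
    refine ⟨g2, ?_, ?_⟩
    · rw [div_le_iff₀ ha] at g3
      linarith
    · rw [Real.log_pow]
      push_cast
      linarith
  obtain ⟨LG, hLG⟩ := hlog
  refine ⟨D, max (max LA LS) (max LG 0), hD, fun L hL ep hep hep' e1 he1 he1' J hJ hsm M hM B hB R hR
    mk hmk0 hmki hmkB F hF => ?_⟩
  have l1 : LA ≤ L := ((le_max_left _ _).trans (le_max_left _ _)).trans hL
  have l2 : LS ≤ L := ((le_max_right _ _).trans (le_max_left _ _)).trans hL
  have l3 : LG ≤ L := ((le_max_left _ _).trans (le_max_right _ _)).trans hL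
  obtain ⟨g1, g2, g3⟩ := hLG L l3
  have l4 : 0 ≤ L := by linarith
  have hsm' : ((10 : ℕ) : ℝ) * C * (Real.exp (-(2 * Real.pi * J)) + 3 * e1 + 3 * ep) ≤ a / 2 := by
    rw [le_div_iff₀ (by positivity)] at hsm
    push_cast
    linarith
  have hAr := hA L l1 ep hep hep' e1 he1 he1' J hJ hsm'
  have hrR : ∀ r < R, (r : ℝ) ≤ Real.exp (2 * L) := fun r hr =>
    le_trans (by exact_mod_cast hr.le) hR
  have hlam : ∀ (r : ℕ) (w : ℤ), 0 ≤ lamZ k' L r w := by
    intro r w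
    unfold lamZ
    refine mul_nonneg hk'.le (Real.log_nonneg ?_)
    have : (0 : ℝ) ≤ r := Nat.cast_nonneg r
    linarith
  set A : ℕ → ℝ := fun r => ((10 : ℕ) : ℝ) * ∫ t, act C C' c b k L ep e1 J r t *
    Real.exp (-tilt (WZ D L r) (lamZ k' L r) t) with hAdef
  set A' : ℕ → ℝ := fun r => max (A r) 1 with hA'def
  set cst : ℕ → ℝ := fun r => cost D k' c1 L r + Real.log (max (r : ℝ) 1) with hcst
  set S : ℕ → ℝ := fun r => (if (r : ℝ) ≤ L then M * B else M * B * Real.exp (c' * L)) *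
    Real.exp (cst r) * (A' r ^ r / (r.factorial : ℝ)) with hSdef
  have hA0 : ∀ r < R, 0 ≤ A r := fun r hr => mul_nonneg (Nat.cast_nonneg _) (hAr r (hrR r hr)).2.1
  have hA'1 : ∀ r, 1 ≤ A' r := fun r => le_max_right _ _
  have hMr : ∀ r : ℕ, 0 ≤ (if (r : ℝ) ≤ L then M else M * Real.exp (c' * L)) := by
    intro r
    split_ifs
    · exact hM
    · positivity
  have hMB : ∀ r : ℕ, (if (r : ℝ) ≤ L then M * B else M * B * Real.exp (c' * L)) =
      (if (r : ℝ) ≤ L then M else M * Real.exp (c' * L)) * B := by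
    intro r
    split_ifs
    · rfl
    · ring
  have hS0 : ∀ r < R, 0 ≤ S r := fun r hr => by
    have h2 := hA'1 r
    have h3 := hMr r
    simp only [hSdef, hMB]
    positivity
  have hfin := hS L l2 (M * B) (by positivity) R A' cst S (fun r _ => by linarith [hA'1 r])
    (fun r hr => max_le (hAr r (hrR r hr)).2.2.1 g2)
    (fun r hr h => by
      have k1 := (hAr r (hrR r hr)).2.2.2.1 h
      have k2 : Real.log (max (r : ℝ) 1) ≤ Real.log (L ^ 2) :=
        Real.log_le_log (by positivity) (max_le h (by nlinarith))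
      simp only [hcst]
      linarith)
    (fun r hr h => by
      have k1 := (hAr r (hrR r hr)).2.2.2.2 h
      simp only [hcst]
      have k0 : (4 : ℝ) ≤ r := by nlinarith
      rw [max_eq_left (by linarith)]
      have k3 : 1 ≤ Real.log r := by
        rw [Real.le_log_iff_exp_le (by linarith)]
        linarith [Real.exp_one_lt_d9]
      have k4 : Real.log r ≤ Real.log r ^ 2 * L := by
        have k5 : Real.log r ≤ Real.log r ^ 2 := by nlinarith
        have k6 : Real.log r ^ 2 ≤ Real.log r ^ 2 * L := by nlinarith [sq_nonneg (Real.log r)]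
        linarith
      nlinarith [k1, k4])
    (fun r hr => le_refl _)
  refine le_trans ?_ (ENNReal.ofReal_le_ofReal hfin)
  rw [ENNReal.ofReal_sum_of_nonneg fun r hr => hS0 r (Finset.mem_range.mp hr)]
  refine Finset.sum_le_sum fun r hr => ?_
  have hrR' := Finset.mem_range.mp hr
  obtain ⟨hi, hI0, -, -, -⟩ := hAr r (hrR r hrR')
  have hact0 : ∀ t, 0 ≤ act C C' c b k L ep e1 J r t := fun t => act_nonneg hC.le hC' l4
  obtain ⟨mi, mle⟩ := int_tilt_le (W := WZ D L r) (hlam r) (hmk0 r hrR') (hmki r hrR')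
  have hk := lint_leXm (ν := nu) (fun x : Xo => ht x)
    (fun x : Xo => act C C' c b k L ep e1 J r (ht x)) (fun x : Xo => mk r (ht x))
    (WZ D L r) (lamZ k' L r) hc1 (hMr r)
    (fun _ => hact0 _) (fun _ => hmk0 r hrR' _)
    (integrable_nu (f := fun t => act C C' c b k L ep e1 J r t *
      Real.exp (-tilt (WZ D L r) (lamZ k' L r) t)) hi)
    (integrable_nu (f := fun t => mk r t *
      Real.exp (-tilt (WZ D L r) (lamZ k' L r) t)) mi) r (F r) (hF r hrR')
  have hint : ∫ y : Xo, act C C' c b k L ep e1 J r (ht y) *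
      Real.exp (-tilt (WZ D L r) (lamZ k' L r) (ht y)) ∂nu = A r := by
    rw [hAdef]
    have := integral_nu (fun t => act C C' c b k L ep e1 J r t *
      Real.exp (-tilt (WZ D L r) (lamZ k' L r) t))
    rw [this]
    norm_num
  have hintm : ∫ y : Xo, mk r (ht y) *
      Real.exp (-tilt (WZ D L r) (lamZ k' L r) (ht y)) ∂nu ≤ B := by
    have := integral_nu (fun t => mk r t * Real.exp (-tilt (WZ D L r) (lamZ k' L r) t))
    rw [this]
    refine le_trans ?_ (hmkB r hrR')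
    linarith
  rw [hint] at hk
  have hfac : ((r.factorial : ℝ≥0∞))⁻¹ = ENNReal.ofReal ((r.factorial : ℝ)⁻¹) := by
    rw [ENNReal.ofReal_inv_of_pos (by positivity), ENNReal.ofReal_natCast]
  rw [hfac]
  refine (mul_le_mul_right hk _).trans ?_
  rw [← ENNReal.ofReal_mul (by positivity)]
  refine ENNReal.ofReal_le_ofReal ?_
  have hAr0 := hA0 r hrR'
  have hpow : (r : ℝ) * A r ^ (r - 1) ≤ Real.exp (Real.log (max (r : ℝ) 1)) * A' r ^ r := by
    rw [Real.exp_log (by positivity)]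
    have h1 : A r ^ (r - 1) ≤ A' r ^ r :=
      (pow_le_pow_left₀ hAr0 (le_max_left _ _) _).trans
        (pow_le_pow_right₀ (hA'1 r) (Nat.sub_le r 1))
    exact mul_le_mul (le_max_left _ _) h1 (by positivity) (by positivity)
  simp only [hSdef, hMB, hcst]
  rw [Real.exp_add]
  obtain ⟨Mr, hMrd⟩ : ∃ Mr, Mr = (if (r : ℝ) ≤ L then M else M * Real.exp (c' * L)) := ⟨_, rfl⟩
  have hMr0 : 0 ≤ Mr := by
    rw [hMrd]
    exact hMr r
  rw [← hMrd]
  have hf0 : (0 : ℝ) < (r.factorial : ℝ)⁻¹ := by positivity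
  have hE0 : 0 < Real.exp (cost D k' c1 L r) := Real.exp_pos _
  have hcost : Real.exp ((∑ w ∈ WZ D L r, lamZ k' L r w ^ 2) / (4 * c1)) =
      Real.exp (cost D k' c1 L r) := rfl
  rw [hcost]
  obtain ⟨I1, hI1⟩ : ∃ I1, I1 = ∫ y : Xo, mk r (ht y) *
      Real.exp (-tilt (WZ D L r) (lamZ k' L r) (ht y)) ∂nu := ⟨_, rfl⟩
  rw [← hI1] at hintm ⊢
  calc (r.factorial : ℝ)⁻¹ * (Mr * Real.exp (cost D k' c1 L r) * (r * (I1 * A r ^ (r - 1))))
      = (r.factorial : ℝ)⁻¹ * (Mr * Real.exp (cost D k' c1 L r)) * (I1 * (r * A r ^ (r - 1))) := by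
        ring
    _ ≤ (r.factorial : ℝ)⁻¹ * (Mr * Real.exp (cost D k' c1 L r)) * (B * (r * A r ^ (r - 1))) := by
        gcongr
    _ ≤ (r.factorial : ℝ)⁻¹ * (Mr * Real.exp (cost D k' c1 L r)) *
        (B * (Real.exp (Real.log (max (r : ℝ) 1)) * A' r ^ r)) := by
        gcongr
    _ = _ := by
        rw [div_eq_mul_inv]
        ring

end NUO
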